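import Mathlib

/-!
# Roots of unity modulo an integer and counting in residue classes
-/

set_option autoImplicit false

namespace Pool.Agent.H172.TC

open Finset

/-- The number of `d`-th roots of unity modulo `h`. -/
noncomputable def nroots (d h : ℕ) : ℕ := Nat.card {t : (ZMod h)ˣ // t ^ d = 1}

lemma nroots_prime_pow {d p n : ℕ} (hd : 0 < d) (hp : p.Prime) (hp2 : p ≠ 2) :
    nroots d (p ^ n) ≤ d := by
  classical
  have := ZMod.isCyclic_units_of_prime_pow p hp hp2 n
  have : NeZero (p ^ n) := ⟨pow_ne_zero _ hp.ne_zero⟩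
  unfold nroots
  rw [Nat.card_eq_fintype_card, Fintype.card_subtype]
  exact IsCyclic.card_pow_eq_one_le hd

lemma nroots_mul {d a b : ℕ} (hab : a.Coprime b) :
    nroots d (a * b) = nroots d a * nroots d b := by
  unfold nroots
  rw [← Nat.card_prod]
  let e : (ZMod (a * b))ˣ ≃* (ZMod a)ˣ × (ZMod b)ˣ :=
    (Units.mapEquiv (ZMod.chineseRemainder hab).toMulEquiv).trans MulEquiv.prodUnits
  refine Nat.card_congr ?_
  refine (Equiv.subtypeEquiv e.toEquiv (q := fun s => s ^ d = 1) (fun t => ?_)).trans ?_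
  · constructor
    · intro h
      show e t ^ d = 1
      rw [← map_pow, h, map_one]
    · intro h
      have h' : e t ^ d = 1 := h
      rw [← map_pow] at h'
      exact (map_eq_one_iff e e.injective).1 h'
  · exact
      { toFun := fun s => (⟨s.1.1, congrArg Prod.fst s.2⟩, ⟨s.1.2, congrArg Prod.snd s.2⟩)
        invFun := fun s => ⟨(s.1.1, s.2.1), Prod.ext s.1.2 s.2.2⟩
        left_inv := fun s => rfl
        right_inv := fun s => rfl }

lemma nroots_le {d : ℕ} (hd : 0 < d) (h : ℕ) :
    h ≠ 0 → (∀ p : ℕ, p.Prime → p ∣ h → p ≠ 2) → nroots d h ≤ d ^ h.primeFactors.card := by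
  induction h using Nat.recOnPosPrimePosCoprime with
  | prime_pow p n hp hn =>
    intro _ h2
    rw [Nat.primeFactors_prime_pow hn.ne' hp, Finset.card_singleton, pow_one]
    exact nroots_prime_pow hd hp (h2 p hp (dvd_pow_self p hn.ne'))
  | zero => intro h; exact absurd rfl h
  | one =>
    intro _ _
    have h0 := nroots_prime_pow (n := 0) hd Nat.prime_three (by norm_num)
    rw [Nat.primeFactors_one, Finset.card_empty, pow_zero]
    unfold nroots
    have : Subsingleton {t : (ZMod 1)ˣ // t ^ d = 1} := by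
      have : Subsingleton (ZMod 1)ˣ := by
        constructor
        intro a b
        ext
        exact Subsingleton.elim _ _
      infer_instance
    exact Finite.card_le_one_iff_subsingleton.2 this
  | coprime a b ha hb hab iha ihb =>
    intro _ h2
    rw [nroots_mul hab, Nat.Coprime.primeFactors_mul hab,
      Finset.card_union_of_disjoint hab.disjoint_primeFactors, pow_add]
    exact Nat.mul_le_mul (iha (by omega) fun p hp hd => h2 p hp (hd.mul_right b))
      (ihb (by omega) fun p hp hd => h2 p hp (hd.mul_left a))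

/-- The number of integers below `N` in a residue class. -/
lemma card_modEq (N g v : ℕ) (hg : 0 < g) :
    ((range N).filter fun x => x ≡ v [MOD g]).card =
      N / g + if v % g < N % g then 1 else 0 := by
  rw [← Nat.count_modEq_card N hg v, Nat.count_eq_card_filter_range]

lemma card_modEq_le (N g v : ℕ) (hg : 0 < g) :
    ((range N).filter fun x => x ≡ v [MOD g]).card ≤ N / g + 1 := by
  rw [card_modEq N g v hg]
  split_ifs <;> omega

lemma card_modEq_ge (N g v : ℕ) (hg : 0 < g) :
    N / g ≤ ((range N).filter fun x => x ≡ v [MOD g]).card := by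
  rw [card_modEq N g v hg]
  omega

lemma card_modEq_dvd (N g v : ℕ) (hg : 0 < g) (h : g ∣ N) :
    ((range N).filter fun x => x ≡ v [MOD g]).card = N / g := by
  rw [card_modEq N g v hg, Nat.mod_eq_zero_of_dvd h]
  simp

open Classical in
/-- Counting through a map to the roots of unity which is injective on residue classes. -/
lemma card_le_roots {d M g K : ℕ} (hg : 0 < g) (S : Finset ℕ) (hS : S ⊆ range M)
    (hK : ∀ v, ((range M).filter fun x => x ≡ v [MOD g]).card ≤ K)
    (φ : ℕ → (ZMod g)ˣ) (h1 : ∀ x ∈ S, φ x ^ d = 1)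
    (h2 : ∀ x ∈ S, ∀ y ∈ S, φ x = φ y → x ≡ y [MOD g]) :
    S.card ≤ K * nroots d g := by
  have : NeZero g := ⟨hg.ne'⟩
  have h3 : nroots d g = (univ.filter fun t : (ZMod g)ˣ => t ^ d = 1).card := by
    unfold nroots
    rw [Nat.card_eq_fintype_card, Fintype.card_subtype]
  rw [h3]
  refine Finset.card_le_mul_card_image_of_maps_to (f := φ) (fun x hx => ?_) K ?_
  · exact Finset.mem_filter.2 ⟨Finset.mem_univ _, h1 x hx⟩
  · intro b _
    rcases (S.filter fun x => φ x = b).eq_empty_or_nonempty with h4 | ⟨v, hv⟩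
    · rw [h4]; simp
    · have hv' := Finset.mem_filter.1 hv
      refine (Finset.card_le_card ?_).trans (hK v)
      intro x hx
      have hx' := Finset.mem_filter.1 hx
      exact Finset.mem_filter.2 ⟨hS hx'.1, h2 x hx'.1 v hv'.1 (hx'.2.trans hv'.2.symm)⟩

open Classical in
/-- The number of residues `x` below `M`, prime to `M`, with `x ^ d` in a given class modulo a
divisor `g` of `M`. -/
lemma card_pow_le {d M g c : ℕ} (hM : 0 < M) (hgM : g ∣ M) :
    ((range M).filter fun x => x.Coprime M ∧ x ^ d ≡ c [MOD g]).card ≤ (M / g) * nroots d g := by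
  have hg : 0 < g := Nat.pos_of_dvd_of_pos hgM hM
  rcases ((range M).filter fun x => x.Coprime M ∧ x ^ d ≡ c [MOD g]).eq_empty_or_nonempty with
    h0 | ⟨x₀, hx₀⟩
  · rw [h0]; simp
  obtain ⟨-, hc₀, hx₀⟩ := Finset.mem_filter.1 hx₀
  have hc₀' : x₀.Coprime g := hc₀.coprime_dvd_right hgM
  let φ : ℕ → (ZMod g)ˣ := fun x =>
    if h : x.Coprime g then ZMod.unitOfCoprime x h * (ZMod.unitOfCoprime x₀ hc₀')⁻¹ else 1
  refine card_le_roots hg _ (Finset.filter_subset _ _)
    (fun v => (card_modEq_dvd M g v hg hgM).le) φ ?_ ?_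
  · intro x hx
    obtain ⟨-, hxc, hx⟩ := Finset.mem_filter.1 hx
    have hxc' : x.Coprime g := hxc.coprime_dvd_right hgM
    simp only [φ, dif_pos hxc']
    rw [mul_pow, inv_pow, mul_inv_eq_one]
    ext
    push_cast
    rw [ZMod.coe_unitOfCoprime, ZMod.coe_unitOfCoprime]
    have : ((x ^ d : ℕ) : ZMod g) = ((x₀ ^ d : ℕ) : ZMod g) :=
      (ZMod.natCast_eq_natCast_iff _ _ _).2 (hx.trans hx₀.symm)
    push_cast at this
    exact this
  · intro x hx y hy hxy
    obtain ⟨-, hxc, -⟩ := Finset.mem_filter.1 hx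
    obtain ⟨-, hyc, -⟩ := Finset.mem_filter.1 hy
    have hxc' : x.Coprime g := hxc.coprime_dvd_right hgM
    have hyc' : y.Coprime g := hyc.coprime_dvd_right hgM
    simp only [φ, dif_pos hxc', dif_pos hyc'] at hxy
    have h5 := mul_right_cancel hxy
    have h6 := congrArg (fun u : (ZMod g)ˣ => (u : ZMod g)) h5
    simp only [ZMod.coe_unitOfCoprime] at h6
    exact (ZMod.natCast_eq_natCast_iff _ _ _).1 h6

end Pool.Agent.H172.TC
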