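import Mathlib
import Pool.Agent.H172.TC.Roots

/-!
# The moduli `(a + 1) ^ d - a ^ d`
-/

set_option autoImplicit false

namespace Pool.Agent.H172.TC

open Finset

/-- The modulus which belongs to the ratio `a : a + 1`. -/
def f (d a : ℕ) : ℕ := (a + 1) ^ d - a ^ d

lemma f_add (d a : ℕ) : f d a + a ^ d = (a + 1) ^ d :=
  Nat.sub_add_cancel (Nat.pow_le_pow_left (Nat.le_succ a) d)

lemma f_le (d a : ℕ) : f d a ≤ (a + 1) ^ d := Nat.sub_le _ _

lemma f_coprime {d : ℕ} (hd : 0 < d) (a : ℕ) : (f d a).Coprime a := by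
  obtain ⟨e, rfl⟩ := Nat.exists_eq_succ_of_ne_zero hd.ne'
  have h1 : f (e + 1) a + a * a ^ e = (a + 1) ^ (e + 1) := by
    rw [← f_add (e + 1) a, pow_succ]; ring
  have h2 : ((a + 1) ^ (e + 1)).Coprime a := Nat.Coprime.pow_left _ (by simp)
  rw [← h1] at h2
  simpa using h2

lemma f_coprime_succ {d : ℕ} (hd : 0 < d) (a : ℕ) : (f d a).Coprime (a + 1) := by
  obtain ⟨e, rfl⟩ := Nat.exists_eq_succ_of_ne_zero hd.ne'
  have h1 := f_add (e + 1) a
  have h2 : (a ^ (e + 1)).Coprime (a + 1) := Nat.Coprime.pow_left _ (by simp)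
  refine Nat.Coprime.symm ?_
  refine Nat.coprime_of_dvd fun p hp hpa hpf => ?_
  have h3 : p ∣ a ^ (e + 1) := by
    have h4 : p ∣ (a + 1) ^ (e + 1) := dvd_pow hpa (by omega)
    rw [← h1] at h4
    exact (Nat.dvd_add_right hpf).1 h4
  exact Nat.not_coprime_of_dvd_of_dvd hp.one_lt h3 hpa h2

lemma f_pos {d : ℕ} (hd : 0 < d) (a : ℕ) : 0 < f d a :=
  Nat.sub_pos_of_lt (Nat.pow_lt_pow_left (Nat.lt_succ_self a) hd.ne')

/-- All prime factors of `h` are larger than `z`. -/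
def Rough (z h : ℕ) : Prop := ∀ p : ℕ, p.Prime → p ∣ h → z < p

lemma rough_f {d z W : ℕ} (hd : 0 < d) (hW : ∀ p : ℕ, p.Prime → p ≤ z → p ∣ W) (j : ℕ) :
    Rough z (f d (W * (j + 1))) := by
  intro p hp hpf
  by_contra hcon
  have h1 : p ∣ W * (j + 1) := (hW p hp (by omega)).mul_right _
  exact Nat.not_coprime_of_dvd_of_dvd hp.one_lt hpf h1 (f_coprime hd _)

lemma Rough.of_dvd {z h k : ℕ} (H : Rough z h) (hk : k ∣ h) : Rough z k :=
  fun p hp hpk => H p hp (hpk.trans hk)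

lemma Rough.pow_card_le {z h c : ℕ} (H : Rough z h) (hh : h ≠ 0) (hc : c ≤ z) :
    c ^ h.primeFactors.card ≤ h := by
  calc c ^ h.primeFactors.card = ∏ _p ∈ h.primeFactors, c := by rw [Finset.prod_const]
    _ ≤ ∏ p ∈ h.primeFactors, p := Finset.prod_le_prod' fun p hp =>
        hc.trans (H p (Nat.prime_of_mem_primeFactors hp) (Nat.dvd_of_mem_primeFactors hp)).le
    _ ≤ h := Nat.le_of_dvd (Nat.pos_of_ne_zero hh) (Nat.prod_primeFactors_dvd h)

lemma Rough.nroots_le {d z h : ℕ} (H : Rough z h) (hd : 0 < d) (hh : h ≠ 0) (hz : 2 ≤ z) :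
    nroots d h ≤ d ^ h.primeFactors.card :=
  TC.nroots_le hd h hh fun p hp hph h2 => by
    have := H p hp hph
    omega

lemma comm_aux {G : Type} [CommGroup G] {a b c e : G} (h : a = b * c⁻¹ * e) : a * c = b * e := by
  rw [h, mul_assoc (b * c⁻¹), mul_comm e c, ← mul_assoc, inv_mul_cancel_right]

open Classical in
lemma card_f_le {d W h J : ℕ} (hd : 0 < d) (hh : 0 < h) :
    ((range J).filter fun j => h ∣ f d (W * (j + 1))).card ≤ (J / h + 1) * nroots d h := by
  have hcop : ∀ a, h ∣ f d a → a.Coprime h := fun a ha =>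
    ((f_coprime hd a).symm).coprime_dvd_right ha
  have hcop' : ∀ a, h ∣ f d a → (a + 1).Coprime h := fun a ha =>
    ((f_coprime_succ hd a).symm).coprime_dvd_right ha
  let φ : ℕ → (ZMod h)ˣ := fun j =>
    if H : h ∣ f d (W * (j + 1)) then
      ZMod.unitOfCoprime (W * (j + 1) + 1) (hcop' _ H) *
        (ZMod.unitOfCoprime (W * (j + 1)) (hcop _ H))⁻¹ else 1
  refine card_le_roots hh _ (Finset.filter_subset _ _) (fun v => card_modEq_le J h v hh) φ ?_ ?_
  · intro j hj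
    obtain ⟨-, hj⟩ := Finset.mem_filter.1 hj
    simp only [φ, dif_pos hj]
    rw [mul_pow, inv_pow, mul_inv_eq_one]
    ext
    push_cast
    rw [ZMod.coe_unitOfCoprime, ZMod.coe_unitOfCoprime]
    have h1 := f_add d (W * (j + 1))
    have h2 : ((f d (W * (j + 1)) : ℕ) : ZMod h) = 0 := (ZMod.natCast_eq_zero_iff _ _).2 hj
    have h3 := congrArg (fun n : ℕ => (n : ZMod h)) h1
    simp only [Nat.cast_add, h2, zero_add] at h3
    push_cast at h3 ⊢
    exact h3.symm
  · intro j hj k hk hjk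
    obtain ⟨-, hj⟩ := Finset.mem_filter.1 hj
    obtain ⟨-, hk⟩ := Finset.mem_filter.1 hk
    simp only [φ, dif_pos hj, dif_pos hk] at hjk
    rw [mul_inv_eq_iff_eq_mul] at hjk
    have h5 : ZMod.unitOfCoprime (W * (j + 1) + 1) (hcop' _ hj) *
        ZMod.unitOfCoprime (W * (k + 1)) (hcop _ hk) =
        ZMod.unitOfCoprime (W * (k + 1) + 1) (hcop' _ hk) *
        ZMod.unitOfCoprime (W * (j + 1)) (hcop _ hj) := by
      exact comm_aux hjk
    have h6 := congrArg (fun u : (ZMod h)ˣ => (u : ZMod h)) h5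
    simp only [Units.val_mul, ZMod.coe_unitOfCoprime] at h6
    have h7 : ((W * (j + 1) : ℕ) : ZMod h) = ((W * (k + 1) : ℕ) : ZMod h) := by
      push_cast at h6 ⊢
      linear_combination -h6
    have h8 : W * (j + 1) ≡ W * (k + 1) [MOD h] := (ZMod.natCast_eq_natCast_iff _ _ _).1 h7
    have hWh : h.gcd W = 1 := ((hcop _ hj).coprime_dvd_left (Dvd.intro _ rfl)).symm
    have h9 := Nat.ModEq.cancel_left_of_coprime hWh h8
    exact Nat.ModEq.add_right_cancel' 1 h9

end Pool.Agent.H172.TC
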