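import Mathlib
import Pool.Agent.H172.TC.Count

/-!
# Bounds for the sums over pairs of moduli
-/

set_option autoImplicit false

namespace Pool.Agent.H172.TC

open Finset

lemma tele {z J : ℕ} (hz : 1 ≤ z) :
    ∑ h ∈ Ioc z J, √(h : ℝ) / (h : ℝ) ^ 2 ≤ 2 / √(z : ℝ) := by
  rcases Nat.lt_or_ge J z with hJ | hJ
  · rw [Finset.Ioc_eq_empty_of_le hJ.le]; simp only [Finset.sum_empty]; positivity
  have key : ∑ h ∈ Ioc z J, √(h : ℝ) / (h : ℝ) ^ 2 ≤ 2 / √(z : ℝ) - 2 / √(J : ℝ) := by
    induction J, hJ using Nat.le_induction with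
    | base => simp
    | succ n hn ih =>
      rw [← Finset.insert_Ioc_right_eq_Ioc_add_one hn, Finset.sum_insert (by simp)]
      have hn0 : (0 : ℝ) < n := by
        have : 0 < n := by omega
        exact_mod_cast this
      set a := √(n : ℝ) with ha
      set b := √((n + 1 : ℕ) : ℝ) with hb
      have ha0 : 0 < a := Real.sqrt_pos.2 hn0
      have hb0 : 0 < b := Real.sqrt_pos.2 (by positivity)
      have ha2 : a ^ 2 = n := Real.sq_sqrt hn0.le
      have hb2 : b ^ 2 = ((n + 1 : ℕ) : ℝ) := Real.sq_sqrt (by positivity)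
      have hab : b ^ 2 = a ^ 2 + 1 := by rw [hb2, ha2]; push_cast; ring
      have hle : a ≤ b := Real.sqrt_le_sqrt (by push_cast; linarith)
      rw [← hb2]
      have h1 : b / (b ^ 2) ^ 2 = 1 / b ^ 3 := by field_simp
      have h2 : 2 / a - 2 / b = 2 / (a * b * (a + b)) := by
        rw [div_sub_div _ _ ha0.ne' hb0.ne', div_eq_div_iff (by positivity) (by positivity)]
        have : (2 * b - a * 2) * (a + b) = 2 := by nlinarith
        calc (2 * b - a * 2) * (a * b * (a + b)) = (a * b) * ((2 * b - a * 2) * (a + b)) := by ring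
          _ = 2 * (a * b) := by rw [this]; ring
      have h3 : 1 / b ^ 3 ≤ 2 / (a * b * (a + b)) := by
        rw [div_le_div_iff₀ (by positivity) (by positivity)]
        have h4 : a * b * (a + b) ≤ b * b * (b + b) := by gcongr
        nlinarith
      rw [h1]
      linarith
  have h5 : (0 : ℝ) ≤ 2 / √(J : ℝ) := by positivity
  linarith

lemma prod_one_sub {ι : Type} (s : Finset ι) (x : ι → ℝ) (h0 : ∀ i ∈ s, 0 ≤ x i)
    (h1 : ∀ i ∈ s, x i ≤ 1) : 1 - ∑ i ∈ s, x i ≤ ∏ i ∈ s, (1 - x i) := by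
  classical
  induction s using Finset.induction_on with
  | empty => simp
  | insert a s ha ih =>
    rw [Finset.sum_insert ha, Finset.prod_insert ha]
    have h2 := ih (fun i hi => h0 i (Finset.mem_insert_of_mem hi))
      (fun i hi => h1 i (Finset.mem_insert_of_mem hi))
    have h3 := h0 a (Finset.mem_insert_self a s)
    have h4 := h1 a (Finset.mem_insert_self a s)
    have h5 : 0 ≤ ∑ i ∈ s, x i := Finset.sum_nonneg fun i hi => h0 i (Finset.mem_insert_of_mem hi)
    nlinarith [mul_le_mul_of_nonneg_left h2 (sub_nonneg.2 h4), mul_nonneg h3 h5]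

lemma totient_ge {m : ℕ} (hm : 0 < m) :
    1 - (m.totient : ℝ) / m ≤ ∑ p ∈ m.primeFactors, (1 : ℝ) / p := by
  have h1 := Nat.totient_eq_mul_prod_factors m
  have h2 : (m.totient : ℝ) = m * ∏ p ∈ m.primeFactors, (1 - (p : ℝ)⁻¹) := by
    have h1' := congrArg (fun q : ℚ => (q : ℝ)) h1
    push_cast at h1'
    exact h1'
  have hmR : (0 : ℝ) < m := by exact_mod_cast hm
  rw [h2, mul_div_assoc, mul_comm, div_mul_cancel₀ _ hmR.ne']
  have h3 := prod_one_sub m.primeFactors (fun p => (p : ℝ)⁻¹) (fun p _ => by positivity)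
    (fun p hp => by
      have h4 : (1 : ℝ) ≤ p := by
        exact_mod_cast (Nat.prime_of_mem_primeFactors hp).one_lt.le
      exact inv_le_one_of_one_le₀ h4)
  simp only [one_div]
  linarith

/-- For a number without small prime factors the number of divisors is small. -/
lemma Rough.card_divisors_pow_le {z m k : ℕ} (H : Rough z m) (hm : m ≠ 0) (hk : 2 ^ k ≤ z) :
    m.divisors.card ^ k ≤ m := by
  rw [Nat.card_divisors hm, ← Finset.prod_pow]
  calc ∏ p ∈ m.primeFactors, (m.factorization p + 1) ^ k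
      ≤ ∏ p ∈ m.primeFactors, p ^ m.factorization p := by
        refine Finset.prod_le_prod' fun p hp => ?_
        have h1 : 2 ^ k ≤ p := hk.trans
          (H p (Nat.prime_of_mem_primeFactors hp) (Nat.dvd_of_mem_primeFactors hp)).le
        calc (m.factorization p + 1) ^ k ≤ (2 ^ m.factorization p) ^ k :=
              Nat.pow_le_pow_left Nat.lt_two_pow_self k
          _ = (2 ^ k) ^ m.factorization p := by rw [← pow_mul, ← pow_mul, mul_comm]
          _ ≤ p ^ m.factorization p := Nat.pow_le_pow_left h1 _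
    _ = m := Nat.prod_factorization_pow_eq_self hm

lemma rough_one_or {z h : ℕ} (H : Rough z h) (h0 : h ≠ 0) : h = 1 ∨ z < h := by
  by_cases h1 : h = 1
  · exact Or.inl h1
  · right
    obtain ⟨p, hp, hph⟩ := Nat.exists_prime_and_dvd h1
    exact (H p hp hph).trans_le (Nat.le_of_dvd (Nat.pos_of_ne_zero h0) hph)

/-- The quantity which bounds the sums over divisors. -/
def X (d m : ℕ) : ℕ := m.divisors.card * (d ^ m.primeFactors.card) ^ 2

lemma X_sq_le {d z W j : ℕ} (hd : 0 < d) (hz : (2 * d) ^ (8 * d) ≤ z)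
    (hW : ∀ p : ℕ, p.Prime → p ≤ z → p ∣ W) (hW0 : 0 < W) :
    X d (f d (W * (j + 1))) ^ 2 ≤ 2 * (W * (j + 1)) := by
  set m := f d (W * (j + 1)) with hm
  have H : Rough z m := rough_f hd hW j
  have hm0 : m ≠ 0 := (f_pos hd _).ne'
  have h1 : m.divisors.card ^ (4 * d) ≤ m := by
    refine H.card_divisors_pow_le hm0 (le_trans ?_ hz)
    calc 2 ^ (4 * d) ≤ (2 * d) ^ (4 * d) := Nat.pow_le_pow_left (by omega) _
      _ ≤ (2 * d) ^ (8 * d) := Nat.pow_le_pow_right (by omega) (by omega)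
  have h2 : (d ^ (8 * d)) ^ m.primeFactors.card ≤ m := by
    refine H.pow_card_le hm0 (le_trans ?_ hz)
    exact Nat.pow_le_pow_left (by omega) _
  have h3 : m ≤ (2 * (W * (j + 1))) ^ d := by
    refine (f_le d _).trans (Nat.pow_le_pow_left ?_ d)
    have : 0 < W * (j + 1) := by positivity
    omega
  have h4 : (X d m ^ 2) ^ d * (X d m ^ 2) ^ d ≤ m * m := by
    calc (X d m ^ 2) ^ d * (X d m ^ 2) ^ d
        = m.divisors.card ^ (4 * d) * (d ^ (8 * d)) ^ m.primeFactors.card := by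
          unfold X
          generalize m.divisors.card = t
          generalize m.primeFactors.card = w
          rw [← pow_add, ← pow_mul, mul_pow, ← pow_mul, ← pow_mul, ← pow_mul]
          congr 1
          · congr 1; ring
          · congr 1; ring
      _ ≤ m * m := Nat.mul_le_mul h1 h2
  have h5 : (X d m ^ 2) ^ d ≤ m := Nat.mul_self_le_mul_self_iff.1 h4
  have h6 : (X d m ^ 2) ^ d ≤ (2 * (W * (j + 1))) ^ d := h5.trans h3
  exact (Nat.pow_le_pow_iff_left hd.ne').1 h6

open Classical in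
/-- The number of indices below `J` whose modulus is divisible by `h`. -/
noncomputable def cnt (d W J h : ℕ) : ℕ := ((range J).filter fun j => h ∣ f d (W * (j + 1))).card

open Classical in
lemma small_term {d z W J h : ℕ} (hd : 0 < d) (hz : (2 * d) ^ (8 * d) ≤ z)
    (hW : ∀ p : ℕ, p.Prime → p ≤ z → p ∣ W) (hh : 0 < h) (hhJ : h ≤ J) :
    (nroots d h : ℝ) * (cnt d W J h : ℝ) ^ 2 ≤ 4 * (J : ℝ) ^ 2 * (√(h : ℝ) / (h : ℝ) ^ 2) := by
  have hhR : (0 : ℝ) < h := by exact_mod_cast hh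
  rcases Nat.eq_zero_or_pos (cnt d W J h) with h0 | h0
  · rw [h0]; simp only [Nat.cast_zero, ne_eq, OfNat.ofNat_ne_zero, not_false_eq_true, zero_pow,
      mul_zero]; positivity
  obtain ⟨j, hj⟩ := Finset.card_pos.1 h0
  have hj' := (Finset.mem_filter.1 hj).2
  have H : Rough z h := (rough_f hd hW j).of_dvd hj'
  have hz2 : 2 ≤ z := by
    refine le_trans ?_ hz
    calc 2 ≤ 2 * d := by omega
      _ ≤ (2 * d) ^ (8 * d) := Nat.le_self_pow (by omega) _
  have h1 : nroots d h ≤ d ^ h.primeFactors.card := H.nroots_le hd hh.ne' hz2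
  have h2 : cnt d W J h ≤ (J / h + 1) * nroots d h := card_f_le hd hh
  have h3 : ((J / h + 1 : ℕ) : ℝ) ≤ 2 * J / h := by
    have h4 : ((J / h : ℕ) : ℝ) ≤ (J : ℝ) / h := Nat.cast_div_le
    have h5 : (1 : ℝ) ≤ (J : ℝ) / h := by
      rw [one_le_div hhR]; exact_mod_cast hhJ
    push_cast
    have h6 : 2 * (J : ℝ) / h = J / h + J / h := by ring
    linarith
  set w := (d : ℝ) ^ h.primeFactors.card with hw
  have h1R : (nroots d h : ℝ) ≤ w := by rw [hw]; exact_mod_cast h1
  have hw0 : 0 ≤ w := by positivity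
  have h2R : (cnt d W J h : ℝ) ≤ 2 * J / h * w := by
    calc (cnt d W J h : ℝ) ≤ ((J / h + 1 : ℕ) : ℝ) * nroots d h := by exact_mod_cast h2
      _ ≤ 2 * J / h * w := by gcongr
  have h7 : w ^ 3 ≤ √(h : ℝ) := by
    refine Real.le_sqrt_of_sq_le ?_
    have h8 : (d ^ 6) ^ h.primeFactors.card ≤ h := by
      refine H.pow_card_le hh.ne' (le_trans ?_ hz)
      calc d ^ 6 ≤ (2 * d) ^ 6 := Nat.pow_le_pow_left (by omega) _
        _ ≤ (2 * d) ^ (8 * d) := Nat.pow_le_pow_right (by omega) (by omega)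
    have h9 : (w ^ 3) ^ 2 = (((d ^ 6) ^ h.primeFactors.card : ℕ) : ℝ) := by
      rw [hw]; push_cast; rw [← pow_mul, ← pow_mul, ← pow_mul]; congr 1; ring
    rw [h9]
    exact_mod_cast h8
  calc (nroots d h : ℝ) * (cnt d W J h : ℝ) ^ 2 ≤ w * (2 * J / h * w) ^ 2 := by gcongr
    _ = 4 * (J : ℝ) ^ 2 * (w ^ 3 / (h : ℝ) ^ 2) := by field_simp; ring
    _ ≤ 4 * (J : ℝ) ^ 2 * (√(h : ℝ) / (h : ℝ) ^ 2) := by gcongr

open Classical in
lemma large_term {d z W J h i : ℕ} (hd : 0 < d) (hz : (2 * d) ^ (8 * d) ≤ z)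
    (hW : ∀ p : ℕ, p.Prime → p ≤ z → p ∣ W) (hh : h ∣ f d (W * (i + 1))) (hhJ : J < h) :
    nroots d h * cnt d W J h ≤ (d ^ (f d (W * (i + 1))).primeFactors.card) ^ 2 := by
  have hm0 : f d (W * (i + 1)) ≠ 0 := (f_pos hd _).ne'
  have hh0 : 0 < h := Nat.pos_of_dvd_of_pos hh (f_pos hd _)
  have H : Rough z h := (rough_f hd hW i).of_dvd hh
  have hz2 : 2 ≤ z := by
    refine le_trans ?_ hz
    calc 2 ≤ 2 * d := by omega
      _ ≤ (2 * d) ^ (8 * d) := Nat.le_self_pow (by omega) _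
  have h1 : nroots d h ≤ d ^ h.primeFactors.card := H.nroots_le hd hh0.ne' hz2
  have h2 : cnt d W J h ≤ (J / h + 1) * nroots d h := card_f_le hd hh0
  rw [Nat.div_eq_of_lt hhJ, zero_add, one_mul] at h2
  have h3 : d ^ h.primeFactors.card ≤ d ^ (f d (W * (i + 1))).primeFactors.card :=
    Nat.pow_le_pow_right hd (Finset.card_le_card (Nat.primeFactors_mono hh hm0))
  have h4 := h1.trans h3
  rw [sq]
  exact Nat.mul_le_mul h4 (h2.trans h4)

end Pool.Agent.H172.TC
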