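import Mathlib
import Pool.Graph.R_seed8.H446R2.BrunC
import Pool.Graph.R_pool_sql_team_3845a38e.helper9_.BrunSieve

/-!
# The lower bound sieve of Brun and Hooley for sets of residue classes

This is the sieve of the library modules `H446R2.BrunA`-`BrunD` (there for the class `0`), with
general sets `B p` of at most `κ` residue classes. Its level is a fixed power of the sifting limit.
-/

set_option autoImplicit false

namespace Pool.Agent.H172.TC

open Finset Pool.Agent.H446R2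

/-- The indicator function of the bad classes. -/
noncomputable def vi (B : ℕ → Finset ℕ) (n p : ℕ) : ℝ := if n % p ∈ B p then 1 else 0

/-- The density of the bad classes. -/
noncomputable def de (B : ℕ → Finset ℕ) (p : ℕ) : ℝ := ((B p).card : ℝ) / p

lemma vi_nonneg (B : ℕ → Finset ℕ) (n p : ℕ) : 0 ≤ vi B n p := by unfold vi; split_ifs <;> norm_num
lemma vi_le_one (B : ℕ → Finset ℕ) (n p : ℕ) : vi B n p ≤ 1 := by unfold vi; split_ifs <;> norm_num
lemma de_nonneg (B : ℕ → Finset ℕ) (p : ℕ) : 0 ≤ de B p := by unfold de; positivity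

/-- `g` is a combination of products of indicator functions. -/
def RepB (B : ℕ → Finset ℕ) (P : Finset ℕ) (g : ℕ → ℝ) (μ e : ℝ) : Prop :=
  ∃ (ι : Type) (s : Finset ι) (A : ι → Finset ℕ) (c : ι → ℝ),
    (∀ i ∈ s, A i ⊆ P) ∧
    (∀ n, g n = ∑ i ∈ s, c i * ∏ p ∈ A i, vi B n p) ∧
    μ = ∑ i ∈ s, c i * ∏ p ∈ A i, de B p ∧ ∑ i ∈ s, |c i| * ∏ p ∈ A i, ((B p).card : ℝ) ≤ e

lemma RepB.mul {B : ℕ → Finset ℕ} {P Q : Finset ℕ} {g h : ℕ → ℝ} {μ ν e f : ℝ}
    (hg : RepB B P g μ e) (hh : RepB B Q h ν f)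
    (hPQ : Disjoint P Q) : RepB B (P ∪ Q) (fun n => g n * h n) (μ * ν) (e * f) := by
  obtain ⟨ι, s, d, c, h1, h2, h3, h4⟩ := hg
  obtain ⟨κ, t, d', c', h1', h2', h3', h4'⟩ := hh
  have hdisj : ∀ x ∈ s ×ˢ t, Disjoint (d x.1) (d' x.2) := by
    intro x hx
    rw [mem_product] at hx
    exact Finset.disjoint_of_subset_left (h1 _ hx.1) (Finset.disjoint_of_subset_right (h1' _ hx.2) hPQ)
  refine ⟨ι × κ, s ×ˢ t, fun x => d x.1 ∪ d' x.2, fun x => c x.1 * c' x.2, ?_, ?_, ?_, ?_⟩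
  · intro x hx
    rw [mem_product] at hx
    exact union_subset_union (h1 _ hx.1) (h1' _ hx.2)
  · intro n
    show g n * h n = _
    rw [h2, h2', sum_mul_sum, ← sum_product']
    apply sum_congr rfl
    intro x hx
    rw [prod_union (hdisj x hx)]
    ring
  · rw [h3, h3', sum_mul_sum, ← sum_product']
    apply sum_congr rfl
    intro x hx
    rw [prod_union (hdisj x hx)]
    ring
  · have hn : ∀ D : Finset ℕ, (0 : ℝ) ≤ ∏ p ∈ D, ((B p).card : ℝ) := fun D =>
      prod_nonneg fun _ _ => Nat.cast_nonneg _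
    calc ∑ x ∈ s ×ˢ t, |c x.1 * c' x.2| * ∏ p ∈ d x.1 ∪ d' x.2, ((B p).card : ℝ)
        = (∑ i ∈ s, |c i| * ∏ p ∈ d i, ((B p).card : ℝ)) *
            ∑ i ∈ t, |c' i| * ∏ p ∈ d' i, ((B p).card : ℝ) := by
          rw [sum_mul_sum, ← sum_product']
          apply sum_congr rfl
          intro x hx
          rw [prod_union (hdisj x hx), abs_mul]
          ring
      _ ≤ e * f := mul_le_mul h4 h4'
          (sum_nonneg fun i _ => mul_nonneg (abs_nonneg _) (hn _))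
          ((sum_nonneg fun i _ => mul_nonneg (abs_nonneg _) (hn _)).trans h4)

lemma RepB.sub {B : ℕ → Finset ℕ} {P : Finset ℕ} {g h : ℕ → ℝ} {μ ν e f : ℝ}
    (hg : RepB B P g μ e) (hh : RepB B P h ν f) :
    RepB B P (fun n => g n - h n) (μ - ν) (e + f) := by
  obtain ⟨ι, s, d, c, h1, h2, h3, h4⟩ := hg
  obtain ⟨κ, t, d', c', h1', h2', h3', h4'⟩ := hh
  refine ⟨ι ⊕ κ, s.disjSum t, Sum.elim d d', Sum.elim c (fun i => - c' i), ?_, ?_, ?_, ?_⟩
  · intro x hx
    rw [mem_disjSum] at hx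
    rcases hx with ⟨a, ha, rfl⟩ | ⟨b, hb, rfl⟩
    · exact h1 a ha
    · exact h1' b hb
  · intro n
    show g n - h n = _
    rw [h2, h2', sum_disjSum, sub_eq_add_neg, ← sum_neg_distrib]
    simp only [Sum.elim_inl, Sum.elim_inr, neg_mul]
  · rw [h3, h3', sum_disjSum, sub_eq_add_neg, ← sum_neg_distrib]
    simp only [Sum.elim_inl, Sum.elim_inr, neg_mul]
  · rw [sum_disjSum]
    simp only [Sum.elim_inl, Sum.elim_inr, abs_neg]
    exact add_le_add h4 h4'

lemma RepB.mono {B : ℕ → Finset ℕ} {P Q : Finset ℕ} {g : ℕ → ℝ} {μ e f : ℝ}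
    (hg : RepB B P g μ e) (hPQ : P ⊆ Q) (hef : e ≤ f) : RepB B Q g μ f := by
  obtain ⟨ι, s, d, c, h1, h2, h3, h4⟩ := hg
  exact ⟨ι, s, d, c, fun i hi => (h1 i hi).trans hPQ, h2, h3, h4.trans hef⟩

lemma sum_prod_vi {B : ℕ → Finset ℕ} (D : Finset ℕ) (hD : ∀ p ∈ D, p.Prime)
    (hB : ∀ p ∈ D, B p ⊆ range p) (Z : ℕ) :
    |∑ n ∈ range Z, ∏ p ∈ D, vi B n p - Z * ∏ p ∈ D, de B p| ≤ ∏ p ∈ D, ((B p).card : ℝ) := by
  have h := Pool.Agent.helper9.BrunSieve.crt_count B Z D (fun p hp => (hD p hp).pos) hB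
    (fun p hp q hq hpq => (Nat.coprime_primes (hD p hp) (hD q hq)).2 hpq) 1 one_pos 0
    (fun p _ => Nat.coprime_one_left p)
  have h1 : ∑ n ∈ range Z, ∏ p ∈ D, vi B n p =
      (((range Z).filter (fun m => m ≡ 0 [MOD 1] ∧ ∀ p ∈ D, m % p ∈ B p)).card : ℝ) := by
    rw [Finset.card_filter]
    push_cast
    refine Finset.sum_congr rfl fun n _ => ?_
    by_cases hn : ∀ p ∈ D, n % p ∈ B p
    · rw [if_pos ⟨Nat.modEq_one, hn⟩]
      refine prod_eq_one fun p hp => ?_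
      unfold vi
      rw [if_pos (hn p hp)]
    · rw [if_neg (fun h => hn h.2)]
      push Not at hn
      obtain ⟨p, hp, hnp⟩ := hn
      refine prod_eq_zero hp ?_
      unfold vi
      rw [if_neg hnp]
  rw [h1]
  unfold de
  simpa using h

lemma RepB.sum_bound {B : ℕ → Finset ℕ} {P : Finset ℕ} {g : ℕ → ℝ} {μ e : ℝ}
    (hg : RepB B P g μ e) (hP : ∀ p ∈ P, p.Prime) (hB : ∀ p ∈ P, B p ⊆ range p) (Z : ℕ) :
    |∑ n ∈ range Z, g n - Z * μ| ≤ e := by
  obtain ⟨ι, s, A, c, h1, h2, h3, h4⟩ := hg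
  have h5 : ∑ n ∈ range Z, g n - Z * μ
      = ∑ i ∈ s, c i * (∑ n ∈ range Z, ∏ p ∈ A i, vi B n p - Z * ∏ p ∈ A i, de B p) := by
    simp_rw [h2, h3]
    rw [sum_comm, mul_sum, ← sum_sub_distrib]
    apply sum_congr rfl
    intro i _
    rw [mul_sub, mul_sum]
    ring
  rw [h5]
  refine (abs_sum_le_sum_abs _ _).trans (le_trans ?_ h4)
  apply sum_le_sum
  intro i hi
  rw [abs_mul]
  exact mul_le_mul_of_nonneg_left (sum_prod_vi (A i) (fun p hp => hP p (h1 i hi hp))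
    (fun p hp => hB p (h1 i hi hp)) Z) (abs_nonneg _)

lemma rep_general' {B : ℕ → Finset ℕ} {T : Finset ℕ} (F : Finset (Finset ℕ))
    (hF : F ⊆ T.powerset) (c : Finset ℕ → ℝ) (hc : ∀ A, |c A| ≤ 1) :
    RepB B T (fun n => ∑ A ∈ F, c A * ∏ p ∈ A, vi B n p) (∑ A ∈ F, c A * ∏ p ∈ A, de B p)
      (∑ A ∈ F, ∏ p ∈ A, ((B p).card : ℝ)) := by
  refine ⟨Finset ℕ, F, fun A => A, c, fun A hA => mem_powerset.1 (hF hA), fun n => rfl, rfl, ?_⟩
  refine sum_le_sum fun A _ => ?_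
  have h : (0 : ℝ) ≤ ∏ p ∈ A, ((B p).card : ℝ) := prod_nonneg fun _ _ => Nat.cast_nonneg _
  calc |c A| * ∏ p ∈ A, ((B p).card : ℝ) ≤ 1 * ∏ p ∈ A, ((B p).card : ℝ) :=
        mul_le_mul_of_nonneg_right (hc A) h
    _ = _ := one_mul _

lemma rep_yb' {B : ℕ → Finset ℕ} {T : Finset ℕ} (r : ℕ) :
    RepB B T (fun n => yb T r (vi B n)) (yb T r (de B))
      (∑ A ∈ T.powerset with A.card < r, ∏ p ∈ A, ((B p).card : ℝ)) :=
  rep_general' _ (filter_subset _ _) (fun A => (-1 : ℝ) ^ A.card) (fun A => by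
    rw [abs_pow, abs_neg, abs_one, one_pow])

lemma rep_wb' {B : ℕ → Finset ℕ} {T : Finset ℕ} (r : ℕ) :
    RepB B T (fun n => wb T r (vi B n)) (wb T r (de B))
      (∑ A ∈ T.powerset with A.card = r, ∏ p ∈ A, ((B p).card : ℝ)) := by
  have h := rep_general' (B := B) (T := T) (T.powerset.filter (fun A => A.card = r))
    (filter_subset _ _) (fun _ => 1) (fun A => by simp)
  simp only [one_mul] at h
  exact h

lemma rep_one' {B : ℕ → Finset ℕ} : RepB B ∅ (fun _ => 1) 1 1 :=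
  ⟨Unit, univ, fun _ => ∅, fun _ => 1, fun _ _ => subset_refl _, fun n => by simp, by simp,
    by simp⟩

/-- The weight of the small subsets. -/
noncomputable def NcB (B : ℕ → Finset ℕ) (T : Finset ℕ) (r : ℕ) : ℝ :=
  (∑ A ∈ T.powerset with A.card < r, ∏ p ∈ A, ((B p).card : ℝ))
    + ∑ A ∈ T.powerset with A.card = r, ∏ p ∈ A, ((B p).card : ℝ)

lemma sum_prod_card_nonneg (B : ℕ → Finset ℕ) (F : Finset (Finset ℕ)) :
    (0 : ℝ) ≤ ∑ A ∈ F, ∏ p ∈ A, ((B p).card : ℝ) :=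
  sum_nonneg fun _ _ => prod_nonneg fun _ _ => Nat.cast_nonneg _

lemma NcB_nonneg (B : ℕ → Finset ℕ) (T : Finset ℕ) (r : ℕ) : 0 ≤ NcB B T r :=
  add_nonneg (sum_prod_card_nonneg B _) (sum_prod_card_nonneg B _)

theorem blocks' (B : ℕ → Finset ℕ) (T : ℕ → Finset ℕ) (r : ℕ → ℕ)
    (hdisj : ∀ i j, i < j → Disjoint (T i) (T j)) (hr : ∀ i, Odd (r i))
    (hV : ∀ i, 0 < yb (T i) (r i) (de B)) (I : ℕ) :
    ∃ U L : ℕ → ℝ,
      RepB B ((range I).biUnion T) U (∏ i ∈ range I, yb (T i) (r i) (de B))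
        (∏ i ∈ range I, NcB B (T i) (r i)) ∧
      RepB B ((range I).biUnion T) L ((∏ i ∈ range I, yb (T i) (r i) (de B))
          * (1 - ∑ i ∈ range I, wb (T i) (r i) (de B) / yb (T i) (r i) (de B)))
        (∏ i ∈ range I, NcB B (T i) (r i)) ∧
      ∀ n, L n ≤ ∏ i ∈ range I, ∏ p ∈ T i, (1 - vi B n p) ∧
        ∏ i ∈ range I, ∏ p ∈ T i, (1 - vi B n p) ≤ U n := by
  induction I with
  | zero =>
    refine ⟨fun _ => 1, fun _ => 1, ?_, ?_, fun n => ?_⟩
    · simpa using rep_one'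
    · simpa using rep_one'
    · simp
  | succ I ih =>
    obtain ⟨U, L, hU, hL, hUL⟩ := ih
    have hd : Disjoint ((range I).biUnion T) (T I) := by
      rw [Finset.disjoint_biUnion_left]
      intro i hi
      exact hdisj i I (mem_range.1 hi)
    have hun : (range (I + 1)).biUnion T = (range I).biUnion T ∪ T I := by
      rw [Finset.range_add_one, Finset.biUnion_insert, Finset.union_comm]
    have hy := rep_yb' (B := B) (T := T I) (r I)
    have hw := rep_wb' (B := B) (T := T I) (r I)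
    have hNc0 : 0 ≤ ∏ i ∈ range I, NcB B (T i) (r i) := prod_nonneg fun i _ => NcB_nonneg _ _ _
    refine ⟨fun n => U n * yb (T I) (r I) (vi B n),
      fun n => L n * yb (T I) (r I) (vi B n) - U n * wb (T I) (r I) (vi B n), ?_, ?_, fun n => ?_⟩
    · rw [hun, prod_range_succ, prod_range_succ]
      refine (hU.mul hy hd).mono (subset_refl _) ?_
      apply mul_le_mul_of_nonneg_left _ hNc0
      unfold NcB
      linarith [sum_prod_card_nonneg B ((T I).powerset.filter (fun A => A.card = r I))]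
    · rw [hun, prod_range_succ, prod_range_succ, sum_range_succ]
      have h := (hL.mul hy hd).sub (hU.mul hw hd)
      have e1 : (∏ i ∈ range I, yb (T i) (r i) (de B)) * yb (T I) (r I) (de B) *
          (1 - (∑ i ∈ range I, wb (T i) (r i) (de B) / yb (T i) (r i) (de B)
            + wb (T I) (r I) (de B) / yb (T I) (r I) (de B)))
          = (∏ i ∈ range I, yb (T i) (r i) (de B))
          * (1 - ∑ i ∈ range I, wb (T i) (r i) (de B) / yb (T i) (r i) (de B)) *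
              yb (T I) (r I) (de B)
            - (∏ i ∈ range I, yb (T i) (r i) (de B)) * wb (T I) (r I) (de B) := by
        have := (hV I).ne'
        field_simp
        ring
      rw [e1]
      refine h.mono (subset_refl _) ?_
      unfold NcB
      rw [mul_add]
    · rw [prod_range_succ]
      obtain ⟨h1, h2⟩ := hUL n
      have hp0 : 0 ≤ ∏ i ∈ range I, ∏ p ∈ T i, (1 - vi B n p) :=
        prod_nonneg fun i _ => prod_nonneg fun p _ => by linarith [vi_le_one B n p]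
      have hq0 : 0 ≤ ∏ p ∈ T I, (1 - vi B n p) :=
        prod_nonneg fun p _ => by linarith [vi_le_one B n p]
      have hy1 := yb_ge (T I) (r I) (hr I) (vi B n) (fun p _ => vi_nonneg B n p)
        (fun p _ => vi_le_one B n p)
      have hy2 := yb_le (T I) (r I) (hr I) (vi B n) (fun p _ => vi_nonneg B n p)
        (fun p _ => vi_le_one B n p)
      have hw0 := wb_nonneg (T I) (r I) (vi B n) (fun p _ => vi_nonneg B n p)
      set X := ∏ i ∈ range I, ∏ p ∈ T i, (1 - vi B n p)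
      set x := ∏ p ∈ T I, (1 - vi B n p)
      set y := yb (T I) (r I) (vi B n)
      set w := wb (T I) (r I) (vi B n)
      constructor
      · have a1 : X * (y - w) ≤ X * x := mul_le_mul_of_nonneg_left (by linarith) hp0
        have a2 : L n * y ≤ X * y := mul_le_mul_of_nonneg_right h1 (hq0.trans hy1)
        have a3 : X * w ≤ U n * w := mul_le_mul_of_nonneg_right h2 hw0
        show L n * y - U n * w ≤ X * x
        nlinarith
      · exact mul_le_mul h2 hy1 hq0 (hp0.trans h2)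

lemma yb_de_ge {B : ℕ → Finset ℕ} {T : Finset ℕ} (hT : ∀ p ∈ T, de B p ≤ 1 / 2) (r : ℕ)
    (hr : Odd r) : Real.exp (-(2 * ∑ p ∈ T, de B p)) ≤ yb T r (de B) := by
  refine le_trans ?_ (yb_ge T r hr (de B) (fun p _ => de_nonneg B p)
    (fun p hp => by linarith [hT p hp]))
  rw [mul_sum, ← sum_neg_distrib, Real.exp_sum]
  apply prod_le_prod
  · intro p _; positivity
  · intro p hp
    exact one_sub_ge (de_nonneg B p) (hT p hp)

lemma NcB_le {B : ℕ → Finset ℕ} (T : Finset ℕ) (r Y : ℕ) (hY : 4 ≤ Y)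
    (hT : ∀ p ∈ T, 1 ≤ p ∧ p ≤ Y) (hB : ∀ p ∈ T, B p ⊆ range p) :
    NcB B T r ≤ (Y : ℝ) ^ (2 * r + 1) := by
  have hY1 : (1 : ℝ) ≤ Y := by
    have : 1 ≤ Y := by omega
    exact_mod_cast this
  have hA : ∀ A ∈ T.powerset, A.card ≤ r → ∏ p ∈ A, ((B p).card : ℝ) ≤ (Y : ℝ) ^ r := by
    intro A hA hr
    have hAT := mem_powerset.1 hA
    calc ∏ p ∈ A, ((B p).card : ℝ) ≤ ∏ _p ∈ A, (Y : ℝ) := by
          refine prod_le_prod (fun _ _ => Nat.cast_nonneg _) fun p hp => ?_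
          have h1 : (B p).card ≤ p := by
            simpa using Finset.card_le_card (hB p (hAT hp))
          exact_mod_cast h1.trans (hT p (hAT hp)).2
      _ = (Y : ℝ) ^ A.card := by rw [prod_const]
      _ ≤ (Y : ℝ) ^ r := pow_le_pow_right₀ hY1 hr
  have h1 : NcB B T r ≤ (Y : ℝ) ^ r * Nc T r := by
    unfold NcB Nc
    rw [mul_add]
    refine add_le_add ?_ ?_
    · refine (sum_le_card_nsmul _ _ ((Y : ℝ) ^ r) fun A hA' => ?_).trans (le_of_eq ?_)
      · rw [mem_filter] at hA'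
        exact hA A hA'.1 hA'.2.le
      · rw [nsmul_eq_mul, mul_comm]
    · refine (sum_le_card_nsmul _ _ ((Y : ℝ) ^ r) fun A hA' => ?_).trans (le_of_eq ?_)
      · rw [mem_filter] at hA'
        exact hA A hA'.1 hA'.2.le
      · rw [nsmul_eq_mul, mul_comm]
  have h2 := Nc_le T r Y hY hT
  calc NcB B T r ≤ (Y : ℝ) ^ r * Nc T r := h1
    _ ≤ (Y : ℝ) ^ r * (Y : ℝ) ^ (r + 1) := mul_le_mul_of_nonneg_left h2 (by positivity)
    _ = (Y : ℝ) ^ (2 * r + 1) := by rw [← pow_add]; congr 1; ring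

/-- The truncation levels. -/
def rk (κ I i : ℕ) : ℕ := 24 * κ + 3 + 2 * (I - 1 - i)

lemma rk_odd (κ I i : ℕ) : Odd (rk κ I i) :=
  ⟨12 * κ + 1 + (I - 1 - i), by unfold rk; ring⟩

lemma exponent_sum' (κ I : ℕ) : ∑ i ∈ range I, 2 ^ (i + 1) * (2 * rk κ I i + 1) + 8 * I +
    (96 * κ + 22) = (96 * κ + 22) * 2 ^ I := by
  induction I with
  | zero => simp
  | succ I ih =>
    rw [sum_range_succ']
    have h1 : ∑ i ∈ range I, 2 ^ (i + 1 + 1) * (2 * rk κ (I + 1) (i + 1) + 1)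
        = 2 * ∑ i ∈ range I, 2 ^ (i + 1) * (2 * rk κ I i + 1) := by
      rw [mul_sum]
      apply sum_congr rfl
      intro i _
      have : rk κ (I + 1) (i + 1) = rk κ I i := by unfold rk; omega
      rw [this, pow_succ 2 (i + 1)]
      ring
    rw [h1]
    have h2 : rk κ (I + 1) 0 = 24 * κ + 3 + 2 * I := by unfold rk; omega
    rw [h2]
    have h3 : (96 * κ + 22) * 2 ^ (I + 1) = 2 * ((96 * κ + 22) * 2 ^ I) := by ring
    rw [h3, ← ih]
    ring

lemma geom_sum_bound' (κ I : ℕ) :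
    ∑ i ∈ range I, (1 / 2 : ℝ) ^ (rk κ I i) ≤ (1 / 2) ^ (24 * κ + 1) := by
  have h : ∀ I : ℕ, ∑ i ∈ range I, (1 / 2 : ℝ) ^ (rk κ I i) ≤
      (1 / 2) ^ (24 * κ + 1) - (1 / 2) ^ (24 * κ + 1 + 2 * I) := by
    intro I
    induction I with
    | zero => simp
    | succ I ih =>
      rw [sum_range_succ']
      have h1 : ∀ i ∈ range I, (1 / 2 : ℝ) ^ (rk κ (I + 1) (i + 1)) = (1 / 2 : ℝ) ^ (rk κ I i) := by
        intro i _
        have : rk κ (I + 1) (i + 1) = rk κ I i := by unfold rk; omega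
        rw [this]
      rw [sum_congr rfl h1]
      have h2 : rk κ (I + 1) 0 = 24 * κ + 1 + 2 * I + 2 := by unfold rk; omega
      rw [h2]
      have h3 : (1 / 2 : ℝ) ^ (24 * κ + 1 + 2 * I + 2) = (1 / 2) ^ (24 * κ + 1 + 2 * I) * (1 / 4) := by
        rw [pow_add]; norm_num
      have h4 : (1 / 2 : ℝ) ^ (24 * κ + 1 + 2 * (I + 1)) =
          (1 / 2) ^ (24 * κ + 1 + 2 * I) * (1 / 4) := by
        rw [show 24 * κ + 1 + 2 * (I + 1) = (24 * κ + 1 + 2 * I) + 2 by ring, pow_add]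
        norm_num
      have h5 : (0 : ℝ) < (1 / 2) ^ (24 * κ + 1 + 2 * I) := by positivity
      rw [h3, h4]
      linarith
  have h1 := h I
  have h2 : (0 : ℝ) < (1 / 2) ^ (24 * κ + 1 + 2 * I) := by positivity
  linarith

lemma de_sum {B : ℕ → Finset ℕ} {κ : ℕ} (S : Finset ℕ) (hS : ∀ p ∈ S, p.Prime)
    (hκ : ∀ p ∈ S, (B p).card ≤ κ) (i : ℕ) : ∑ p ∈ TT S i, de B p ≤ 4 * κ := by
  have h1 := TT_sum S hS i
  calc ∑ p ∈ TT S i, de B p ≤ ∑ p ∈ TT S i, (κ : ℝ) * dn p := by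
        refine sum_le_sum fun p hp => ?_
        have hpS : p ∈ S := (mem_filter.1 hp).1
        unfold de dn
        rw [mul_one_div]
        have : ((B p).card : ℝ) ≤ κ := by exact_mod_cast hκ p hpS
        gcongr
    _ = κ * ∑ p ∈ TT S i, dn p := by rw [mul_sum]
    _ ≤ κ * 4 := mul_le_mul_of_nonneg_left h1 (Nat.cast_nonneg _)
    _ = 4 * κ := by ring

/-- **Lower bound sieve** for at most `κ` residue classes modulo the primes of `S`, with level a
fixed power of the sifting limit. -/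
theorem sieve_lower' {B : ℕ → Finset ℕ} {κ : ℕ} (S : Finset ℕ) (hS : ∀ p ∈ S, p.Prime)
    (hB : ∀ p ∈ S, B p ⊆ range p) (hκ : ∀ p ∈ S, (B p).card ≤ κ)
    (hh : ∀ p ∈ S, 2 * (B p).card ≤ p) (I : ℕ) (hI : 1 ≤ I)
    (hSY : ∀ p ∈ S, p ≤ 2 ^ 2 ^ I) (k : ℕ) :
    (k : ℝ) * (Real.exp (-(8 * κ)) ^ I / 2) - (2 : ℝ) ^ ((96 * κ + 22) * 2 ^ I)
      ≤ (((range k).filter (fun n => ∀ p ∈ S, n % p ∉ B p)).card : ℝ) := by
  have hTS : ∀ i, TT S i ⊆ S := fun i => filter_subset _ _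
  have hhalf : ∀ i, ∀ p ∈ TT S i, de B p ≤ 1 / 2 := by
    intro i p hp
    have hp' := hTS i hp
    have hp0 : (0 : ℝ) < p := by exact_mod_cast (hS p hp').pos
    unfold de
    rw [div_le_iff₀ hp0]
    have : (2 : ℝ) * (B p).card ≤ p := by exact_mod_cast hh p hp'
    linarith
  have hVge : ∀ i, Real.exp (-(8 * κ)) ≤ yb (TT S i) (rk κ I i) (de B) := by
    intro i
    refine le_trans ?_ (yb_de_ge (hhalf i) (rk κ I i) (rk_odd κ I i))
    apply Real.exp_le_exp.2
    linarith [de_sum S hS hκ i]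
  have hVpos : ∀ i, 0 < yb (TT S i) (rk κ I i) (de B) := fun i =>
    (Real.exp_pos _).trans_le (hVge i)
  obtain ⟨U, L, hU, hL, hUL⟩ := blocks' B (TT S) (rk κ I) (TT_disj S) (rk_odd κ I) hVpos I
  have hsub : (range I).biUnion (TT S) ⊆ S := by
    intro p hp
    obtain ⟨i, -, hpi⟩ := mem_biUnion.1 hp
    exact hTS i hpi
  have h1 := hL.sum_bound (fun p hp => hS p (hsub hp)) (fun p hp => hB p (hsub hp)) k
  have h2 := (abs_le.1 h1).1
  have h3 : ∀ n, L n ≤ if ∀ p ∈ S, n % p ∉ B p then (1 : ℝ) else 0 := by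
    intro n
    refine (hUL n).1.trans ?_
    by_cases h : ∀ p ∈ S, n % p ∉ B p
    · rw [if_pos h]
      apply Finset.prod_le_one
      · intro i _
        exact prod_nonneg fun p _ => by linarith [vi_le_one B n p]
      · intro i _
        apply Finset.prod_le_one
        · intro p _; linarith [vi_le_one B n p]
        · intro p _; linarith [vi_nonneg B n p]
    · rw [if_neg h]
      push Not at h
      obtain ⟨p, hp, hpn⟩ := h
      obtain ⟨i, hi, hpi⟩ := TT_cover S p hp I hI (hSY p hp)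
      apply le_of_eq
      apply prod_eq_zero (mem_range.2 hi)
      apply prod_eq_zero hpi
      rw [vi, if_pos hpn]
      ring
  have h4 : ∑ n ∈ range k, L n
      ≤ (((range k).filter (fun n => ∀ p ∈ S, n % p ∉ B p)).card : ℝ) := by
    rw [Finset.card_filter]
    push_cast
    exact sum_le_sum fun n _ => h3 n
  have he16 : Real.exp (16 * κ) ≤ (2 : ℝ) ^ (24 * κ) := by
    have h5 : Real.exp (16 * κ) = (Real.exp 1 ^ 16) ^ κ := by
      rw [← pow_mul, ← Real.exp_nat_mul]; push_cast; congr 1; ring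
    rw [h5, pow_mul]
    refine pow_le_pow_left₀ (by positivity) ?_ κ
    have h6 := Real.exp_one_lt_d9
    calc Real.exp 1 ^ 16 ≤ 2.7182818286 ^ 16 := pow_le_pow_left₀ (Real.exp_pos 1).le h6.le 16
      _ ≤ 2 ^ 24 := by norm_num
  have hW : ∀ i, wb (TT S i) (rk κ I i) (de B) / yb (TT S i) (rk κ I i) (de B)
      ≤ (1 / 2 : ℝ) ^ (rk κ I i) * 2 ^ (24 * κ) := by
    intro i
    have h5 := wb_le (TT S i) (rk κ I i) (de B) (fun p _ => de_nonneg B p)
    have h6 : Real.exp (2 * ∑ p ∈ TT S i, de B p) ≤ Real.exp (8 * κ) := by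
      apply Real.exp_le_exp.2
      linarith [de_sum S hS hκ i]
    rw [div_le_iff₀ (hVpos i)]
    have h7 : (1 : ℝ) ≤ Real.exp (8 * κ) * yb (TT S i) (rk κ I i) (de B) := by
      have := mul_le_mul_of_nonneg_left (hVge i) (Real.exp_pos (8 * κ)).le
      rwa [← Real.exp_add, add_neg_cancel, Real.exp_zero] at this
    calc wb (TT S i) (rk κ I i) (de B) ≤ (1 / 2 : ℝ) ^ (rk κ I i) * Real.exp (8 * κ) :=
          h5.trans (mul_le_mul_of_nonneg_left h6 (by positivity))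
      _ = (1 / 2 : ℝ) ^ (rk κ I i) * Real.exp (8 * κ) * 1 := by ring
      _ ≤ (1 / 2 : ℝ) ^ (rk κ I i) * Real.exp (8 * κ) *
            (Real.exp (8 * κ) * yb (TT S i) (rk κ I i) (de B)) :=
          mul_le_mul_of_nonneg_left h7 (by positivity)
      _ = (1 / 2 : ℝ) ^ (rk κ I i) * Real.exp (16 * κ) * yb (TT S i) (rk κ I i) (de B) := by
          rw [show (16 : ℝ) * κ = 8 * κ + 8 * κ by ring, Real.exp_add]; ring
      _ ≤ (1 / 2 : ℝ) ^ (rk κ I i) * 2 ^ (24 * κ) * yb (TT S i) (rk κ I i) (de B) := by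
          apply mul_le_mul_of_nonneg_right _ (hVpos i).le
          exact mul_le_mul_of_nonneg_left he16 (by positivity)
  have hWs : ∑ i ∈ range I, wb (TT S i) (rk κ I i) (de B) / yb (TT S i) (rk κ I i) (de B)
      ≤ 1 / 2 := by
    refine (sum_le_sum fun i _ => hW i).trans ?_
    rw [← sum_mul]
    calc (∑ i ∈ range I, (1 / 2 : ℝ) ^ rk κ I i) * 2 ^ (24 * κ)
        ≤ (1 / 2) ^ (24 * κ + 1) * 2 ^ (24 * κ) :=
          mul_le_mul_of_nonneg_right (geom_sum_bound' κ I) (by positivity)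
      _ = 1 / 2 := by
          rw [pow_succ, one_div_pow]
          field_simp
  have hVprod : Real.exp (-(8 * κ)) ^ I ≤ ∏ i ∈ range I, yb (TT S i) (rk κ I i) (de B) := by
    calc Real.exp (-(8 * κ)) ^ I = ∏ i ∈ range I, Real.exp (-(8 * κ)) := by simp
      _ ≤ _ := prod_le_prod (fun i _ => (Real.exp_pos _).le) (fun i _ => hVge i)
  have hmain : Real.exp (-(8 * κ)) ^ I / 2 ≤ (∏ i ∈ range I, yb (TT S i) (rk κ I i) (de B))
      * (1 - ∑ i ∈ range I, wb (TT S i) (rk κ I i) (de B) / yb (TT S i) (rk κ I i) (de B)) := by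
    have hp : 0 < Real.exp (-(8 * κ)) ^ I := by positivity
    calc Real.exp (-(8 * κ)) ^ I / 2 = Real.exp (-(8 * κ)) ^ I * (1 / 2) := by ring
      _ ≤ _ := mul_le_mul hVprod (by linarith) (by norm_num) (hp.le.trans hVprod)
  have hE : ∏ i ∈ range I, NcB B (TT S i) (rk κ I i) ≤ (2 : ℝ) ^ ((96 * κ + 22) * 2 ^ I) := by
    have h5 : ∀ i ∈ range I, NcB B (TT S i) (rk κ I i) ≤
        (2 : ℝ) ^ (2 ^ (i + 1) * (2 * rk κ I i + 1)) := by
      intro i _
      have h6 := NcB_le (B := B) (TT S i) (rk κ I i) (2 ^ 2 ^ (i + 1)) (by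
        calc 4 = 2 ^ 2 ^ 1 := by norm_num
          _ ≤ 2 ^ 2 ^ (i + 1) := Nat.pow_le_pow_right (by norm_num)
              (Nat.pow_le_pow_right (by norm_num) (by omega))) (by
        intro p hp
        refine ⟨(hS p (hTS i hp)).one_le, ?_⟩
        rw [TT, mem_filter] at hp
        exact hp.2.1) (fun p hp => hB p (hTS i hp))
      refine h6.trans (le_of_eq ?_)
      push_cast
      rw [← pow_mul]
    refine (prod_le_prod (fun i _ => NcB_nonneg _ _ _) h5).trans ?_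
    rw [prod_pow_eq_pow_sum]
    apply pow_le_pow_right₀ (by norm_num)
    have := exponent_sum' κ I
    omega
  have hk : (0 : ℝ) ≤ k := Nat.cast_nonneg k
  have := mul_le_mul_of_nonneg_left hmain hk
  linarith

end Pool.Agent.H172.TC
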