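import Mathlib
import Pool.Agent.H172.TC.Roots

/-!
# The second moment of the number of `d`-th roots modulo many moduli
-/

set_option autoImplicit false

namespace Pool.Agent.H172.TC

open Finset

/-- The residues below `m` which are prime to `m`. -/
def U (m : ℕ) : Finset ℕ := (range m).filter fun x => x.Coprime m

lemma card_U (m : ℕ) : (U m).card = m.totient := by
  unfold U
  rw [Nat.totient_eq_card_coprime]
  congr 1
  ext x
  simp [Nat.coprime_comm]

lemma U_card_le (m : ℕ) : (U m).card ≤ m := by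
  rw [card_U]; exact Nat.totient_le m

/-- The number of `d`-th roots of `n` modulo `m` which are prime to `m`. -/
def A (d m n : ℕ) : ℕ := ∑ x ∈ U m, if n ≡ x ^ d [MOD m] then 1 else 0

lemma sum_A_ge {d m N : ℕ} (hm : 0 < m) :
    (m.totient : ℝ) * ((N : ℝ) / m - 1) ≤ ∑ n ∈ range N, (A d m n : ℝ) := by
  have h1 : ∑ n ∈ range N, A d m n = ∑ x ∈ U m, ((range N).filter fun n => n ≡ x ^ d [MOD m]).card := by
    unfold A
    rw [Finset.sum_comm]
    refine Finset.sum_congr rfl fun x _ => ?_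
    rw [Finset.card_filter]
  have h2 : (U m).card * (N / m) ≤ ∑ n ∈ range N, A d m n := by
    rw [h1, ← smul_eq_mul]
    exact Finset.card_nsmul_le_sum _ _ _ fun x _ => card_modEq_ge N m _ hm
  have h3 : (N : ℝ) / m - 1 ≤ ((N / m : ℕ) : ℝ) := by
    have h4 := Nat.lt_floor_add_one ((N : ℝ) / m)
    rw [Nat.floor_div_eq_div] at h4
    linarith
  have h5 : ((U m).card : ℝ) * ((N / m : ℕ) : ℝ) ≤ ∑ n ∈ range N, (A d m n : ℝ) := by
    exact_mod_cast h2
  rw [← card_U]
  exact (mul_le_mul_of_nonneg_left h3 (Nat.cast_nonneg _)).trans h5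

lemma inner_le {d a b N x y : ℕ} (ha : 0 < a) (hb : 0 < b) :
    (∑ n ∈ range N, (if n ≡ x ^ d [MOD a] then 1 else 0) * (if n ≡ y ^ d [MOD b] then 1 else 0)) ≤
      if y ^ d ≡ x ^ d [MOD a.gcd b] then N / a.lcm b + 1 else 0 := by
  have hl : 0 < a.lcm b := Nat.lcm_pos ha hb
  split_ifs with h
  · have h1 : (∑ n ∈ range N, (if n ≡ x ^ d [MOD a] then 1 else 0) *
        (if n ≡ y ^ d [MOD b] then 1 else 0)) =
        ((range N).filter fun n => n ≡ x ^ d [MOD a] ∧ n ≡ y ^ d [MOD b]).card := by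
      rw [Finset.card_filter]
      refine Finset.sum_congr rfl fun n _ => ?_
      by_cases h2 : n ≡ x ^ d [MOD a] <;> by_cases h3 : n ≡ y ^ d [MOD b] <;> simp [h2, h3]
    rw [h1]
    rcases ((range N).filter fun n => n ≡ x ^ d [MOD a] ∧ n ≡ y ^ d [MOD b]).eq_empty_or_nonempty
      with h0 | ⟨v, hv⟩
    · rw [h0]; simp
    · obtain ⟨-, hv1, hv2⟩ := Finset.mem_filter.1 hv
      refine (Finset.card_le_card ?_).trans (card_modEq_le N (a.lcm b) v hl)
      intro n hn
      obtain ⟨hn0, hn1, hn2⟩ := Finset.mem_filter.1 hn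
      refine Finset.mem_filter.2 ⟨hn0, ?_⟩
      have h4 := (Nat.modEq_iff_dvd.1 (hn1.trans hv1.symm))
      have h5 := (Nat.modEq_iff_dvd.1 (hn2.trans hv2.symm))
      refine Nat.modEq_iff_dvd.2 ?_
      have h6 := Int.coe_lcm_dvd h4 h5
      rwa [Int.lcm_natCast_natCast] at h6
  · refine le_of_eq (Finset.sum_eq_zero fun n _ => ?_)
    by_cases h2 : n ≡ x ^ d [MOD a]
    · by_cases h3 : n ≡ y ^ d [MOD b]
      · exact absurd (((h3.symm).of_dvd (Nat.gcd_dvd_right a b)).trans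
          (h2.of_dvd (Nat.gcd_dvd_left a b))) h
      · simp [h3]
    · simp [h2]

lemma nroots_pos {d g : ℕ} (hg : 0 < g) : 1 ≤ nroots d g := by
  have : NeZero g := ⟨hg.ne'⟩
  have : Nonempty {t : (ZMod g)ˣ // t ^ d = 1} := ⟨⟨1, one_pow d⟩⟩
  exact Nat.card_pos

lemma sum_AA_le_nat {d a b N : ℕ} (ha : 0 < a) (hb : 0 < b) :
    ∑ n ∈ range N, A d a n * A d b n ≤
      (U a).card * ((N / a.lcm b + 1) * min b (b / a.gcd b * nroots d (a.gcd b))) := by
  have h1 : ∑ n ∈ range N, A d a n * A d b n = ∑ x ∈ U a, ∑ y ∈ U b, ∑ n ∈ range N,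
      (if n ≡ x ^ d [MOD a] then 1 else 0) * (if n ≡ y ^ d [MOD b] then 1 else 0) := by
    unfold A
    simp only [Finset.sum_mul_sum]
    rw [Finset.sum_comm]
    refine Finset.sum_congr rfl fun x _ => ?_
    rw [Finset.sum_comm]
  rw [h1, ← smul_eq_mul]
  refine Finset.sum_le_card_nsmul _ _ _ fun x _ => ?_
  refine (Finset.sum_le_sum fun y _ => inner_le (d := d) (N := N) (x := x) (y := y) ha hb).trans ?_
  rw [← Finset.sum_filter, Finset.sum_const, smul_eq_mul, mul_comm]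
  refine Nat.mul_le_mul_left _ (le_min ?_ ?_)
  · exact (Finset.card_le_card (Finset.filter_subset _ _)).trans (U_card_le b)
  · have h2 := card_pow_le (d := d) (M := b) (g := a.gcd b) (c := x ^ d) hb (Nat.gcd_dvd_right a b)
    refine le_trans (le_of_eq ?_) h2
    congr 1
    unfold U
    rw [Finset.filter_filter]

lemma sum_AA_le {d a b N : ℕ} (ha : 0 < a) (hb : 0 < b) :
    ∑ n ∈ range N, ((A d a n : ℝ) * A d b n) ≤
      N * ((a.totient : ℝ) / a * nroots d (a.gcd b)) + a * b := by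
  have h := sum_AA_le_nat (d := d) (N := N) ha hb
  have hg : 0 < a.gcd b := Nat.gcd_pos_of_pos_left b ha
  have hl : 0 < a.lcm b := Nat.lcm_pos ha hb
  have h' : ∑ n ∈ range N, A d a n * A d b n ≤
      (U a).card * (N / a.lcm b * (b / a.gcd b * nroots d (a.gcd b))) + a * b := by
    refine h.trans ?_
    rw [add_mul, one_mul, Nat.mul_add]
    refine Nat.add_le_add (Nat.mul_le_mul_left _ (Nat.mul_le_mul_left _ (min_le_right _ _))) ?_
    exact Nat.mul_le_mul (U_card_le a) (min_le_left _ _)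
  have h2 : ∑ n ∈ range N, ((A d a n : ℝ) * A d b n) ≤
      ((U a).card : ℝ) * (((N / a.lcm b : ℕ) : ℝ) * (((b / a.gcd b : ℕ) : ℝ) *
        nroots d (a.gcd b))) + a * b := by exact_mod_cast h'
  refine h2.trans ?_
  gcongr ?_ + _
  have h3 : ((N / a.lcm b : ℕ) : ℝ) ≤ (N : ℝ) / (a.lcm b : ℕ) := Nat.cast_div_le
  have h4 : ((b / a.gcd b : ℕ) : ℝ) = (b : ℝ) / (a.gcd b : ℕ) :=
    Nat.cast_div (Nat.gcd_dvd_right a b) (by exact_mod_cast hg.ne')
  rw [h4, card_U]
  have h5 : ((a.gcd b : ℕ) : ℝ) * (a.lcm b : ℕ) = a * b := by exact_mod_cast Nat.gcd_mul_lcm a b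
  have hgR : (0 : ℝ) < (a.gcd b : ℕ) := by exact_mod_cast hg
  have hlR : (0 : ℝ) < (a.lcm b : ℕ) := by exact_mod_cast hl
  have haR : (0 : ℝ) < a := by exact_mod_cast ha
  have hbR : (0 : ℝ) < b := by exact_mod_cast hb
  calc (a.totient : ℝ) * (((N / a.lcm b : ℕ) : ℝ) * ((b : ℝ) / (a.gcd b : ℕ) * nroots d (a.gcd b)))
      ≤ (a.totient : ℝ) * ((N : ℝ) / (a.lcm b : ℕ) * ((b : ℝ) / (a.gcd b : ℕ) *
        nroots d (a.gcd b))) := by gcongr
    _ = N * (a.totient * nroots d (a.gcd b)) * (b / ((a.gcd b : ℕ) * (a.lcm b : ℕ))) := by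
        field_simp
    _ = N * ((a.totient : ℝ) / a * nroots d (a.gcd b)) := by
        rw [h5]; field_simp

/-- **Second moment.** Most numbers have a `d`-th root modulo one of the moduli. -/
lemma second_moment {d J N M : ℕ} (m : ℕ → ℕ) (hm : ∀ j, 0 < m j) (hM : ∀ j < J, m j ≤ M) :
    (((range N).filter fun n => ∀ j < J, A d (m j) n = 0).card : ℝ) * (J : ℝ) ^ 2 ≤
      N * ((∑ i ∈ range J, ∑ j ∈ range J, ((nroots d ((m i).gcd (m j)) : ℝ) - 1)) +
        J * ∑ i ∈ range J, (1 - ((m i).totient : ℝ) / m i)) + 3 * ((J : ℝ) * M) ^ 2 := by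
  set R : ℕ → ℝ := fun n => ∑ i ∈ range J, (A d (m i) n : ℝ) with hR
  set S := (range N).filter fun n => ∀ j < J, A d (m j) n = 0 with hS
  have h1 : (S.card : ℝ) * (J : ℝ) ^ 2 ≤ ∑ n ∈ range N, (R n - J) ^ 2 := by
    rw [← nsmul_eq_mul]
    have h2 : ∀ n ∈ S, (J : ℝ) ^ 2 ≤ (R n - J) ^ 2 := by
      intro n hn
      have h3 : R n = 0 := by
        refine Finset.sum_eq_zero fun i hi => ?_
        have := (Finset.mem_filter.1 hn).2 i (Finset.mem_range.1 hi)
        rw [this]; simp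
      rw [h3]; ring_nf; exact le_rfl
    refine (Finset.card_nsmul_le_sum S _ _ h2).trans ?_
    exact Finset.sum_le_sum_of_subset_of_nonneg (Finset.filter_subset _ _)
      (fun n _ _ => sq_nonneg _)
  have h2 : ∑ n ∈ range N, (R n - J) ^ 2 =
      ∑ n ∈ range N, R n * R n - 2 * J * ∑ n ∈ range N, R n + N * (J : ℝ) ^ 2 := by
    rw [Finset.mul_sum, ← Finset.sum_sub_distrib]
    have h3 : (N : ℝ) * (J : ℝ) ^ 2 = ∑ n ∈ range N, (J : ℝ) ^ 2 := by simp
    rw [h3, ← Finset.sum_add_distrib]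
    refine Finset.sum_congr rfl fun n _ => by ring
  have h3 : ∑ i ∈ range J, ((m i).totient : ℝ) * ((N : ℝ) / m i - 1) ≤ ∑ n ∈ range N, R n := by
    rw [hR, Finset.sum_comm]
    exact Finset.sum_le_sum fun i _ => sum_A_ge (hm i)
  have h4 : ∑ n ∈ range N, R n * R n ≤ ∑ i ∈ range J, ∑ j ∈ range J,
      (N * (((m i).totient : ℝ) / m i * nroots d ((m i).gcd (m j))) + m i * m j) := by
    have h5 : ∑ n ∈ range N, R n * R n = ∑ i ∈ range J, ∑ j ∈ range J, ∑ n ∈ range N,
        ((A d (m i) n : ℝ) * A d (m j) n) := by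
      simp only [hR, Finset.sum_mul_sum]
      rw [Finset.sum_comm]
      refine Finset.sum_congr rfl fun i _ => ?_
      rw [Finset.sum_comm]
    rw [h5]
    exact Finset.sum_le_sum fun i _ => Finset.sum_le_sum fun j _ => sum_AA_le (hm i) (hm j)
  have h6 : ∑ i ∈ range J, ∑ j ∈ range J,
      (N * (((m i).totient : ℝ) / m i * nroots d ((m i).gcd (m j))) + m i * m j) ≤
      N * (∑ i ∈ range J, ∑ j ∈ range J, ((nroots d ((m i).gcd (m j)) : ℝ) - 1)) +
      N * (J * ∑ i ∈ range J, ((m i).totient : ℝ) / m i) + ((J : ℝ) * M) ^ 2 := by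
    have h7 : ∀ i ∈ range J, ∀ j ∈ range J,
        (N * (((m i).totient : ℝ) / m i * nroots d ((m i).gcd (m j))) + m i * m j) ≤
        N * ((nroots d ((m i).gcd (m j)) : ℝ) - 1) + N * (((m i).totient : ℝ) / m i) +
          (M : ℝ) ^ 2 := by
      intro i hi j hj
      have hi' : (m i : ℝ) ≤ M := by exact_mod_cast hM i (Finset.mem_range.1 hi)
      have hj' : (m j : ℝ) ≤ M := by exact_mod_cast hM j (Finset.mem_range.1 hj)
      have h8 : (m i : ℝ) * m j ≤ (M : ℝ) ^ 2 := by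
        rw [sq]
        exact mul_le_mul hi' hj' (Nat.cast_nonneg _) (Nat.cast_nonneg _)
      have h9 : ((m i).totient : ℝ) / m i ≤ 1 := by
        rw [div_le_one (by exact_mod_cast hm i)]
        exact_mod_cast Nat.totient_le _
      have h10 : (1 : ℝ) ≤ nroots d ((m i).gcd (m j)) := by
        exact_mod_cast nroots_pos (Nat.gcd_pos_of_pos_left _ (hm i))
      have h11 : ((m i).totient : ℝ) / m i * nroots d ((m i).gcd (m j)) ≤
          ((nroots d ((m i).gcd (m j)) : ℝ) - 1) + ((m i).totient : ℝ) / m i := by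
        nlinarith
      have h12 := mul_le_mul_of_nonneg_left h11 (Nat.cast_nonneg (α := ℝ) N)
      linarith
    refine (Finset.sum_le_sum fun i hi => Finset.sum_le_sum (h7 i hi)).trans (le_of_eq ?_)
    simp only [Finset.sum_add_distrib, Finset.sum_const, Finset.card_range, nsmul_eq_mul,
      ← Finset.mul_sum]
    ring
  have h13 : ∑ i ∈ range J, ((m i).totient : ℝ) * ((N : ℝ) / m i - 1) ≥
      N * (∑ i ∈ range J, ((m i).totient : ℝ) / m i) - J * M := by
    have h14 : ∀ i ∈ range J, N * (((m i).totient : ℝ) / m i) - M ≤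
        ((m i).totient : ℝ) * ((N : ℝ) / m i - 1) := by
      intro i hi
      have h15 : ((m i).totient : ℝ) ≤ M := by
        exact_mod_cast (Nat.totient_le _).trans (hM i (Finset.mem_range.1 hi))
      have h16 : ((m i).totient : ℝ) * ((N : ℝ) / m i - 1) =
          N * (((m i).totient : ℝ) / m i) - (m i).totient := by ring
      rw [h16]; linarith
    refine le_trans (le_of_eq ?_) (Finset.sum_le_sum h14)
    simp only [Finset.sum_sub_distrib, Finset.sum_const, Finset.card_range, nsmul_eq_mul,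
      ← Finset.mul_sum]
  have h17 : ∑ i ∈ range J, (1 - ((m i).totient : ℝ) / m i) =
      J - ∑ i ∈ range J, ((m i).totient : ℝ) / m i := by
    rw [Finset.sum_sub_distrib]; simp
  rw [h17]
  set Φ := ∑ i ∈ range J, ((m i).totient : ℝ) / m i
  set Sg := ∑ i ∈ range J, ∑ j ∈ range J, ((nroots d ((m i).gcd (m j)) : ℝ) - 1)
  have hJ0 : (0 : ℝ) ≤ J := Nat.cast_nonneg _
  have hM0 : (0 : ℝ) ≤ M := Nat.cast_nonneg _
  have h18 : N * Φ - J * M ≤ ∑ n ∈ range N, R n := h13.le.trans h3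
  have h19 := mul_le_mul_of_nonneg_left h18 (by positivity : (0 : ℝ) ≤ 2 * J)
  have h20 : 2 * (J : ℝ) * (J * M) ≤ 2 * ((J : ℝ) * M) ^ 2 := by
    rcases Nat.eq_zero_or_pos M with h0 | h0
    · rw [h0]; simp
    · have : (1 : ℝ) ≤ M := by exact_mod_cast h0
      have h21 : (J : ℝ) * J * M ≤ J * J * (M * M) := by
        apply mul_le_mul_of_nonneg_left _ (by positivity)
        nlinarith
      nlinarith
  calc (S.card : ℝ) * (J : ℝ) ^ 2 ≤ ∑ n ∈ range N, (R n - J) ^ 2 := h1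
    _ = ∑ n ∈ range N, R n * R n - 2 * J * ∑ n ∈ range N, R n + N * (J : ℝ) ^ 2 := h2
    _ ≤ (N * Sg + N * (J * Φ) + ((J : ℝ) * M) ^ 2) - 2 * J * (N * Φ - J * M) + N * (J : ℝ) ^ 2 := by
        linarith [h4.trans h6]
    _ ≤ N * (Sg + J * (J - Φ)) + 3 * ((J : ℝ) * M) ^ 2 := by nlinarith

end Pool.Agent.H172.TC
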