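import Mathlib
import Pool.Agent.H172.TC.Bounds
import Pool.Agent.H172.TC.Moment

/-!
# Most numbers are `d`-th powers modulo one of the moduli
-/

set_option autoImplicit false

namespace Pool.Agent.H172.TC

open Finset

open Classical in
lemma sum_ind_cnt (d W J h : ℕ) (c : ℝ) :
    ∑ j ∈ range J, (if h ∣ f d (W * (j + 1)) then c else 0) = cnt d W J h * c := by
  rw [← Finset.sum_filter, Finset.sum_const, nsmul_eq_mul]
  rfl

open Classical in
lemma pair_point {d z W J : ℕ} (hd : 0 < d)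
    (hW : ∀ p : ℕ, p.Prime → p ≤ z → p ∣ W) (i j : ℕ) :
    (nroots d ((f d (W * (i + 1))).gcd (f d (W * (j + 1)))) : ℝ) - 1 ≤
      (∑ h ∈ Ioc z J, (if h ∣ f d (W * (i + 1)) then
        (if h ∣ f d (W * (j + 1)) then (nroots d h : ℝ) else 0) else 0)) +
      ∑ h ∈ (f d (W * (i + 1))).divisors.filter (fun h => J < h),
        (if h ∣ f d (W * (j + 1)) then (nroots d h : ℝ) else 0) := by
  set g := (f d (W * (i + 1))).gcd (f d (W * (j + 1))) with hg
  have hgi : g ∣ f d (W * (i + 1)) := Nat.gcd_dvd_left _ _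
  have hgj : g ∣ f d (W * (j + 1)) := Nat.gcd_dvd_right _ _
  have hg0 : g ≠ 0 := (Nat.gcd_pos_of_pos_left _ (f_pos hd _)).ne'
  have hn1 : ∀ h ∈ Ioc z J, (0 : ℝ) ≤ (if h ∣ f d (W * (i + 1)) then
        (if h ∣ f d (W * (j + 1)) then (nroots d h : ℝ) else 0) else 0) := by
    intro h _
    split_ifs <;> positivity
  have hn2 : ∀ h ∈ (f d (W * (i + 1))).divisors.filter (fun h => J < h),
      (0 : ℝ) ≤ (if h ∣ f d (W * (j + 1)) then (nroots d h : ℝ) else 0) := by
    intro h _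
    split_ifs <;> positivity
  rcases rough_one_or ((rough_f hd hW i).of_dvd hgi) hg0 with h1 | h1
  · have h2 : nroots d 1 ≤ 1 := by
      have := nroots_le hd 1 one_ne_zero (fun p hp hp1 => by
        have := Nat.le_of_dvd one_pos hp1
        have := hp.two_le
        omega)
      simpa using this
    have h3 : (nroots d g : ℝ) ≤ 1 := by rw [h1]; exact_mod_cast h2
    have h4 := Finset.sum_nonneg hn1
    have h5 := Finset.sum_nonneg hn2
    linarith
  · rcases Nat.lt_or_ge J g with h2 | h2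
    · have h3 : (if g ∣ f d (W * (j + 1)) then (nroots d g : ℝ) else 0) ≤
          ∑ h ∈ (f d (W * (i + 1))).divisors.filter (fun h => J < h),
            (if h ∣ f d (W * (j + 1)) then (nroots d h : ℝ) else 0) :=
        Finset.single_le_sum hn2 (Finset.mem_filter.2
          ⟨Nat.mem_divisors.2 ⟨hgi, (f_pos hd _).ne'⟩, h2⟩)
      rw [if_pos hgj] at h3
      have h4 := Finset.sum_nonneg hn1
      linarith
    · have h3 : (if g ∣ f d (W * (i + 1)) then
          (if g ∣ f d (W * (j + 1)) then (nroots d g : ℝ) else 0) else 0) ≤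
          ∑ h ∈ Ioc z J, (if h ∣ f d (W * (i + 1)) then
            (if h ∣ f d (W * (j + 1)) then (nroots d h : ℝ) else 0) else 0) :=
        Finset.single_le_sum hn1 (Finset.mem_Ioc.2 ⟨h1, h2⟩)
      rw [if_pos hgi, if_pos hgj] at h3
      have h4 := Finset.sum_nonneg hn2
      linarith

open Classical in
lemma pair_sum {d z W J : ℕ} (hd : 0 < d) (hz : (2 * d) ^ (8 * d) ≤ z)
    (hW : ∀ p : ℕ, p.Prime → p ≤ z → p ∣ W) :
    ∑ i ∈ range J, ∑ j ∈ range J,
      ((nroots d ((f d (W * (i + 1))).gcd (f d (W * (j + 1)))) : ℝ) - 1) ≤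
      4 * (J : ℝ) ^ 2 * (2 / √(z : ℝ)) + ∑ i ∈ range J, (X d (f d (W * (i + 1))) : ℝ) := by
  have hz1 : 1 ≤ z := le_trans (Nat.one_le_pow _ _ (by omega)) hz
  refine (Finset.sum_le_sum fun i _ => Finset.sum_le_sum fun j _ =>
    pair_point (J := J) hd hW i j).trans ?_
  simp only [Finset.sum_add_distrib]
  refine add_le_add ?_ ?_
  · have h1 : ∑ i ∈ range J, ∑ j ∈ range J, ∑ h ∈ Ioc z J, (if h ∣ f d (W * (i + 1)) then
        (if h ∣ f d (W * (j + 1)) then (nroots d h : ℝ) else 0) else 0) =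
        ∑ h ∈ Ioc z J, (nroots d h : ℝ) * (cnt d W J h : ℝ) ^ 2 := by
      have h2 : ∀ i ∈ range J, ∑ j ∈ range J, ∑ h ∈ Ioc z J, (if h ∣ f d (W * (i + 1)) then
          (if h ∣ f d (W * (j + 1)) then (nroots d h : ℝ) else 0) else 0) =
          ∑ h ∈ Ioc z J, (if h ∣ f d (W * (i + 1)) then (cnt d W J h * (nroots d h : ℝ)) else 0) := by
        intro i _
        rw [Finset.sum_comm]
        refine Finset.sum_congr rfl fun h _ => ?_
        split_ifs with h3
        · exact sum_ind_cnt d W J h _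
        · simp
      rw [Finset.sum_congr rfl h2, Finset.sum_comm]
      refine Finset.sum_congr rfl fun h _ => ?_
      rw [sum_ind_cnt]
      ring
    rw [h1]
    refine (Finset.sum_le_sum fun h hh => small_term hd hz hW (J := J)
      (by have := Finset.mem_Ioc.1 hh; omega) (Finset.mem_Ioc.1 hh).2).trans ?_
    rw [← Finset.mul_sum]
    exact mul_le_mul_of_nonneg_left (tele hz1) (by positivity)
  · refine Finset.sum_le_sum fun i _ => ?_
    rw [Finset.sum_comm]
    have h1 : ∀ h ∈ (f d (W * (i + 1))).divisors.filter (fun h => J < h),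
        ∑ j ∈ range J, (if h ∣ f d (W * (j + 1)) then (nroots d h : ℝ) else 0) ≤
        ((d ^ (f d (W * (i + 1))).primeFactors.card) ^ 2 : ℕ) := by
      intro h hh
      obtain ⟨h2, h3⟩ := Finset.mem_filter.1 hh
      rw [sum_ind_cnt]
      have h4 := large_term hd hz hW (Nat.dvd_of_mem_divisors h2) h3
      rw [mul_comm]
      exact_mod_cast h4
    refine (Finset.sum_le_card_nsmul _ _ _ h1).trans ?_
    rw [nsmul_eq_mul]
    unfold X
    rw [Nat.cast_mul]
    refine mul_le_mul_of_nonneg_right ?_ (Nat.cast_nonneg _)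
    exact_mod_cast Finset.card_le_card (Finset.filter_subset _ _)

open Classical in
lemma cnt_div {d z W J h : ℕ} (hd : 0 < d) (hz : (2 * d) ^ (8 * d) ≤ z)
    (hW : ∀ p : ℕ, p.Prime → p ≤ z → p ∣ W) (hh : 0 < h) (hhJ : h ≤ J) :
    (cnt d W J h : ℝ) * (1 / h) ≤ 2 * (J : ℝ) * (√(h : ℝ) / (h : ℝ) ^ 2) := by
  have hhR : (0 : ℝ) < h := by exact_mod_cast hh
  have h1 := small_term (J := J) hd hz hW hh hhJ
  have h2 : (1 : ℝ) ≤ nroots d h := by exact_mod_cast nroots_pos hh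
  have h3 : (cnt d W J h : ℝ) ^ 2 ≤ 4 * (J : ℝ) ^ 2 * (√(h : ℝ) / (h : ℝ) ^ 2) := by
    nlinarith [sq_nonneg (cnt d W J h : ℝ)]
  have hs1 : 1 ≤ √(h : ℝ) := by
    rw [Real.one_le_sqrt]; exact_mod_cast hh
  have h4 : (cnt d W J h : ℝ) ≤ 2 * J * (√(h : ℝ) / h) := by
    refine le_of_sq_le_sq ?_ (by positivity)
    refine h3.trans ?_
    have h5 : (2 * (J : ℝ) * (√(h : ℝ) / h)) ^ 2 = 4 * (J : ℝ) ^ 2 * (√(h : ℝ) ^ 2 / (h : ℝ) ^ 2) := by
      ring
    rw [h5]
    gcongr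
    nlinarith
  calc (cnt d W J h : ℝ) * (1 / h) ≤ 2 * J * (√(h : ℝ) / h) * (1 / h) := by gcongr
    _ = 2 * (J : ℝ) * (√(h : ℝ) / (h : ℝ) ^ 2) := by field_simp

open Classical in
lemma totient_sum {d z W J : ℕ} (hd : 0 < d) (hz : (2 * d) ^ (8 * d) ≤ z)
    (hW : ∀ p : ℕ, p.Prime → p ≤ z → p ∣ W) (hJ : 0 < J) :
    (J : ℝ) * ∑ i ∈ range J, (1 - ((f d (W * (i + 1))).totient : ℝ) / (f d (W * (i + 1)) : ℕ)) ≤
      2 * (J : ℝ) ^ 2 * (2 / √(z : ℝ)) + ∑ i ∈ range J, (X d (f d (W * (i + 1))) : ℝ) := by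
  have hz1 : 1 ≤ z := le_trans (Nat.one_le_pow _ _ (by omega)) hz
  have hJR : (0 : ℝ) < J := by exact_mod_cast hJ
  have h1 : ∀ i ∈ range J, (1 - ((f d (W * (i + 1))).totient : ℝ) / (f d (W * (i + 1)) : ℕ)) ≤
      (∑ h ∈ Ioc z J, (if h ∣ f d (W * (i + 1)) then (1 : ℝ) / h else 0)) +
      (X d (f d (W * (i + 1))) : ℝ) / J := by
    intro i _
    set m := f d (W * (i + 1)) with hm
    have hm0 : 0 < m := f_pos hd _
    refine (totient_ge hm0).trans ?_
    rw [← Finset.sum_filter_add_sum_filter_not m.primeFactors (fun p => p ≤ J)]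
    refine add_le_add ?_ ?_
    · rw [← Finset.sum_filter (s := Ioc z J)]
      refine Finset.sum_le_sum_of_subset_of_nonneg ?_ (fun _ _ _ => by positivity)
      intro p hp
      obtain ⟨h2, h3⟩ := Finset.mem_filter.1 hp
      have h4 := Nat.dvd_of_mem_primeFactors h2
      exact Finset.mem_filter.2 ⟨Finset.mem_Ioc.2
        ⟨rough_f hd hW i p (Nat.prime_of_mem_primeFactors h2) h4, h3⟩, h4⟩
    · have h2 : ∀ p ∈ m.primeFactors.filter (fun p => ¬ p ≤ J), (1 : ℝ) / p ≤ 1 / J := by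
        intro p hp
        obtain ⟨-, h3⟩ := Finset.mem_filter.1 hp
        exact one_div_le_one_div_of_le hJR (by exact_mod_cast (not_le.1 h3).le)
      refine (Finset.sum_le_card_nsmul _ _ _ h2).trans ?_
      rw [nsmul_eq_mul, mul_one_div]
      gcongr
      unfold X
      calc (m.primeFactors.filter fun p => ¬ p ≤ J).card ≤ m.primeFactors.card :=
            Finset.card_le_card (Finset.filter_subset _ _)
        _ ≤ m.divisors.card := Finset.card_le_card fun p hp =>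
            Nat.mem_divisors.2 ⟨Nat.dvd_of_mem_primeFactors hp, hm0.ne'⟩
        _ ≤ m.divisors.card * (d ^ m.primeFactors.card) ^ 2 :=
            Nat.le_mul_of_pos_right _ (by positivity)
  have h5 : ∑ i ∈ range J, (1 - ((f d (W * (i + 1))).totient : ℝ) / (f d (W * (i + 1)) : ℕ)) ≤
      2 * (J : ℝ) * (2 / √(z : ℝ)) + (∑ i ∈ range J, (X d (f d (W * (i + 1))) : ℝ)) / J := by
    refine (Finset.sum_le_sum h1).trans ?_
    rw [Finset.sum_add_distrib, Finset.sum_div]
    refine add_le_add ?_ le_rfl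
    rw [Finset.sum_comm]
    have h6 : ∀ h ∈ Ioc z J, ∑ i ∈ range J, (if h ∣ f d (W * (i + 1)) then (1 : ℝ) / h else 0) ≤
        2 * (J : ℝ) * (√(h : ℝ) / (h : ℝ) ^ 2) := by
      intro h hh
      rw [sum_ind_cnt]
      exact cnt_div hd hz hW (by have := Finset.mem_Ioc.1 hh; omega) (Finset.mem_Ioc.1 hh).2
    refine (Finset.sum_le_sum h6).trans ?_
    rw [← Finset.mul_sum]
    exact mul_le_mul_of_nonneg_left (tele hz1) (by positivity)
  calc (J : ℝ) * ∑ i ∈ range J, (1 - ((f d (W * (i + 1))).totient : ℝ) / (f d (W * (i + 1)) : ℕ))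
      ≤ J * (2 * (J : ℝ) * (2 / √(z : ℝ)) + (∑ i ∈ range J, (X d (f d (W * (i + 1))) : ℝ)) / J) :=
        mul_le_mul_of_nonneg_left h5 hJR.le
    _ = 2 * (J : ℝ) ^ 2 * (2 / √(z : ℝ)) + ∑ i ∈ range J, (X d (f d (W * (i + 1))) : ℝ) := by
        field_simp

/-- **The finite theorem.** Except for a small proportion, all numbers `n < N` are the `d`-th
powers of units modulo one of the numbers `(a + 1) ^ d - a ^ d`, where `a = W (j + 1)`. -/
theorem finite_main {d z W J N : ℕ} (hd : 0 < d) (hz : (2 * d) ^ (8 * d) ≤ z) (hW0 : 0 < W)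
    (hW : ∀ p : ℕ, p.Prime → p ≤ z → p ∣ W) (hJ : 0 < J) :
    (((range N).filter fun n => ∀ j < J, A d (f d (W * (j + 1))) n = 0).card : ℝ) ≤
      N * (12 / √(z : ℝ) + 2 * (√(2 * W * J) / J)) + 3 * ((2 * (W : ℝ) * J) ^ d) ^ 2 := by
  have hJR : (0 : ℝ) < J := by exact_mod_cast hJ
  have hM : ∀ j < J, f d (W * (j + 1)) ≤ (2 * W * J) ^ d := by
    intro j hj
    refine (f_le d _).trans (Nat.pow_le_pow_left ?_ d)
    have h1 : W * (j + 1) ≤ W * J := Nat.mul_le_mul_left _ hj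
    have h2 : 0 < W * J := by positivity
    have h3 : 2 * W * J = 2 * (W * J) := by ring
    omega
  have h1 := second_moment (d := d) (J := J) (N := N) (fun j => f d (W * (j + 1)))
    (fun j => f_pos hd _) hM
  have h2 := pair_sum (J := J) hd hz hW
  have h3 := totient_sum (J := J) hd hz hW hJ
  have hX : ∑ i ∈ range J, (X d (f d (W * (i + 1))) : ℝ) ≤ J * √(2 * W * J) := by
    have h4 : ∀ i ∈ range J, (X d (f d (W * (i + 1))) : ℝ) ≤ √(2 * W * J) := by
      intro i hi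
      refine Real.le_sqrt_of_sq_le ?_
      have h5 := X_sq_le (j := i) hd hz hW hW0
      have h6 : 2 * (W * (i + 1)) ≤ 2 * W * J := by
        rw [mul_assoc]
        exact Nat.mul_le_mul_left _ (Nat.mul_le_mul_left _ (Finset.mem_range.1 hi))
      exact_mod_cast h5.trans h6
    refine (Finset.sum_le_card_nsmul _ _ _ h4).trans (le_of_eq ?_)
    rw [Finset.card_range, nsmul_eq_mul]
  have hN0 : (0 : ℝ) ≤ N := Nat.cast_nonneg _
  set T := (((range N).filter fun n => ∀ j < J, A d (f d (W * (j + 1))) n = 0).card : ℝ)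
  have h7 : T * (J : ℝ) ^ 2 ≤ N * (12 / √(z : ℝ) * (J : ℝ) ^ 2 + 2 * (J * √(2 * W * J))) +
      3 * (J * (2 * (W : ℝ) * J) ^ d) ^ 2 := by
    refine h1.trans ?_
    push_cast
    gcongr ?_ + _
    refine mul_le_mul_of_nonneg_left ?_ hN0
    have h8 : 12 / √(z : ℝ) * (J : ℝ) ^ 2 =
        4 * (J : ℝ) ^ 2 * (2 / √(z : ℝ)) + 2 * (J : ℝ) ^ 2 * (2 / √(z : ℝ)) := by ring
    rw [h8]
    linarith
  have h9 : T * (J : ℝ) ^ 2 ≤ (N * (12 / √(z : ℝ) + 2 * (√(2 * W * J) / J)) +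
      3 * ((2 * (W : ℝ) * J) ^ d) ^ 2) * (J : ℝ) ^ 2 := by
    refine h7.trans (le_of_eq ?_)
    have h10 : √(2 * (W : ℝ) * J) / J * (J : ℝ) ^ 2 = J * √(2 * W * J) := by
      field_simp
    calc N * (12 / √(z : ℝ) * (J : ℝ) ^ 2 + 2 * (J * √(2 * W * J))) +
        3 * (J * (2 * (W : ℝ) * J) ^ d) ^ 2
        = N * (12 / √(z : ℝ) * (J : ℝ) ^ 2 + 2 * (√(2 * (W : ℝ) * J) / J * (J : ℝ) ^ 2)) +
        3 * (J * (2 * (W : ℝ) * J) ^ d) ^ 2 := by rw [h10]
      _ = _ := by ring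
  exact le_of_mul_le_mul_right h9 (by positivity)

end Pool.Agent.H172.TC
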