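import Mathlib
import Pool.Agent.H172.TC.Finite
import Pool.Agent.H172.TC.MomentSet

/-!
# The finite theorem for moduli without small prime factors
-/

set_option autoImplicit false

namespace Pool.Agent.H172.TC

open Finset

open Classical in
lemma sum_ind_set {d W k h : ℕ} {G : Finset ℕ} (hG : G ⊆ range k) {c : ℝ} (hc : 0 ≤ c) :
    ∑ j ∈ G, (if h ∣ f d (W * (j + 1)) then c else 0) ≤ cnt d W k h * c := by
  rw [← sum_ind_cnt]
  exact Finset.sum_le_sum_of_subset_of_nonneg hG (fun _ _ _ => by split_ifs <;> positivity)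

open Classical in
lemma pair_point_set {d y W k : ℕ} (hd : 0 < d) (i j : ℕ) (Hi : Rough y (f d (W * (i + 1)))) :
    (nroots d ((f d (W * (i + 1))).gcd (f d (W * (j + 1)))) : ℝ) - 1 ≤
      (∑ h ∈ Ioc y k, (if h ∣ f d (W * (i + 1)) then
        (if h ∣ f d (W * (j + 1)) then (nroots d h : ℝ) else 0) else 0)) +
      ∑ h ∈ (f d (W * (i + 1))).divisors.filter (fun h => k < h),
        (if h ∣ f d (W * (j + 1)) then (nroots d h : ℝ) else 0) := by
  set g := (f d (W * (i + 1))).gcd (f d (W * (j + 1))) with hg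
  have hgi : g ∣ f d (W * (i + 1)) := Nat.gcd_dvd_left _ _
  have hgj : g ∣ f d (W * (j + 1)) := Nat.gcd_dvd_right _ _
  have hg0 : g ≠ 0 := (Nat.gcd_pos_of_pos_left _ (f_pos hd _)).ne'
  have hn1 : ∀ h ∈ Ioc y k, (0 : ℝ) ≤ (if h ∣ f d (W * (i + 1)) then
        (if h ∣ f d (W * (j + 1)) then (nroots d h : ℝ) else 0) else 0) := by
    intro h _
    split_ifs <;> positivity
  have hn2 : ∀ h ∈ (f d (W * (i + 1))).divisors.filter (fun h => k < h),
      (0 : ℝ) ≤ (if h ∣ f d (W * (j + 1)) then (nroots d h : ℝ) else 0) := by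
    intro h _
    split_ifs <;> positivity
  rcases rough_one_or (Hi.of_dvd hgi) hg0 with h1 | h1
  · have h2 : nroots d 1 ≤ 1 := by
      have := nroots_le hd 1 one_ne_zero (fun p hp hp1 => by
        have := Nat.le_of_dvd one_pos hp1
        have := hp.two_le
        omega)
      simpa using this
    have h3 : (nroots d g : ℝ) ≤ 1 := by rw [h1]; exact_mod_cast h2
    have h4 := Finset.sum_nonneg hn1
    have h5 := Finset.sum_nonneg hn2
    linarith
  · rcases Nat.lt_or_ge k g with h2 | h2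
    · have h3 : (if g ∣ f d (W * (j + 1)) then (nroots d g : ℝ) else 0) ≤
          ∑ h ∈ (f d (W * (i + 1))).divisors.filter (fun h => k < h),
            (if h ∣ f d (W * (j + 1)) then (nroots d h : ℝ) else 0) :=
        Finset.single_le_sum hn2 (Finset.mem_filter.2
          ⟨Nat.mem_divisors.2 ⟨hgi, (f_pos hd _).ne'⟩, h2⟩)
      rw [if_pos hgj] at h3
      have h4 := Finset.sum_nonneg hn1
      linarith
    · have h3 : (if g ∣ f d (W * (i + 1)) then
          (if g ∣ f d (W * (j + 1)) then (nroots d g : ℝ) else 0) else 0) ≤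
          ∑ h ∈ Ioc y k, (if h ∣ f d (W * (i + 1)) then
            (if h ∣ f d (W * (j + 1)) then (nroots d h : ℝ) else 0) else 0) :=
        Finset.single_le_sum hn1 (Finset.mem_Ioc.2 ⟨h1, h2⟩)
      rw [if_pos hgi, if_pos hgj] at h3
      have h4 := Finset.sum_nonneg hn2
      linarith

open Classical in
lemma pair_sum_set {d z y W k : ℕ} {G : Finset ℕ} (hd : 0 < d) (hz : (2 * d) ^ (8 * d) ≤ z)
    (hW : ∀ p : ℕ, p.Prime → p ≤ z → p ∣ W) (hy : 1 ≤ y) (hG : G ⊆ range k)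
    (HG : ∀ i ∈ G, Rough y (f d (W * (i + 1)))) :
    ∑ i ∈ G, ∑ j ∈ G,
      ((nroots d ((f d (W * (i + 1))).gcd (f d (W * (j + 1)))) : ℝ) - 1) ≤
      4 * (k : ℝ) ^ 2 * (2 / √(y : ℝ)) + ∑ i ∈ G, (X d (f d (W * (i + 1))) : ℝ) := by
  refine (Finset.sum_le_sum fun i hi => Finset.sum_le_sum fun j _ =>
    pair_point_set (k := k) hd i j (HG i hi)).trans ?_
  simp only [Finset.sum_add_distrib]
  refine add_le_add ?_ ?_
  · have h1 : ∑ i ∈ G, ∑ j ∈ G, ∑ h ∈ Ioc y k, (if h ∣ f d (W * (i + 1)) then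
        (if h ∣ f d (W * (j + 1)) then (nroots d h : ℝ) else 0) else 0) ≤
        ∑ h ∈ Ioc y k, (nroots d h : ℝ) * (cnt d W k h : ℝ) ^ 2 := by
      have h2 : ∀ i ∈ G, ∑ j ∈ G, ∑ h ∈ Ioc y k, (if h ∣ f d (W * (i + 1)) then
          (if h ∣ f d (W * (j + 1)) then (nroots d h : ℝ) else 0) else 0) ≤
          ∑ h ∈ Ioc y k, (if h ∣ f d (W * (i + 1)) then (cnt d W k h * (nroots d h : ℝ)) else 0) := by
        intro i _
        rw [Finset.sum_comm]
        refine Finset.sum_le_sum fun h _ => ?_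
        split_ifs with h3
        · exact sum_ind_set hG (Nat.cast_nonneg _)
        · simp
      refine (Finset.sum_le_sum h2).trans ?_
      rw [Finset.sum_comm]
      refine Finset.sum_le_sum fun h _ => ?_
      refine (sum_ind_set hG (by positivity)).trans (le_of_eq ?_)
      ring
    refine h1.trans ?_
    refine (Finset.sum_le_sum fun h hh => small_term hd hz hW (J := k)
      (by have := Finset.mem_Ioc.1 hh; omega) (Finset.mem_Ioc.1 hh).2).trans ?_
    rw [← Finset.mul_sum]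
    exact mul_le_mul_of_nonneg_left (tele hy) (by positivity)
  · refine Finset.sum_le_sum fun i _ => ?_
    rw [Finset.sum_comm]
    have h1 : ∀ h ∈ (f d (W * (i + 1))).divisors.filter (fun h => k < h),
        ∑ j ∈ G, (if h ∣ f d (W * (j + 1)) then (nroots d h : ℝ) else 0) ≤
        ((d ^ (f d (W * (i + 1))).primeFactors.card) ^ 2 : ℕ) := by
      intro h hh
      obtain ⟨h2, h3⟩ := Finset.mem_filter.1 hh
      refine (sum_ind_set hG (Nat.cast_nonneg _)).trans ?_
      have h4 := large_term hd hz hW (Nat.dvd_of_mem_divisors h2) h3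
      rw [mul_comm]
      exact_mod_cast h4
    refine (Finset.sum_le_card_nsmul _ _ _ h1).trans ?_
    rw [nsmul_eq_mul]
    unfold X
    rw [Nat.cast_mul]
    refine mul_le_mul_of_nonneg_right ?_ (Nat.cast_nonneg _)
    exact_mod_cast Finset.card_le_card (Finset.filter_subset _ _)

open Classical in
lemma totient_sum_set {d z y W k : ℕ} {G : Finset ℕ} (hd : 0 < d) (hz : (2 * d) ^ (8 * d) ≤ z)
    (hW : ∀ p : ℕ, p.Prime → p ≤ z → p ∣ W) (hy : 1 ≤ y) (hG : G ⊆ range k) (hk : 0 < k)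
    (HG : ∀ i ∈ G, Rough y (f d (W * (i + 1)))) :
    (G.card : ℝ) * ∑ i ∈ G, (1 - ((f d (W * (i + 1))).totient : ℝ) / (f d (W * (i + 1)) : ℕ)) ≤
      2 * (k : ℝ) ^ 2 * (2 / √(y : ℝ)) + ∑ i ∈ G, (X d (f d (W * (i + 1))) : ℝ) := by
  have hkR : (0 : ℝ) < k := by exact_mod_cast hk
  have hGk : (G.card : ℝ) ≤ k := by
    have := Finset.card_le_card hG
    rw [Finset.card_range] at this
    exact_mod_cast this
  have h1 : ∀ i ∈ G, (1 - ((f d (W * (i + 1))).totient : ℝ) / (f d (W * (i + 1)) : ℕ)) ≤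
      (∑ h ∈ Ioc y k, (if h ∣ f d (W * (i + 1)) then (1 : ℝ) / h else 0)) +
      (X d (f d (W * (i + 1))) : ℝ) / k := by
    intro i hi
    set m := f d (W * (i + 1)) with hm
    have hm0 : 0 < m := f_pos hd _
    refine (totient_ge hm0).trans ?_
    rw [← Finset.sum_filter_add_sum_filter_not m.primeFactors (fun p => p ≤ k)]
    refine add_le_add ?_ ?_
    · rw [← Finset.sum_filter (s := Ioc y k)]
      refine Finset.sum_le_sum_of_subset_of_nonneg ?_ (fun _ _ _ => by positivity)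
      intro p hp
      obtain ⟨h2, h3⟩ := Finset.mem_filter.1 hp
      have h4 := Nat.dvd_of_mem_primeFactors h2
      exact Finset.mem_filter.2 ⟨Finset.mem_Ioc.2
        ⟨HG i hi p (Nat.prime_of_mem_primeFactors h2) h4, h3⟩, h4⟩
    · have h2 : ∀ p ∈ m.primeFactors.filter (fun p => ¬ p ≤ k), (1 : ℝ) / p ≤ 1 / k := by
        intro p hp
        obtain ⟨-, h3⟩ := Finset.mem_filter.1 hp
        exact one_div_le_one_div_of_le hkR (by exact_mod_cast (not_le.1 h3).le)
      refine (Finset.sum_le_card_nsmul _ _ _ h2).trans ?_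
      rw [nsmul_eq_mul, mul_one_div]
      gcongr
      unfold X
      calc (m.primeFactors.filter fun p => ¬ p ≤ k).card ≤ m.primeFactors.card :=
            Finset.card_le_card (Finset.filter_subset _ _)
        _ ≤ m.divisors.card := Finset.card_le_card fun p hp =>
            Nat.mem_divisors.2 ⟨Nat.dvd_of_mem_primeFactors hp, hm0.ne'⟩
        _ ≤ m.divisors.card * (d ^ m.primeFactors.card) ^ 2 :=
            Nat.le_mul_of_pos_right _ (by positivity)
  have h5 : ∑ i ∈ G, (1 - ((f d (W * (i + 1))).totient : ℝ) / (f d (W * (i + 1)) : ℕ)) ≤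
      2 * (k : ℝ) * (2 / √(y : ℝ)) + (∑ i ∈ G, (X d (f d (W * (i + 1))) : ℝ)) / k := by
    refine (Finset.sum_le_sum h1).trans ?_
    rw [Finset.sum_add_distrib, Finset.sum_div]
    refine add_le_add ?_ le_rfl
    rw [Finset.sum_comm]
    have h6 : ∀ h ∈ Ioc y k, ∑ i ∈ G, (if h ∣ f d (W * (i + 1)) then (1 : ℝ) / h else 0) ≤
        2 * (k : ℝ) * (√(h : ℝ) / (h : ℝ) ^ 2) := by
      intro h hh
      refine (sum_ind_set hG (by positivity)).trans ?_
      exact cnt_div hd hz hW (by have := Finset.mem_Ioc.1 hh; omega) (Finset.mem_Ioc.1 hh).2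
    refine (Finset.sum_le_sum h6).trans ?_
    rw [← Finset.mul_sum]
    exact mul_le_mul_of_nonneg_left (tele hy) (by positivity)
  have h7 : (0 : ℝ) ≤ 2 * (k : ℝ) * (2 / √(y : ℝ)) +
      (∑ i ∈ G, (X d (f d (W * (i + 1))) : ℝ)) / k := by positivity
  calc (G.card : ℝ) *
        ∑ i ∈ G, (1 - ((f d (W * (i + 1))).totient : ℝ) / (f d (W * (i + 1)) : ℕ))
      ≤ G.card * (2 * (k : ℝ) * (2 / √(y : ℝ)) +
          (∑ i ∈ G, (X d (f d (W * (i + 1))) : ℝ)) / k) :=
        mul_le_mul_of_nonneg_left h5 (Nat.cast_nonneg _)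
    _ ≤ k * (2 * (k : ℝ) * (2 / √(y : ℝ)) +
          (∑ i ∈ G, (X d (f d (W * (i + 1))) : ℝ)) / k) :=
        mul_le_mul_of_nonneg_right hGk h7
    _ = 2 * (k : ℝ) ^ 2 * (2 / √(y : ℝ)) + ∑ i ∈ G, (X d (f d (W * (i + 1))) : ℝ) := by
        field_simp

/-- **The finite theorem for a set of moduli without prime factors up to `y`.** -/
theorem finite_set {d z y W k N : ℕ} {G : Finset ℕ} (hd : 0 < d) (hz : (2 * d) ^ (8 * d) ≤ z)
    (hW0 : 0 < W) (hW : ∀ p : ℕ, p.Prime → p ≤ z → p ∣ W) (hy : 1 ≤ y) (hG : G ⊆ range k)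
    (hk : 0 < k) (HG : ∀ i ∈ G, Rough y (f d (W * (i + 1)))) {δ : ℝ} (hδ : 0 < δ)
    (hδG : δ * k ≤ G.card) :
    (((range N).filter fun n => ∀ j ∈ G, A d (f d (W * (j + 1))) n = 0).card : ℝ) ≤
      N * ((12 / √(y : ℝ) + 2 * (√(2 * W * k) / k)) / δ ^ 2) + 3 * ((2 * (W : ℝ) * k) ^ d) ^ 2 := by
  have hkR : (0 : ℝ) < k := by exact_mod_cast hk
  have hGk : (G.card : ℝ) ≤ k := by
    have := Finset.card_le_card hG
    rw [Finset.card_range] at this
    exact_mod_cast this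
  have hGpos : (0 : ℝ) < G.card := lt_of_lt_of_le (by positivity) hδG
  have hM : ∀ j ∈ G, f d (W * (j + 1)) ≤ (2 * W * k) ^ d := by
    intro j hj
    refine (f_le d _).trans (Nat.pow_le_pow_left ?_ d)
    have h1 : W * (j + 1) ≤ W * k := Nat.mul_le_mul_left _ (Finset.mem_range.1 (hG hj))
    have h2 : 0 < W * k := by positivity
    have h3 : 2 * W * k = 2 * (W * k) := by ring
    omega
  have h1 := second_moment_set (d := d) (N := N) G rfl (fun j => f d (W * (j + 1)))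
    (fun j => f_pos hd _) hM
  have h2 := pair_sum_set hd hz hW hy hG HG
  have h3 := totient_sum_set hd hz hW hy hG hk HG
  have hX : ∑ i ∈ G, (X d (f d (W * (i + 1))) : ℝ) ≤ k * √(2 * W * k) := by
    have h4 : ∀ i ∈ G, (X d (f d (W * (i + 1))) : ℝ) ≤ √(2 * W * k) := by
      intro i hi
      refine Real.le_sqrt_of_sq_le ?_
      have h5 := X_sq_le (j := i) hd hz hW hW0
      have h6 : 2 * (W * (i + 1)) ≤ 2 * W * k := by
        rw [mul_assoc]
        exact Nat.mul_le_mul_left _ (Nat.mul_le_mul_left _ (Finset.mem_range.1 (hG hi)))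
      exact_mod_cast h5.trans h6
    refine (Finset.sum_le_card_nsmul _ _ _ h4).trans ?_
    rw [nsmul_eq_mul]
    exact mul_le_mul_of_nonneg_right hGk (Real.sqrt_nonneg _)
  have hN0 : (0 : ℝ) ≤ N := Nat.cast_nonneg _
  set T := (((range N).filter fun n => ∀ j ∈ G, A d (f d (W * (j + 1))) n = 0).card : ℝ)
  have h7 : T * (G.card : ℝ) ^ 2 ≤ N * ((12 / √(y : ℝ) + 2 * (√(2 * W * k) / k)) * (k : ℝ) ^ 2) +
      3 * ((2 * (W : ℝ) * k) ^ d) ^ 2 * (G.card : ℝ) ^ 2 := by
    refine h1.trans ?_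
    push_cast
    have e1 : 3 * ((G.card : ℝ) * (2 * (W : ℝ) * k) ^ d) ^ 2 =
        3 * ((2 * (W : ℝ) * k) ^ d) ^ 2 * (G.card : ℝ) ^ 2 := by ring
    rw [e1]
    gcongr ?_ + _
    refine mul_le_mul_of_nonneg_left ?_ hN0
    have h8 : (12 / √(y : ℝ) + 2 * (√(2 * W * k) / k)) * (k : ℝ) ^ 2 =
        4 * (k : ℝ) ^ 2 * (2 / √(y : ℝ)) + 2 * (k : ℝ) ^ 2 * (2 / √(y : ℝ)) +
          2 * (k * √(2 * W * k)) := by field_simp; ring
    rw [h8]
    linarith
  have hc : 0 ≤ 12 / √(y : ℝ) + 2 * (√(2 * W * k) / k) := by positivity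
  have h9 : (12 / √(y : ℝ) + 2 * (√(2 * W * k) / k)) * (k : ℝ) ^ 2 ≤
      (12 / √(y : ℝ) + 2 * (√(2 * W * k) / k)) / δ ^ 2 * (G.card : ℝ) ^ 2 := by
    have h10 : (δ * k) ^ 2 ≤ (G.card : ℝ) ^ 2 := pow_le_pow_left₀ (by positivity) hδG 2
    have h11 : (12 / √(y : ℝ) + 2 * (√(2 * W * k) / k)) / δ ^ 2 * (δ * k) ^ 2 =
        (12 / √(y : ℝ) + 2 * (√(2 * W * k) / k)) * (k : ℝ) ^ 2 := by
      field_simp
    rw [← h11]
    exact mul_le_mul_of_nonneg_left h10 (by positivity)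
  have h12 : T * (G.card : ℝ) ^ 2 ≤ (N * ((12 / √(y : ℝ) + 2 * (√(2 * W * k) / k)) / δ ^ 2) +
      3 * ((2 * (W : ℝ) * k) ^ d) ^ 2) * (G.card : ℝ) ^ 2 := by
    have h13 := mul_le_mul_of_nonneg_left h9 hN0
    linarith
  exact le_of_mul_le_mul_right h12 (by positivity)

end Pool.Agent.H172.TC
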