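import Mathlib
import Pool.Agent.H172.TC.Brun
import Pool.Agent.H172.TC.Count

/-!
# Many of the numbers `(a + 1) ^ d - a ^ d` have no small prime factors
-/

set_option autoImplicit false

namespace Pool.Agent.H172.TC

open Finset

lemma dvd_f_iff {d a p : ℕ} : p ∣ f d a ↔ a ^ d ≡ (a + 1) ^ d [MOD p] :=
  (Nat.modEq_iff_dvd' (Nat.pow_le_pow_left (Nat.le_succ a) d)).symm

lemma dvd_f_mod {d W p j : ℕ} : p ∣ f d (W * (j % p + 1)) ↔ p ∣ f d (W * (j + 1)) := by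
  have h1 : W * (j % p + 1) ≡ W * (j + 1) [MOD p] :=
    (Nat.ModEq.add_right 1 (Nat.mod_modEq j p)).mul_left W
  have h2 := h1.pow d
  have h3 := (h1.add_right 1).pow d
  rw [dvd_f_iff, dvd_f_iff]
  exact ⟨fun h => h2.symm.trans (h.trans h3), fun h => h2.trans (h.trans h3.symm)⟩

/-- The bad classes modulo `p`. -/
def Bad (d W p : ℕ) : Finset ℕ := (range p).filter fun r => p ∣ f d (W * (r + 1))

/-- The sifting primes. -/
def Sift (z y : ℕ) : Finset ℕ := (Ioc z y).filter Nat.Prime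

lemma card_Bad_le {d W p : ℕ} (hd : 0 < d) (hp : p.Prime) (hp2 : p ≠ 2) :
    (Bad d W p).card ≤ 2 * d := by
  have h1 := card_f_le (W := W) (J := p) hd hp.pos
  rw [Nat.div_self hp.pos] at h1
  have h2 : nroots d p ≤ d := by
    have := nroots_prime_pow (n := 1) hd hp hp2
    rwa [pow_one] at this
  calc (Bad d W p).card ≤ (1 + 1) * nroots d p := by
        unfold Bad
        convert h1
    _ ≤ 2 * d := Nat.mul_le_mul (by norm_num) h2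

/-- The indices below `k` for which the modulus has no prime factor up to `y`. -/
def RSet (d W z y k : ℕ) : Finset ℕ :=
  (range k).filter fun j => ∀ p ∈ Sift z y, j % p ∉ Bad d W p

lemma rough_RSet {d W z y k : ℕ} (hd : 0 < d) (hW : ∀ p : ℕ, p.Prime → p ≤ z → p ∣ W) {j : ℕ}
    (hj : j ∈ RSet d W z y k) : Rough y (f d (W * (j + 1))) := by
  intro p hp hpf
  by_contra hcon
  have h1 := rough_f hd hW j p hp hpf
  have h2 := (Finset.mem_filter.1 hj).2 p (Finset.mem_filter.2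
    ⟨Finset.mem_Ioc.2 ⟨h1, by omega⟩, hp⟩)
  exact h2 (Finset.mem_filter.2 ⟨Finset.mem_range.2 (Nat.mod_lt j hp.pos), dvd_f_mod.2 hpf⟩)

lemma card_RSet {d W z k : ℕ} (hd : 0 < d) (hz : (2 * d) ^ (8 * d) ≤ z) (I : ℕ) (hI : 1 ≤ I) :
    (k : ℝ) * (Real.exp (-(8 * ((2 * d : ℕ) : ℝ))) ^ I / 2) -
      (2 : ℝ) ^ ((96 * (2 * d) + 22) * 2 ^ I) ≤ ((RSet d W z (2 ^ 2 ^ I) k).card : ℝ) := by
  have hz4 : 4 * d ≤ z := by
    refine le_trans ?_ hz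
    calc 4 * d ≤ (2 * d) ^ 2 := by nlinarith
      _ ≤ (2 * d) ^ (8 * d) := Nat.pow_le_pow_right (by omega) (by omega)
  have hp : ∀ p ∈ Sift z (2 ^ 2 ^ I), p.Prime ∧ z < p ∧ p ≤ 2 ^ 2 ^ I := by
    intro p hp
    obtain ⟨h1, h2⟩ := Finset.mem_filter.1 hp
    exact ⟨h2, (Finset.mem_Ioc.1 h1).1, (Finset.mem_Ioc.1 h1).2⟩
  have hcard : ∀ p ∈ Sift z (2 ^ 2 ^ I), (Bad d W p).card ≤ 2 * d := by
    intro p hpS
    obtain ⟨h1, h2, -⟩ := hp p hpS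
    exact card_Bad_le hd h1 (by omega)
  exact sieve_lower' (B := Bad d W) (κ := 2 * d) (Sift z (2 ^ 2 ^ I)) (fun p h => (hp p h).1)
    (fun p _ => Finset.filter_subset _ _) hcard
    (fun p h => by have := hcard p h; have := (hp p h).2.1; omega) I hI
    (fun p h => (hp p h).2.2) k

/-- The exponent of the length. -/
def K0 (d : ℕ) : ℕ := 216 * d + 26

/-- The set of the indices which are used. -/
def GSet (d W z I : ℕ) : Finset ℕ :=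
  (RSet d W z (2 ^ 2 ^ I) (2 ^ (K0 d * 2 ^ I))).filter fun j => 2 ^ 2 ^ I ≤ j

lemma card_GSet {d W z : ℕ} (hd : 0 < d) (hz : (2 * d) ^ (8 * d) ≤ z) (I : ℕ) (hI : 1 ≤ I) :
    (1 / (2 : ℝ) ^ (24 * d * I + 3)) * ((2 ^ (K0 d * 2 ^ I) : ℕ) : ℝ) ≤
      ((GSet d W z I).card : ℝ) := by
  have h1 := card_RSet (W := W) (k := 2 ^ (K0 d * 2 ^ I)) hd hz I hI
  have h2 : (RSet d W z (2 ^ 2 ^ I) (2 ^ (K0 d * 2 ^ I))).card ≤
      (GSet d W z I).card + 2 ^ 2 ^ I := by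
    rw [← Finset.card_filter_add_card_filter_not (s := RSet d W z (2 ^ 2 ^ I) (2 ^ (K0 d * 2 ^ I)))
      (fun j => 2 ^ 2 ^ I ≤ j)]
    refine Nat.add_le_add le_rfl ?_
    calc _ ≤ (range (2 ^ 2 ^ I)).card := Finset.card_le_card fun j hj => by
          have := (Finset.mem_filter.1 hj).2
          exact Finset.mem_range.2 (by omega)
      _ = 2 ^ 2 ^ I := Finset.card_range _
  have h2R : ((RSet d W z (2 ^ 2 ^ I) (2 ^ (K0 d * 2 ^ I))).card : ℝ) ≤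
      ((GSet d W z I).card : ℝ) + (2 : ℝ) ^ 2 ^ I := by exact_mod_cast h2
  have he : (1 : ℝ) / 2 ^ (24 * d * I) ≤ Real.exp (-(8 * ((2 * d : ℕ) : ℝ))) ^ I := by
    have e1 : Real.exp (-(8 * ((2 * d : ℕ) : ℝ))) ^ I = ((Real.exp 1 ^ 16) ^ (d * I))⁻¹ := by
      rw [← pow_mul, ← Real.exp_nat_mul, ← Real.exp_nat_mul, ← Real.exp_neg]
      push_cast
      congr 1
      ring
    rw [e1, one_div]
    have h6 := Real.exp_one_lt_d9
    have h7 : Real.exp 1 ^ 16 ≤ (2 : ℝ) ^ 24 := by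
      calc Real.exp 1 ^ 16 ≤ 2.7182818286 ^ 16 := pow_le_pow_left₀ (Real.exp_pos 1).le h6.le 16
        _ ≤ 2 ^ 24 := by norm_num
    have h8 : (Real.exp 1 ^ 16) ^ (d * I) ≤ ((2 : ℝ) ^ 24) ^ (d * I) :=
      pow_le_pow_left₀ (by positivity) h7 _
    rw [show 24 * d * I = 24 * (d * I) by ring, pow_mul]
    exact inv_anti₀ (by positivity) h8
  have hI2 : I < 2 ^ I := Nat.lt_two_pow_self
  have hk : ((2 ^ (K0 d * 2 ^ I) : ℕ) : ℝ) = (2 : ℝ) ^ (K0 d * 2 ^ I) := by push_cast; rfl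
  have h24 : 24 * d * I ≤ 24 * d * 2 ^ I := Nat.mul_le_mul_left _ hI2.le
  have hexp : K0 d * 2 ^ I = (192 * d + 22) * 2 ^ I + 24 * d * 2 ^ I + 4 * 2 ^ I := by
    unfold K0; ring
  have h22 : 2 ≤ 2 ^ I := by
    calc 2 = 2 ^ 1 := by norm_num
      _ ≤ 2 ^ I := Nat.pow_le_pow_right (by norm_num) hI
  have h3 : (2 : ℝ) ^ ((96 * (2 * d) + 22) * 2 ^ I) ≤
      (2 : ℝ) ^ (K0 d * 2 ^ I) * (1 / 2 ^ (24 * d * I + 2 + 1)) := by
    rw [mul_one_div, le_div_iff₀ (by positivity), ← pow_add]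
    refine pow_le_pow_right₀ (by norm_num) ?_
    rw [hexp]
    have e2 : (96 * (2 * d) + 22) * 2 ^ I = (192 * d + 22) * 2 ^ I := by ring
    omega
  have h4 : (2 : ℝ) ^ 2 ^ I ≤ (2 : ℝ) ^ (K0 d * 2 ^ I) * (1 / 2 ^ (24 * d * I + 2 + 1)) := by
    refine le_trans ?_ h3
    have e9 : 2 ^ I ≤ (96 * (2 * d) + 22) * 2 ^ I := by nlinarith
    exact pow_le_pow_right₀ (by norm_num) e9
  have h5 : (2 : ℝ) ^ (K0 d * 2 ^ I) * (1 / 2 ^ (24 * d * I) / 2) ≤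
      (2 : ℝ) ^ (K0 d * 2 ^ I) * (Real.exp (-(8 * ((2 * d : ℕ) : ℝ))) ^ I / 2) := by
    gcongr
  rw [hk] at h1 ⊢
  have e5 : (2 : ℝ) ^ (K0 d * 2 ^ I) * (1 / 2 ^ (24 * d * I) / 2) =
      4 * ((2 : ℝ) ^ (K0 d * 2 ^ I) * (1 / 2 ^ (24 * d * I + 2 + 1))) := by
    rw [pow_succ, pow_add]
    field_simp
    norm_num
  have e6 : (1 / (2 : ℝ) ^ (24 * d * I + 3)) * (2 : ℝ) ^ (K0 d * 2 ^ I) =
      (2 : ℝ) ^ (K0 d * 2 ^ I) * (1 / 2 ^ (24 * d * I + 2 + 1)) := by ring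
  rw [e6]
  have hpos : (0 : ℝ) < (2 : ℝ) ^ (K0 d * 2 ^ I) * (1 / 2 ^ (24 * d * I + 2 + 1)) := by positivity
  linarith

end Pool.Agent.H172.TC
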