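import Mathlib

/-!
# Tilings of the unit cube by cubes of two sizes

The block construction is the one of the library module on tilings with a fixed ratio, here in
every dimension.
-/

set_option autoImplicit false

open Set

namespace Pool.Agent.H172.TC

/-- The closed cube with least corner `c` and side length `s`. -/
def Cube {d : ℕ} (c : Fin d → ℝ) (s : ℝ) : Set (Fin d → ℝ) := Icc c fun k => c k + s

/-- The closed cubes with corners `c i` and side lengths `s i` tile the unit cube: the side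
lengths are positive and less than one, the union of the cubes is the unit cube, and their
interiors are pairwise disjoint. -/
def IsTiling {d : ℕ} {ι : Type} (c : ι → Fin d → ℝ) (s : ι → ℝ) : Prop :=
  (∀ i, 0 < s i ∧ s i < 1) ∧ (⋃ i, Cube (c i) (s i)) = Icc 0 1 ∧
    ∀ i j, i ≠ j → Disjoint (interior (Cube (c i) (s i))) (interior (Cube (c j) (s j)))

variable {d : ℕ}

lemma int_cube (c : Fin d → ℝ) (s : ℝ) :
    interior (Cube c s) = {x | ∀ k, c k < x k ∧ x k < c k + s} := by
  unfold Cube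
  rw [← Set.pi_univ_Icc, interior_pi_set (Set.toFinite _)]
  ext x
  simp [interior_Icc, Set.mem_pi]

/-- The corner of the piece `h` of the subdivision of a cube into `k ^ d` equal cubes. -/
noncomputable def piece (c : Fin d → ℝ) (s : ℝ) (k : ℕ) (h : Fin d → Fin k) : Fin d → ℝ :=
  fun j => c j + s / k * ((h j : ℕ) : ℝ)

lemma piece_bounds (c : Fin d → ℝ) {s : ℝ} (hs : 0 < s) {k : ℕ} (hk : 0 < k) (h : Fin d → Fin k)
    (j : Fin d) : c j ≤ piece c s k h j ∧ piece c s k h j + s / k ≤ c j + s := by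
  have hk' : (0 : ℝ) < k := by exact_mod_cast hk
  unfold piece
  constructor
  · have : 0 ≤ s / k * ((h j : ℕ) : ℝ) := by positivity
    linarith
  · have h1 : (((h j : ℕ) : ℝ) + 1) ≤ k := by exact_mod_cast (h j).2
    have h2 : s / k * (((h j : ℕ) : ℝ) + 1) ≤ s / k * k :=
      mul_le_mul_of_nonneg_left h1 (by positivity)
    rw [div_mul_cancel₀ _ hk'.ne'] at h2
    linarith

lemma sub_union (c : Fin d → ℝ) {s : ℝ} (hs : 0 < s) {k : ℕ} (hk : 0 < k) :
    (⋃ h : Fin d → Fin k, Cube (piece c s k h) (s / k)) = Cube c s := by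
  have hk' : (0 : ℝ) < k := by exact_mod_cast hk
  ext x
  rw [mem_iUnion]
  constructor
  · rintro ⟨h, hx⟩
    refine ⟨fun j => (piece_bounds c hs hk h j).1.trans (hx.1 j), fun j => ?_⟩
    exact (hx.2 j).trans (piece_bounds c hs hk h j).2
  · rintro ⟨hx1, hx2⟩
    have hex : ∀ j, ∃ m : Fin k, c j + s / k * ((m : ℕ) : ℝ) ≤ x j ∧
        x j ≤ c j + s / k * ((m : ℕ) : ℝ) + s / k := by
      intro j
      have h1 : 0 ≤ x j - c j := sub_nonneg.2 (hx1 j)
      have h2 : x j - c j ≤ s := by have := hx2 j; simp only at this; linarith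
      have h3 : 0 ≤ (x j - c j) / (s / k) := by positivity
      by_cases h4 : ⌊(x j - c j) / (s / k)⌋₊ < k
      · refine ⟨⟨_, h4⟩, ?_, ?_⟩
        · have h5 := Nat.floor_le h3
          rw [le_div_iff₀ (by positivity)] at h5
          simp only
          linarith
        · have h5 := (Nat.lt_floor_add_one ((x j - c j) / (s / k))).le
          rw [div_le_iff₀ (by positivity)] at h5
          simp only
          linarith
      · refine ⟨⟨k - 1, by omega⟩, ?_, ?_⟩
        · push Not at h4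
          have h5 : (k : ℝ) ≤ (x j - c j) / (s / k) :=
            le_trans (by exact_mod_cast h4) (Nat.floor_le h3)
          rw [le_div_iff₀ (by positivity)] at h5
          have h6 : ((k - 1 : ℕ) : ℝ) = k - 1 := by
            rw [Nat.cast_sub (by omega)]; simp
          simp only [h6]
          have h7 : 0 < s / k := by positivity
          nlinarith
        · have h6 : ((k - 1 : ℕ) : ℝ) = k - 1 := by
            rw [Nat.cast_sub (by omega)]; simp
          simp only [h6]
          have h8 : s / k * k = s := div_mul_cancel₀ _ hk'.ne'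
          nlinarith
    choose m hm1 hm2 using hex
    exact ⟨m, hm1, hm2⟩

lemma sub_int (c : Fin d → ℝ) {s : ℝ} (hs : 0 < s) {k : ℕ} (hk : 0 < k) (h : Fin d → Fin k) :
    interior (Cube (piece c s k h) (s / k)) ⊆ interior (Cube c s) := by
  rw [int_cube, int_cube]
  intro x hx j
  exact ⟨(piece_bounds c hs hk h j).1.trans_lt (hx j).1,
    (hx j).2.trans_le (piece_bounds c hs hk h j).2⟩

lemma sub_disj (c : Fin d → ℝ) {s : ℝ} (hs : 0 < s) {k : ℕ} (hk : 0 < k) {h h' : Fin d → Fin k}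
    (hne : h ≠ h') : Disjoint (interior (Cube (piece c s k h) (s / k)))
      (interior (Cube (piece c s k h') (s / k))) := by
  have hk' : (0 : ℝ) < k := by exact_mod_cast hk
  have hd : 0 < s / k := by positivity
  rw [int_cube, int_cube, Set.disjoint_left]
  intro x hx hx'
  obtain ⟨j, hj⟩ := Function.ne_iff.1 hne
  have hj' : (h j : ℕ) ≠ h' j := fun h5 => hj (Fin.ext h5)
  have h1 := hx j
  have h2 := hx' j
  unfold piece at h1 h2
  rcases Nat.lt_or_gt_of_ne hj' with h3 | h3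
  · have h4 : ((h j : ℕ) : ℝ) + 1 ≤ ((h' j : ℕ) : ℝ) := by exact_mod_cast h3
    have h5 := mul_le_mul_of_nonneg_left h4 hd.le
    linarith [h1.2, h2.1]
  · have h4 : ((h' j : ℕ) : ℝ) + 1 ≤ ((h j : ℕ) : ℝ) := by exact_mod_cast h3
    have h5 := mul_le_mul_of_nonneg_left h4 hd.le
    linarith [h1.1, h2.2]

/-- The unit cube is divided into `M ^ d` blocks and the block `g` into `k g ^ d` cubes. -/
lemma tiling_blocks {M : ℕ} (hM : 2 ≤ M) (k : (Fin d → Fin M) → ℕ) (hk : ∀ g, 0 < k g) :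
    IsTiling (ι := Σ g : Fin d → Fin M, (Fin d → Fin (k g)))
      (fun i => piece (piece 0 1 M i.1) (1 / M) (k i.1) i.2) (fun i => 1 / M / k i.1) := by
  have hM0 : 0 < M := by omega
  have hM' : (0 : ℝ) < M := by exact_mod_cast hM0
  have hs : (0 : ℝ) < 1 / M := by positivity
  refine ⟨fun i => ⟨?_, ?_⟩, ?_, ?_⟩
  · have : (0 : ℝ) < k i.1 := by exact_mod_cast hk i.1
    positivity
  · have h1 : (1 : ℝ) ≤ k i.1 := by exact_mod_cast hk i.1
    have h2 : (2 : ℝ) ≤ M := by exact_mod_cast hM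
    have h3 : 1 / (M : ℝ) < 1 := by
      rw [div_lt_one hM']; linarith
    exact (div_le_self hs.le h1).trans_lt h3
  · rw [iUnion_sigma]
    have h1 : ∀ g : Fin d → Fin M, (⋃ h : Fin d → Fin (k g),
        Cube (piece (piece 0 1 M g) (1 / M) (k g) h) (1 / M / k g)) =
        Cube (piece 0 1 M g) (1 / M) := fun g => sub_union _ hs (hk g)
    simp only [h1]
    rw [sub_union 0 one_pos hM0]
    unfold Cube
    congr 1
    ext k
    simp
  · rintro ⟨g, h⟩ ⟨g', h'⟩ hne
    by_cases hg : g = g'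
    · subst hg
      refine sub_disj _ hs (hk g) ?_
      rintro rfl
      exact hne rfl
    · exact (sub_disj 0 one_pos hM0 hg).mono (sub_int _ hs (hk g) h) (sub_int _ hs (hk g') h')

lemma sum_blocks (N y a b : ℕ) (hy : y ≤ N) :
    ∑ i : Fin N, (if (i : ℕ) < y then b else a) ^ d = y * b ^ d + (N - y) * a ^ d := by
  rw [Fin.sum_univ_eq_sum_range (fun i => (if i < y then b else a) ^ d) N]
  obtain ⟨z, rfl⟩ := Nat.exists_eq_add_of_le hy
  rw [Finset.sum_range_add]
  rw [Finset.sum_congr rfl (g := fun _ => b ^ d) (fun i hi => by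
    rw [if_pos (Finset.mem_range.1 hi)])]
  rw [Finset.sum_congr (s₁ := Finset.range z) rfl (g := fun _ => a ^ d) (fun i _ => by
    rw [if_neg (by omega)])]
  simp

/-- There is a tiling by `n = y b ^ d + (M ^ d - y) a ^ d` cubes. -/
lemma exists_tiling {M y a b : ℕ} (hM : 2 ≤ M) (ha : 0 < a) (hb : 0 < b) (hy : y ≤ M ^ d) {n : ℕ}
    (hn : n = y * b ^ d + (M ^ d - y) * a ^ d) :
    ∃ (c : Fin n → Fin d → ℝ) (s : Fin n → ℝ),
      (∀ i, s i = 1 / M / b ∨ s i = 1 / M / a) ∧ IsTiling c s := by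
  classical
  have hcard : Fintype.card (Fin d → Fin M) = M ^ d := by simp
  let e : (Fin d → Fin M) ≃ Fin (M ^ d) := Fintype.equivFinOfCardEq hcard
  let k : (Fin d → Fin M) → ℕ := fun g => if (e g : ℕ) < y then b else a
  have hk : ∀ g, 0 < k g := by
    intro g
    by_cases h : (e g : ℕ) < y <;> simp [k, h, ha, hb]
  have ht := tiling_blocks hM k hk
  have hcard2 : Fintype.card (Σ g : Fin d → Fin M, (Fin d → Fin (k g))) = n := by
    rw [Fintype.card_sigma]
    simp only [Fintype.card_fun, Fintype.card_fin]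
    rw [hn, ← sum_blocks (M ^ d) y a b hy]
    exact Fintype.sum_equiv e _ _ (fun g => rfl)
  let φ := (Fintype.equivFinOfCardEq hcard2).symm
  refine ⟨_, _, ?_, ⟨fun i => ht.1 (φ i), ?_, fun i j hij => ht.2.2 (φ i) (φ j)
    (fun h => hij (φ.injective h))⟩⟩
  · intro i
    by_cases h : (e (φ i).1 : ℕ) < y
    · left; simp only [k, if_pos h]
    · right; simp only [k, if_neg h]
  · rw [← ht.2.1]
    exact φ.surjective.iUnion_comp (fun i => Cube (piece (piece 0 1 M i.1) (1 / M) (k i.1) i.2)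
      (1 / M / k i.1))

lemma coprime_diff {a b : ℕ} (hd : 0 < d) (hab : a < b) (hc : a.Coprime b) :
    a.Coprime (b ^ d - a ^ d) := by
  obtain ⟨e, rfl⟩ := Nat.exists_eq_succ_of_ne_zero hd.ne'
  have h1 : b ^ (e + 1) = (b ^ (e + 1) - a ^ (e + 1)) + a * a ^ e := by
    have : a ^ (e + 1) ≤ b ^ (e + 1) := Nat.pow_le_pow_left hab.le _
    have h2 : a * a ^ e = a ^ (e + 1) := by ring
    omega
  have h2 : a.Coprime (b ^ (e + 1)) := hc.pow_right _
  rw [h1, Nat.coprime_add_mul_left_right] at h2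
  exact h2

/-- For `n ≥ (a (b D + D + 2)) ^ d` with `D = b ^ d - a ^ d` the condition is sufficient. -/
lemma exists_My {a b n : ℕ} (hd : 0 < d) (ha : 0 < a) (hab : a < b) (hc : a.Coprime b)
    (hn : (a * (b * (b ^ d - a ^ d) + (b ^ d - a ^ d) + 2)) ^ d ≤ n)
    (ht : ∃ t : ℕ, t ^ d ≡ n [MOD b ^ d - a ^ d]) :
      ∃ M y : ℕ, 2 ≤ M ∧ y ≤ M ^ d ∧ n = y * b ^ d + (M ^ d - y) * a ^ d := by
  have hcD := coprime_diff hd hab hc
  have hbd : b ^ d = a ^ d + (b ^ d - a ^ d) := by
    have : a ^ d ≤ b ^ d := Nat.pow_le_pow_left hab.le d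
    omega
  have hD0 : 0 < b ^ d - a ^ d := Nat.sub_pos_of_lt (Nat.pow_lt_pow_left hab hd.ne')
  set D := b ^ d - a ^ d with hD
  obtain ⟨t, ht⟩ := ht
  set m₁ := Nat.findGreatest (fun m => (a * m) ^ d ≤ n) n with hm₁
  have hle : ∀ m : ℕ, m ≤ (a * m) ^ d := by
    intro m
    calc m ≤ a * m := Nat.le_mul_of_pos_left m ha
      _ ≤ (a * m) ^ d := Nat.le_self_pow hd.ne' _
  have hL : b * D + D + 2 ≤ m₁ :=
    Nat.le_findGreatest ((hle _).trans hn) hn
  have hm1 : (a * m₁) ^ d ≤ n :=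
    Nat.findGreatest_spec (P := fun m => (a * m) ^ d ≤ n) ((hle _).trans hn) hn
  have hm2 : n < (a * (m₁ + 1)) ^ d := by
    by_contra hcon
    push Not at hcon
    have := Nat.le_findGreatest (P := fun m => (a * m) ^ d ≤ n) ((hle _).trans hcon) hcon
    omega
  obtain ⟨M₀, hM₀, hM₀'⟩ := Nat.exists_mul_mod_eq_of_coprime t hcD hD0.ne'
  have hr : (m₁ - M₀) % D < D := Nat.mod_lt _ hD0
  have hq := Nat.div_add_mod (m₁ - M₀) D
  obtain ⟨M, hM⟩ : ∃ M, M = M₀ + D * ((m₁ - M₀) / D) := ⟨_, rfl⟩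
  have hMm : M + (m₁ - M₀) % D = m₁ := by omega
  have hMle : M ≤ m₁ := by omega
  have hMge : m₁ + 1 ≤ M + D := by omega
  have hmod : (a * M) ^ d ≡ n [MOD D] := by
    have h1 : M ≡ M₀ [MOD D] := by
      rw [hM]
      simp [Nat.ModEq]
    have h2 : a * M ≡ t [MOD D] := (h1.mul_left a).trans hM₀'
    exact (h2.pow d).trans ht
  have hle1 : (a * M) ^ d ≤ n :=
    (Nat.pow_le_pow_left (Nat.mul_le_mul_left a hMle) d).trans hm1
  obtain ⟨y, hy⟩ := (Nat.modEq_iff_dvd' hle1).1 hmod
  have hny : n = (a * M) ^ d + D * y := by omega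
  have hbM : a * (m₁ + 1) ≤ b * M := by
    have h1 : (a + 1) * (m₁ + 1) ≤ b * (m₁ + 1) := Nat.mul_le_mul_right _ hab
    have h2 : b * (m₁ + 1) ≤ b * (M + D) := Nat.mul_le_mul_left _ hMge
    have h3 : (a + 1) * (m₁ + 1) = a * (m₁ + 1) + (m₁ + 1) := by ring
    have h4 : b * (M + D) = b * M + b * D := by ring
    omega
  have hlt : n < (b * M) ^ d := hm2.trans_le (Nat.pow_le_pow_left hbM d)
  have hyM : y ≤ M ^ d := by
    by_contra hcon
    push Not at hcon
    have h1 : D * M ^ d ≤ D * y := Nat.mul_le_mul_left _ hcon.le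
    have h2 : (b * M) ^ d = (a * M) ^ d + D * M ^ d := by
      rw [mul_pow, mul_pow, hbd]; ring
    omega
  have hb1 : 1 ≤ b * D := Nat.mul_pos (by omega) hD0
  refine ⟨M, y, by omega, hyM, ?_⟩
  obtain ⟨z, hz⟩ := Nat.exists_eq_add_of_le hyM
  rw [hny, hz, Nat.add_sub_cancel_left, hbd, mul_pow, hz]
  ring

end Pool.Agent.H172.TC
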