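import Mathlib
import Pool.Agent.H172.TC.Tile
import Pool.Agent.H172.TC.FiniteSet
import Pool.Agent.H172.TC.RoughSet

/-!
# Tilings by cubes of two sizes for all but `O(N ^ (1 - c))` numbers
-/

set_option autoImplicit false

namespace Pool.Agent.H172.TC

open Finset

/-- The unit cube of dimension `d` has a tiling by exactly `n` cubes, each of side length `s₁` or
`s₂`, where `0 < s₁ < s₂ < 1` and `s₂ ≤ (1 + η) s₁`. -/
def TwoSizes (d : ℕ) (η : ℝ) (n : ℕ) : Prop :=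
  ∃ (c : Fin n → Fin d → ℝ) (s : Fin n → ℝ) (s₁ s₂ : ℝ), 0 < s₁ ∧ s₁ < s₂ ∧ s₂ < 1 ∧
    s₂ ≤ (1 + η) * s₁ ∧ (∀ i, s i = s₁ ∨ s i = s₂) ∧ IsTiling c s

lemma TwoSizes.mono {d n : ℕ} {η θ : ℝ} (h : TwoSizes d η n) (hηθ : η ≤ θ) : TwoSizes d θ n := by
  obtain ⟨c, s, s₁, s₂, h1, h2, h3, h4, h5⟩ := h
  exact ⟨c, s, s₁, s₂, h1, h2, h3, h4.trans (by nlinarith), h5⟩

lemma two_sizes_of {d a n : ℕ} (hd : 0 < d) (ha : 0 < a)
    (hn : (a * ((a + 1) * f d a + f d a + 2)) ^ d ≤ n)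
    (ht : ∃ t : ℕ, t ^ d ≡ n [MOD f d a]) : TwoSizes d (1 / a) n := by
  obtain ⟨M, y, hM, hy, hny⟩ := exists_My (a := a) (b := a + 1) (n := n) hd ha (Nat.lt_succ_self a)
    (by simp) hn ht
  obtain ⟨c, s, hs, hT⟩ := exists_tiling (d := d) hM ha (Nat.succ_pos a) hy hny
  have hM2 : (2 : ℝ) ≤ M := by exact_mod_cast hM
  have hM0 : (0 : ℝ) < M := by linarith
  have ha' : (1 : ℝ) ≤ a := by exact_mod_cast ha
  have ha0 : (0 : ℝ) < a := by linarith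
  refine ⟨c, s, 1 / M / (a + 1 : ℕ), 1 / M / a, by positivity, ?_, ?_, ?_, hs, hT⟩
  · push_cast
    exact div_lt_div_of_pos_left (by positivity) ha0 (by linarith)
  · rw [div_div, div_lt_one (by positivity)]
    nlinarith
  · push_cast
    apply le_of_eq
    field_simp

lemma nonzero_root {d m n : ℕ} (h : A d m n ≠ 0) : ∃ t : ℕ, t ^ d ≡ n [MOD m] := by
  unfold A at h
  obtain ⟨x, -, hx⟩ := Finset.exists_ne_zero_of_sum_ne_zero h
  by_cases h1 : n ≡ x ^ d [MOD m]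
  · exact ⟨x, h1.symm⟩
  · rw [if_neg h1] at hx; exact absurd rfl hx

lemma threshold {d a Q : ℕ} (ha : 0 < a) (haQ : 2 * a ≤ Q) :
    (a * ((a + 1) * f d a + f d a + 2)) ^ d ≤ Q ^ ((d + 4) * d) := by
  rw [pow_mul]
  refine Nat.pow_le_pow_left ?_ d
  have hQ : 2 ≤ Q := by omega
  have h1 : f d a ≤ Q ^ d := (f_le d a).trans (Nat.pow_le_pow_left (by omega) d)
  have h2 : (a + 1) * f d a ≤ Q * Q ^ d := Nat.mul_le_mul (by omega) h1
  have h3 : 1 ≤ Q ^ d := Nat.one_le_pow _ _ (by omega)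
  have h4 : f d a ≤ Q * Q ^ d := h1.trans (Nat.le_mul_of_pos_left _ (by omega))
  have h5 : 2 ≤ Q * Q ^ d := by nlinarith
  have h6 : (a + 1) * f d a + f d a + 2 ≤ 4 * (Q * Q ^ d) := by omega
  have h7 : 4 ≤ Q * Q := by nlinarith
  calc a * ((a + 1) * f d a + f d a + 2) ≤ Q * (4 * (Q * Q ^ d)) :=
        Nat.mul_le_mul (by omega) h6
    _ ≤ Q * ((Q * Q) * (Q * Q ^ d)) := Nat.mul_le_mul_left _ (Nat.mul_le_mul_right _ h7)
    _ = Q ^ (d + 4) := by ring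

open Classical in
lemma main_I {d z W : ℕ} (hd : 0 < d) (hz : (2 * d) ^ (8 * d) ≤ z) (hW0 : 0 < W)
    (hW : ∀ p : ℕ, p.Prime → p ≤ z → p ∣ W) (I : ℕ) (hI : 1 ≤ I) (N : ℕ) :
    (((range N).filter fun n => ¬ TwoSizes d (1 / ((2 ^ 2 ^ I : ℕ) : ℝ)) n).card : ℝ) ≤
      N * ((12 / √((2 ^ 2 ^ I : ℕ) : ℝ) + 2 * (√(2 * W * ((2 ^ (K0 d * 2 ^ I) : ℕ) : ℝ)) /
        ((2 ^ (K0 d * 2 ^ I) : ℕ) : ℝ))) / (1 / (2 : ℝ) ^ (24 * d * I + 3)) ^ 2) +
      3 * ((2 * (W : ℝ) * ((2 ^ (K0 d * 2 ^ I) : ℕ) : ℝ)) ^ d) ^ 2 +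
      (2 * (W : ℝ) * ((2 ^ (K0 d * 2 ^ I) : ℕ) : ℝ)) ^ ((d + 4) * d) := by
  set k : ℕ := 2 ^ (K0 d * 2 ^ I) with hk
  set y : ℕ := 2 ^ 2 ^ I with hy
  have hG : GSet d W z I ⊆ range k := (Finset.filter_subset _ _).trans (Finset.filter_subset _ _)
  have hk0 : 0 < k := by positivity
  have hy1 : 1 ≤ y := Nat.one_le_two_pow
  have HG : ∀ i ∈ GSet d W z I, Rough y (f d (W * (i + 1))) := fun i hi =>
    rough_RSet hd hW (Finset.mem_filter.1 hi).1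
  have h1 := finite_set (N := N) hd hz hW0 hW hy1 hG hk0 HG (δ := 1 / (2 : ℝ) ^ (24 * d * I + 3))
    (by positivity) (card_GSet hd hz I hI)
  have h2 : ((range N).filter fun n => ¬ TwoSizes d (1 / (y : ℝ)) n) ⊆
      ((range N).filter fun n => ∀ j ∈ GSet d W z I, A d (f d (W * (j + 1))) n = 0) ∪
        range ((2 * W * k) ^ ((d + 4) * d)) := by
    intro n hn
    obtain ⟨hn1, hn2⟩ := Finset.mem_filter.1 hn
    by_contra hcon
    rw [Finset.mem_union, not_or, Finset.mem_filter] at hcon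
    obtain ⟨h3, h4⟩ := hcon
    rw [Finset.mem_range, not_lt] at h4
    push Not at h3
    obtain ⟨j, hj, hj0⟩ := h3 hn1
    apply hn2
    have hjk : j < k := Finset.mem_range.1 (hG hj)
    have hyj : y ≤ j := (Finset.mem_filter.1 hj).2
    have ha0 : 0 < W * (j + 1) := by positivity
    have ha1 : 2 * (W * (j + 1)) ≤ 2 * W * k := by
      rw [mul_assoc]
      exact Nat.mul_le_mul_left _ (Nat.mul_le_mul_left _ hjk)
    have h5 := two_sizes_of hd ha0 ((threshold ha0 ha1).trans h4) (nonzero_root hj0)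
    refine h5.mono ?_
    have hyR : (0 : ℝ) < y := by exact_mod_cast hy1
    refine one_div_le_one_div_of_le hyR ?_
    have h6 : y ≤ W * (j + 1) := hyj.trans (by nlinarith)
    exact_mod_cast h6
  have h3 := Finset.card_le_card h2
  have h4 := h3.trans (Finset.card_union_le _ _)
  rw [Finset.card_range] at h4
  have h5 : (((range N).filter fun n => ¬ TwoSizes d (1 / (y : ℝ)) n).card : ℝ) ≤
      (((range N).filter fun n => ∀ j ∈ GSet d W z I, A d (f d (W * (j + 1))) n = 0).card : ℝ) +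
      (2 * (W : ℝ) * (k : ℝ)) ^ ((d + 4) * d) := by exact_mod_cast h4
  linarith

/-- The exponent for the lower bound of `N`. -/
def E0 (d : ℕ) : ℕ := (d + 4) * d + 2

/-- Another exponent. -/
def R0 (d : ℕ) : ℕ := E0 d * K0 d + 1

open Classical in
lemma bound_I {d z W : ℕ} (hd : 0 < d) (hz : (2 * d) ^ (8 * d) ≤ z) (hW0 : 0 < W)
    (hW : ∀ p : ℕ, p.Prime → p ≤ z → p ∣ W) (I : ℕ) (hI : 2 ≤ I)
    (hI2 : 48 * d * I + 6 ≤ 2 ^ (I - 2)) (N : ℕ)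
    (hN : (2 * W) ^ E0 d * 2 ^ (R0 d * 2 ^ I) ≤ N) :
    (((range N).filter fun n => ¬ TwoSizes d (1 / ((2 ^ 2 ^ I : ℕ) : ℝ)) n).card : ℝ) ≤
      (13 + 4 * (W : ℝ)) * (N / (2 : ℝ) ^ 2 ^ (I - 2)) := by
  have h1 := main_I hd hz hW0 hW I (by omega) N
  set t : ℝ := (2 : ℝ) ^ 2 ^ (I - 2) with ht
  have ht1 : 1 ≤ t := one_le_pow₀ (by norm_num)
  have ht0 : 0 < t := by linarith
  have hW1 : (1 : ℝ) ≤ W := by exact_mod_cast hW0
  have hN0 : (0 : ℝ) ≤ N := Nat.cast_nonneg _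
  have e1 : ((2 ^ 2 ^ I : ℕ) : ℝ) = t ^ 4 := by
    push_cast
    rw [ht, ← pow_mul]
    congr 1
    have : 2 ^ I = 2 ^ (I - 2) * 4 := by
      have : I = (I - 2) + 2 := by omega
      conv_lhs => rw [this, pow_add]
      norm_num
    exact this
  have hy : √((2 ^ 2 ^ I : ℕ) : ℝ) = t ^ 2 := by
    rw [e1, show t ^ 4 = (t ^ 2) ^ 2 by ring, Real.sqrt_sq (by positivity)]
  set k : ℝ := ((2 ^ (K0 d * 2 ^ I) : ℕ) : ℝ) with hk
  have hk0 : 0 < k := by rw [hk]; positivity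
  have hkt : t ^ 4 ≤ k := by
    rw [← e1, hk]
    have : 2 ^ 2 ^ I ≤ 2 ^ (K0 d * 2 ^ I) := by
      refine Nat.pow_le_pow_right (by norm_num) ?_
      have : 1 ≤ K0 d := by unfold K0; omega
      nlinarith [Nat.one_le_two_pow (n := I)]
    exact_mod_cast this
  have h2 : √(2 * W * k) / k ≤ 2 * W / t ^ 2 := by
    rw [div_le_div_iff₀ hk0 (by positivity)]
    have h3 : √(2 * W * k) ≤ 2 * W * k / t ^ 2 := by
      rw [Real.sqrt_le_iff]
      refine ⟨by positivity, ?_⟩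
      rw [div_pow, le_div_iff₀ (by positivity)]
      have h4 : (t ^ 2) ^ 2 = t ^ 4 := by ring
      rw [h4]
      have h5 : t ^ 4 ≤ 2 * W * k := by nlinarith
      have h6 : 0 ≤ 2 * (W : ℝ) * k := by positivity
      nlinarith
    calc √(2 * W * k) * t ^ 2 ≤ 2 * W * k / t ^ 2 * t ^ 2 := by gcongr
      _ = 2 * W * k := by field_simp
  have h3 : (1 / (2 : ℝ) ^ (24 * d * I + 3)) ^ 2 = 1 / (2 : ℝ) ^ (48 * d * I + 6) := by
    rw [div_pow, one_pow, ← pow_mul]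
    congr 2
    ring
  have h4 : (2 : ℝ) ^ (48 * d * I + 6) ≤ t := pow_le_pow_right₀ (by norm_num) hI2
  have h5 : (12 / t ^ 2 + 2 * (√(2 * W * k) / k)) / (1 / (2 : ℝ) ^ (24 * d * I + 3)) ^ 2 ≤
      (12 + 4 * W) / t := by
    rw [h3, div_div_eq_mul_div, div_one]
    calc (12 / t ^ 2 + 2 * (√(2 * W * k) / k)) * (2 : ℝ) ^ (48 * d * I + 6)
        ≤ (12 / t ^ 2 + 2 * (2 * W / t ^ 2)) * t := by gcongr
      _ = (12 + 4 * W) / t := by field_simp; ring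
  have h6 : 3 * ((2 * (W : ℝ) * k) ^ d) ^ 2 + (2 * (W : ℝ) * k) ^ ((d + 4) * d) ≤ N / t := by
    set Q := 2 * (W : ℝ) * k with hQ
    have hk1 : 1 ≤ k := le_trans (one_le_pow₀ ht1) hkt
    have hQ2 : 2 ≤ Q := by nlinarith
    have h7 : (Q ^ d) ^ 2 ≤ Q ^ ((d + 4) * d) := by
      rw [← pow_mul]
      exact pow_le_pow_right₀ (by linarith) (by nlinarith)
    have h8 : 4 * Q ^ ((d + 4) * d) ≤ Q ^ E0 d := by
      unfold E0
      rw [pow_add _ _ 2]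
      have h8a : 0 ≤ Q ^ ((d + 4) * d) := by positivity
      have h8b : 4 ≤ Q ^ 2 := by nlinarith
      calc 4 * Q ^ ((d + 4) * d) = Q ^ ((d + 4) * d) * 4 := by ring
        _ ≤ Q ^ ((d + 4) * d) * Q ^ 2 := mul_le_mul_of_nonneg_left h8b h8a
    have h9 : Q ^ E0 d * (2 : ℝ) ^ 2 ^ I ≤ N := by
      have e2 : Q ^ E0 d * (2 : ℝ) ^ 2 ^ I = (((2 * W) ^ E0 d * 2 ^ (R0 d * 2 ^ I) : ℕ) : ℝ) := by
        rw [hQ, hk]
        push_cast
        rw [mul_pow (2 * (W : ℝ)), ← pow_mul, mul_assoc, ← pow_add]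
        congr 2
        unfold R0
        ring
      rw [e2]
      exact_mod_cast hN
    have h10 : Q ^ E0 d ≤ N / t := by
      rw [le_div_iff₀ ht0]
      refine le_trans ?_ h9
      refine mul_le_mul_of_nonneg_left ?_ (by positivity)
      exact pow_le_pow_right₀ (by norm_num) (Nat.pow_le_pow_right (by norm_num) (by omega))
    linarith
  rw [hy] at h1
  calc _ ≤ N * ((12 + 4 * (W : ℝ)) / t) + N / t := by
        have h11 := mul_le_mul_of_nonneg_left h5 hN0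
        linarith
    _ = (13 + 4 * (W : ℝ)) * (N / t) := by ring

end Pool.Agent.H172.TC
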