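import Mathlib
import Pool.Agent.H172.TC.Main

/-!
# The power saving
-/

set_option autoImplicit false

namespace Pool.Agent.H172.TC

open Finset

lemma sq_le_pow (n : ℕ) : (n + 1) ^ 2 ≤ 4 * 2 ^ n := by
  rcases Nat.lt_or_ge n 2 with h | h
  · interval_cases n <;> norm_num
  · induction n, h using Nat.le_induction with
    | base => norm_num
    | succ n hn ih =>
      have h1 : 4 * 2 ^ (n + 1) = 2 * (4 * 2 ^ n) := by ring
      rw [h1]
      have h2 : (n + 1 + 1) ^ 2 ≤ 2 * (n + 1) ^ 2 := by nlinarith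
      omega

lemma linear_le_pow (A B I : ℕ) (hI : 4 * A + 4 * B + 8 ≤ I) : A * I + B ≤ 2 ^ (I - 2) := by
  obtain ⟨n, rfl⟩ : ∃ n, I = n + 2 := ⟨I - 2, by omega⟩
  have h1 := sq_le_pow n
  have h2 : n + 2 - 2 = n := by omega
  rw [h2]
  have h3 : 4 * (A * (n + 2) + B) ≤ (n + 1) ^ 2 := by nlinarith
  omega

/-- The lower end of the range for `I`. -/
def Lam (d W I : ℕ) : ℕ := (2 * W) ^ E0 d * 2 ^ (R0 d * 2 ^ I)

lemma lt_Lam {d W : ℕ} (hW0 : 0 < W) (I : ℕ) : I < Lam d W I := by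
  have h1 : I < 2 ^ I := Nat.lt_two_pow_self
  have h2 : 2 ^ I < 2 ^ 2 ^ I := Nat.lt_two_pow_self
  have h3 : 2 ^ 2 ^ I ≤ 2 ^ (R0 d * 2 ^ I) := by
    refine Nat.pow_le_pow_right (by norm_num) (Nat.le_mul_of_pos_left _ ?_)
    unfold R0; omega
  have h4 : 1 ≤ (2 * W) ^ E0 d := Nat.one_le_pow _ _ (by omega)
  unfold Lam
  calc I < 2 ^ (R0 d * 2 ^ I) := by omega
    _ ≤ _ := Nat.le_mul_of_pos_left _ (by omega)

/-- The choice of `I`. -/
lemma choose_I {d W : ℕ} (hW0 : 0 < W) (I₁ N : ℕ) (hN : Lam d W I₁ ≤ N) :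
    ∃ I, I₁ ≤ I ∧ Lam d W I ≤ N ∧ N < Lam d W (I + 1) := by
  have h1 : I₁ ≤ N := (lt_Lam hW0 I₁).le.trans hN
  refine ⟨Nat.findGreatest (fun I => Lam d W I ≤ N) N, Nat.le_findGreatest h1 hN,
    Nat.findGreatest_spec (P := fun I => Lam d W I ≤ N) h1 hN, ?_⟩
  by_contra hcon
  push Not at hcon
  have h2 : Nat.findGreatest (fun I => Lam d W I ≤ N) N + 1 ≤ N :=
    (lt_Lam hW0 _).le.trans hcon
  have := Nat.le_findGreatest (P := fun I => Lam d W I ≤ N) h2 hcon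
  omega

open Classical in
/-- **Two sizes of cubes suffice for all but `O(N ^ (1 - c))` numbers `n ≤ N`**, with ratio at
most `1 + n ^ (-c)`. -/
theorem power_saving (d : ℕ) (hd : 0 < d) : ∃ c : ℝ, 0 < c ∧ c ≤ 1 ∧ ∃ C : ℝ, ∀ N : ℕ, 1 ≤ N →
    (((Icc 1 N).filter fun n : ℕ => ¬ TwoSizes d ((n : ℝ) ^ (-c)) n).card : ℝ) ≤
      C * (N : ℝ) ^ (1 - c) := by
  set z := (2 * d) ^ (8 * d) with hz
  set W := z.factorial with hWdef
  have hW0 : 0 < W := Nat.factorial_pos z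
  have hW : ∀ p : ℕ, p.Prime → p ≤ z → p ∣ W := fun p hp hpz => (hp.dvd_factorial).2 hpz
  set C0 := (2 * W) ^ E0 d with hC0
  set I₁ := 4 * (48 * d) + 4 * (6 + C0) + 8 with hI₁
  set r := 8 * R0 d + 1 with hr
  have hr0 : (0 : ℝ) < r := by rw [hr]; positivity
  have hr1 : (1 : ℝ) ≤ r := by rw [hr]; push_cast; linarith [Nat.cast_nonneg (α := ℝ) (R0 d)]
  refine ⟨1 / r, by positivity, by rw [div_le_one hr0]; exact hr1,
    max (Lam d W I₁) (2 * (13 + 4 * W)), fun N hN => ?_⟩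
  have hNR : (1 : ℝ) ≤ N := by exact_mod_cast hN
  have hN0 : (0 : ℝ) < N := by linarith
  have hpow1 : (1 : ℝ) ≤ (N : ℝ) ^ (1 - 1 / (r : ℝ)) := by
    refine Real.one_le_rpow hNR ?_
    rw [sub_nonneg, div_le_one hr0]; exact hr1
  rcases Nat.lt_or_ge (N + 1) (Lam d W I₁) with hsmall | hlarge
  · have h1 : (((Icc 1 N).filter fun n : ℕ => ¬ TwoSizes d ((n : ℝ) ^ (-(1 / (r : ℝ)))) n).card : ℝ) ≤
        Lam d W I₁ := by
      have h2 : ((Icc 1 N).filter fun n : ℕ => ¬ TwoSizes d ((n : ℝ) ^ (-(1 / (r : ℝ)))) n).card ≤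
          Lam d W I₁ := by
        refine (Finset.card_le_card (Finset.filter_subset _ _)).trans ?_
        rw [Nat.card_Icc]
        omega
      exact_mod_cast h2
    calc _ ≤ (Lam d W I₁ : ℝ) := h1
      _ ≤ max (Lam d W I₁ : ℝ) (2 * (13 + 4 * W)) := le_max_left _ _
      _ ≤ max (Lam d W I₁ : ℝ) (2 * (13 + 4 * W)) * (N : ℝ) ^ (1 - 1 / (r : ℝ)) :=
          le_mul_of_one_le_right (le_max_of_le_right (by positivity)) hpow1
  · obtain ⟨I, hI₁I, hI, hI'⟩ := choose_I hW0 I₁ (N + 1) hlarge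
    have hlin := linear_le_pow (48 * d) (6 + C0) I (hI₁I)
    have hI2 : 48 * d * I + 6 ≤ 2 ^ (I - 2) := by omega
    have h1 := bound_I hd le_rfl hW0 hW I (by omega) hI2 (N + 1) hI
    set t : ℝ := (2 : ℝ) ^ 2 ^ (I - 2) with ht
    have ht1 : 1 ≤ t := one_le_pow₀ (by norm_num)
    have ht0 : 0 < t := by linarith
    -- lower bound for `t`
    have hC0t : (C0 : ℝ) ≤ t := by
      have h2 : C0 ≤ 2 ^ 2 ^ (I - 2) := by
        calc C0 ≤ 2 ^ (I - 2) := by omega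
          _ ≤ 2 ^ 2 ^ (I - 2) := Nat.lt_two_pow_self.le
      rw [ht]
      exact_mod_cast h2
    have hpow : 2 ^ (I + 1) = 8 * 2 ^ (I - 2) := by
      have h3 : I + 1 = (I - 2) + 3 := by omega
      rw [h3, pow_add]; norm_num; ring
    have hNt : (N : ℝ) ≤ t ^ r := by
      have h2 : N ≤ C0 * 2 ^ (R0 d * 2 ^ (I + 1)) := by
        have : N + 1 < C0 * 2 ^ (R0 d * 2 ^ (I + 1)) := hI'
        omega
      calc (N : ℝ) ≤ ((C0 * 2 ^ (R0 d * 2 ^ (I + 1)) : ℕ) : ℝ) := by exact_mod_cast h2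
        _ = C0 * t ^ (8 * R0 d) := by
            push_cast
            rw [ht, ← pow_mul, hpow]
            congr 2
            ring
        _ ≤ t * t ^ (8 * R0 d) := by gcongr
        _ = t ^ r := by rw [hr, pow_succ]; ring
    have hNc : (N : ℝ) ^ (1 / (r : ℝ)) ≤ t := by
      calc (N : ℝ) ^ (1 / (r : ℝ)) ≤ (t ^ r) ^ (1 / (r : ℝ)) :=
            Real.rpow_le_rpow hN0.le hNt (by positivity)
        _ = t := by
            rw [← Real.rpow_natCast t r, ← Real.rpow_mul ht0.le, mul_one_div_cancel hr0.ne',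
              Real.rpow_one]
    have hNc0 : 0 < (N : ℝ) ^ (1 / (r : ℝ)) := Real.rpow_pos_of_pos hN0 _
    have h2 : ((Icc 1 N).filter fun n : ℕ => ¬ TwoSizes d ((n : ℝ) ^ (-(1 / (r : ℝ)))) n) ⊆
        ((range (N + 1)).filter fun n => ¬ TwoSizes d (1 / ((2 ^ 2 ^ I : ℕ) : ℝ)) n) := by
      intro n hn
      obtain ⟨hn1, hn2⟩ := Finset.mem_filter.1 hn
      obtain ⟨hn3, hn4⟩ := Finset.mem_Icc.1 hn1
      refine Finset.mem_filter.2 ⟨Finset.mem_range.2 (by omega), fun h3 => hn2 (h3.mono ?_)⟩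
      have hn0 : (0 : ℝ) < n := by exact_mod_cast hn3
      have h4 : (n : ℝ) ^ (1 / (r : ℝ)) ≤ t := by
        refine le_trans (Real.rpow_le_rpow hn0.le (by exact_mod_cast hn4) (by positivity)) hNc
      rw [Real.rpow_neg hn0.le, ← one_div]
      refine one_div_le_one_div_of_le (Real.rpow_pos_of_pos hn0 _) (h4.trans ?_)
      rw [ht]
      push_cast
      exact pow_le_pow_right₀ (by norm_num) (Nat.pow_le_pow_right (by norm_num) (by omega))
    have h3 : (((Icc 1 N).filter fun n : ℕ => ¬ TwoSizes d ((n : ℝ) ^ (-(1 / (r : ℝ)))) n).card : ℝ) ≤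
        (((range (N + 1)).filter fun n =>
          ¬ TwoSizes d (1 / ((2 ^ 2 ^ I : ℕ) : ℝ)) n).card : ℝ) := by
      exact_mod_cast Finset.card_le_card h2
    calc _ ≤ (13 + 4 * (W : ℝ)) * (((N + 1 : ℕ) : ℝ) / t) := h3.trans h1
      _ ≤ (13 + 4 * (W : ℝ)) * (2 * N / (N : ℝ) ^ (1 / (r : ℝ))) := by
          refine mul_le_mul_of_nonneg_left ?_ (by positivity)
          refine div_le_div₀ (by positivity) ?_ hNc0 hNc
          push_cast; linarith
      _ = 2 * (13 + 4 * (W : ℝ)) * (N : ℝ) ^ (1 - 1 / (r : ℝ)) := by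
          rw [Real.rpow_sub hN0, Real.rpow_one]; ring
      _ ≤ _ := mul_le_mul_of_nonneg_right (le_max_right _ _) (by positivity)

end Pool.Agent.H172.TC
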