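import Mathlib
import Pool.Agent.H172.TC.Moment

/-!
# The variance of the number of roots
-/

set_option autoImplicit false

namespace Pool.Agent.H172.TC

open Finset

/-- **Variance** of the number of `d`-th roots. -/
lemma variance_set {d J N M : ℕ} (G : Finset ℕ) (hJ : G.card = J) (m : ℕ → ℕ)
    (hm : ∀ j, 0 < m j) (hM : ∀ j ∈ G, m j ≤ M) :
    ∑ n ∈ range N, ((∑ i ∈ G, (A d (m i) n : ℝ)) - J) ^ 2 ≤
      N * ((∑ i ∈ G, ∑ j ∈ G, ((nroots d ((m i).gcd (m j)) : ℝ) - 1)) +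
        J * ∑ i ∈ G, (1 - ((m i).totient : ℝ) / m i)) + 3 * ((J : ℝ) * M) ^ 2 := by
  set R : ℕ → ℝ := fun n => ∑ i ∈ G, (A d (m i) n : ℝ) with hR
  have h2 : ∑ n ∈ range N, (R n - J) ^ 2 =
      ∑ n ∈ range N, R n * R n - 2 * J * ∑ n ∈ range N, R n + N * (J : ℝ) ^ 2 := by
    rw [Finset.mul_sum, ← Finset.sum_sub_distrib]
    have h3 : (N : ℝ) * (J : ℝ) ^ 2 = ∑ n ∈ range N, (J : ℝ) ^ 2 := by simp
    rw [h3, ← Finset.sum_add_distrib]
    refine Finset.sum_congr rfl fun n _ => by ring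
  have h3 : ∑ i ∈ G, ((m i).totient : ℝ) * ((N : ℝ) / m i - 1) ≤ ∑ n ∈ range N, R n := by
    rw [hR, Finset.sum_comm]
    exact Finset.sum_le_sum fun i _ => sum_A_ge (hm i)
  have h4 : ∑ n ∈ range N, R n * R n ≤ ∑ i ∈ G, ∑ j ∈ G,
      (N * (((m i).totient : ℝ) / m i * nroots d ((m i).gcd (m j))) + m i * m j) := by
    have h5 : ∑ n ∈ range N, R n * R n = ∑ i ∈ G, ∑ j ∈ G, ∑ n ∈ range N,
        ((A d (m i) n : ℝ) * A d (m j) n) := by
      simp only [hR, Finset.sum_mul_sum]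
      rw [Finset.sum_comm]
      refine Finset.sum_congr rfl fun i _ => ?_
      rw [Finset.sum_comm]
    rw [h5]
    exact Finset.sum_le_sum fun i _ => Finset.sum_le_sum fun j _ => sum_AA_le (hm i) (hm j)
  have h6 : ∑ i ∈ G, ∑ j ∈ G,
      (N * (((m i).totient : ℝ) / m i * nroots d ((m i).gcd (m j))) + m i * m j) ≤
      N * (∑ i ∈ G, ∑ j ∈ G, ((nroots d ((m i).gcd (m j)) : ℝ) - 1)) +
      N * (J * ∑ i ∈ G, ((m i).totient : ℝ) / m i) + ((J : ℝ) * M) ^ 2 := by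
    have h7 : ∀ i ∈ G, ∀ j ∈ G,
        (N * (((m i).totient : ℝ) / m i * nroots d ((m i).gcd (m j))) + m i * m j) ≤
        N * ((nroots d ((m i).gcd (m j)) : ℝ) - 1) + N * (((m i).totient : ℝ) / m i) +
          (M : ℝ) ^ 2 := by
      intro i hi j hj
      have hi' : (m i : ℝ) ≤ M := by exact_mod_cast hM i hi
      have hj' : (m j : ℝ) ≤ M := by exact_mod_cast hM j hj
      have h8 : (m i : ℝ) * m j ≤ (M : ℝ) ^ 2 := by
        rw [sq]
        exact mul_le_mul hi' hj' (Nat.cast_nonneg _) (Nat.cast_nonneg _)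
      have h9 : ((m i).totient : ℝ) / m i ≤ 1 := by
        rw [div_le_one (by exact_mod_cast hm i)]
        exact_mod_cast Nat.totient_le _
      have h10 : (1 : ℝ) ≤ nroots d ((m i).gcd (m j)) := by
        exact_mod_cast nroots_pos (Nat.gcd_pos_of_pos_left _ (hm i))
      have h11 : ((m i).totient : ℝ) / m i * nroots d ((m i).gcd (m j)) ≤
          ((nroots d ((m i).gcd (m j)) : ℝ) - 1) + ((m i).totient : ℝ) / m i := by
        nlinarith
      have h12 := mul_le_mul_of_nonneg_left h11 (Nat.cast_nonneg (α := ℝ) N)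
      linarith
    refine (Finset.sum_le_sum fun i hi => Finset.sum_le_sum (h7 i hi)).trans (le_of_eq ?_)
    simp only [Finset.sum_add_distrib, Finset.sum_const, hJ, nsmul_eq_mul,
      ← Finset.mul_sum]
    ring
  have h13 : ∑ i ∈ G, ((m i).totient : ℝ) * ((N : ℝ) / m i - 1) ≥
      N * (∑ i ∈ G, ((m i).totient : ℝ) / m i) - J * M := by
    have h14 : ∀ i ∈ G, N * (((m i).totient : ℝ) / m i) - M ≤
        ((m i).totient : ℝ) * ((N : ℝ) / m i - 1) := by
      intro i hi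
      have h15 : ((m i).totient : ℝ) ≤ M := by
        exact_mod_cast (Nat.totient_le _).trans (hM i hi)
      have h16 : ((m i).totient : ℝ) * ((N : ℝ) / m i - 1) =
          N * (((m i).totient : ℝ) / m i) - (m i).totient := by ring
      rw [h16]; linarith
    refine le_trans (le_of_eq ?_) (Finset.sum_le_sum h14)
    simp only [Finset.sum_sub_distrib, Finset.sum_const, hJ, nsmul_eq_mul,
      ← Finset.mul_sum]
  have h17 : ∑ i ∈ G, (1 - ((m i).totient : ℝ) / m i) =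
      J - ∑ i ∈ G, ((m i).totient : ℝ) / m i := by
    rw [Finset.sum_sub_distrib, Finset.sum_const, hJ]; simp
  rw [h17]
  set Φ := ∑ i ∈ G, ((m i).totient : ℝ) / m i
  set Sg := ∑ i ∈ G, ∑ j ∈ G, ((nroots d ((m i).gcd (m j)) : ℝ) - 1)
  have hJ0 : (0 : ℝ) ≤ J := Nat.cast_nonneg _
  have hM0 : (0 : ℝ) ≤ M := Nat.cast_nonneg _
  have h18 : N * Φ - J * M ≤ ∑ n ∈ range N, R n := h13.le.trans h3
  have h19 := mul_le_mul_of_nonneg_left h18 (by positivity : (0 : ℝ) ≤ 2 * J)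
  have h20 : 2 * (J : ℝ) * (J * M) ≤ 2 * ((J : ℝ) * M) ^ 2 := by
    rcases Nat.eq_zero_or_pos M with h0 | h0
    · rw [h0]; simp
    · have : (1 : ℝ) ≤ M := by exact_mod_cast h0
      have h21 : (J : ℝ) * J * M ≤ J * J * (M * M) := by
        apply mul_le_mul_of_nonneg_left _ (by positivity)
        nlinarith
      nlinarith
  calc ∑ n ∈ range N, (R n - J) ^ 2
      = ∑ n ∈ range N, R n * R n - 2 * J * ∑ n ∈ range N, R n + N * (J : ℝ) ^ 2 := h2
    _ ≤ (N * Sg + N * (J * Φ) + ((J : ℝ) * M) ^ 2) - 2 * J * (N * Φ - J * M) + N * (J : ℝ) ^ 2 := by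
        linarith [h4.trans h6]
    _ ≤ N * (Sg + J * (J - Φ)) + 3 * ((J : ℝ) * M) ^ 2 := by nlinarith

end Pool.Agent.H172.TC
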