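import Mathlib
import Pool.Agent.H172.TC.Final
import Pool.Agent.H172.TC.Variance

/-!
# Many ratios for almost all numbers
-/

set_option autoImplicit false

namespace Pool.Agent.H172.TC

open Finset

/-- The unit cube of dimension `d` has a tiling by exactly `n` cubes whose side lengths are
exactly the two numbers `r` and `(1 + 1 / a) r`, for some `r`. -/
def TilesRatio (d a n : ℕ) : Prop :=
  ∃ (c : Fin n → Fin d → ℝ) (s : Fin n → ℝ) (r : ℝ), IsTiling c s ∧
    Set.range s = {r, (1 + 1 / (a : ℝ)) * r}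

section Both

variable {d : ℕ}

/-- There is a tiling by `n = y b ^ d + (M ^ d - y) a ^ d` cubes in which both sizes occur. -/
lemma exists_tiling_both {M y a b : ℕ} (hM : 2 ≤ M) (ha : 0 < a) (hb : 0 < b) (hy0 : 0 < y)
    (hy : y < M ^ d) {n : ℕ} (hn : n = y * b ^ d + (M ^ d - y) * a ^ d) :
    ∃ (c : Fin n → Fin d → ℝ) (s : Fin n → ℝ),
      Set.range s = {1 / (M : ℝ) / b, 1 / (M : ℝ) / a} ∧ IsTiling c s := by
  classical
  have hcard : Fintype.card (Fin d → Fin M) = M ^ d := by simp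
  let e : (Fin d → Fin M) ≃ Fin (M ^ d) := Fintype.equivFinOfCardEq hcard
  let k : (Fin d → Fin M) → ℕ := fun g => if (e g : ℕ) < y then b else a
  have hk : ∀ g, 0 < k g := by
    intro g
    by_cases h : (e g : ℕ) < y <;> simp [k, h, ha, hb]
  have ht := tiling_blocks hM k hk
  have hcard2 : Fintype.card (Σ g : Fin d → Fin M, (Fin d → Fin (k g))) = n := by
    rw [Fintype.card_sigma]
    simp only [Fintype.card_fun, Fintype.card_fin]
    rw [hn, ← sum_blocks (M ^ d) y a b hy.le]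
    exact Fintype.sum_equiv e _ _ (fun g => rfl)
  let φ := (Fintype.equivFinOfCardEq hcard2).symm
  refine ⟨_, fun i => 1 / (M : ℝ) / (k (φ i).1 : ℕ), ?_, ⟨fun i => ht.1 (φ i), ?_,
    fun i j hij => ht.2.2 (φ i) (φ j) (fun h => hij (φ.injective h))⟩⟩
  · apply Set.eq_of_subset_of_subset
    · rintro _ ⟨i, rfl⟩
      by_cases h : (e (φ i).1 : ℕ) < y
      · left; simp only [k, if_pos h]
      · right; simp only [k, if_neg h]; rfl
    · intro u hu
      rcases hu with hu | hu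
      · let g : Fin d → Fin M := e.symm ⟨0, by omega⟩
        have hg : (e g : ℕ) < y := by simp [g, hy0]
        refine ⟨φ.symm ⟨g, fun _ => ⟨0, hk g⟩⟩, ?_⟩
        rw [hu]
        simp only [Equiv.apply_symm_apply, k, if_pos hg]
      · let g : Fin d → Fin M := e.symm ⟨y, hy⟩
        have hg : ¬ (e g : ℕ) < y := by simp [g]
        refine ⟨φ.symm ⟨g, fun _ => ⟨0, hk g⟩⟩, ?_⟩
        rw [Set.mem_singleton_iff.1 hu]
        simp only [Equiv.apply_symm_apply, k, if_neg hg]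
  · rw [← ht.2.1]
    exact φ.surjective.iUnion_comp (fun i => Cube (piece (piece 0 1 M i.1) (1 / M) (k i.1) i.2)
      (1 / M / k i.1))

end Both

lemma tilesRatio_of {d a n : ℕ} (hd : 0 < d) (ha : 0 < a)
    (hn : (a * ((a + 1) * f d a + f d a + 2)) ^ d ≤ n)
    (ht : ∃ t : ℕ, t ^ d ≡ n [MOD f d a]) (hp : ∀ t : ℕ, t ^ d ≠ n) : TilesRatio d a n := by
  obtain ⟨M, y, hM, hy, hny⟩ := exists_My (a := a) (b := a + 1) (n := n) hd ha (Nat.lt_succ_self a)
    (by simp) hn ht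
  have hy0 : 0 < y := by
    rcases Nat.eq_zero_or_pos y with h | h
    · exfalso
      refine hp (M * a) ?_
      rw [hny, h, mul_pow]; simp
    · exact h
  have hyM : y < M ^ d := by
    rcases Nat.lt_or_ge y (M ^ d) with h | h
    · exact h
    · exfalso
      refine hp (M * (a + 1)) ?_
      rw [hny, show y = M ^ d by omega, mul_pow]; simp
  obtain ⟨c, s, hs, hT⟩ := exists_tiling_both (d := d) hM ha (Nat.succ_pos a) hy0 hyM hny
  refine ⟨c, s, 1 / M / (a + 1 : ℕ), hT, ?_⟩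
  have hM0 : (0 : ℝ) < M := by
    have : 0 < M := by omega
    exact_mod_cast this
  have ha0 : (0 : ℝ) < a := by exact_mod_cast ha
  rw [hs]
  congr 2
  push_cast
  field_simp

lemma A_le {d m n : ℕ} (hm : 0 < m) : A d m n ≤ nroots d m := by
  have h1 := card_pow_le (d := d) (M := m) (g := m) (c := n) hm dvd_rfl
  rw [Nat.div_self hm, one_mul] at h1
  refine le_trans (le_of_eq ?_) h1
  unfold A U
  rw [← Finset.card_filter, Finset.filter_filter]
  congr 1
  refine Finset.filter_congr fun x _ => ?_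
  exact and_congr_right fun _ => ⟨fun h => h.symm, fun h => h.symm⟩

lemma A_le_X {d z W j n : ℕ} (hd : 0 < d) (hz : (2 * d) ^ (8 * d) ≤ z)
    (hW : ∀ p : ℕ, p.Prime → p ≤ z → p ∣ W) :
    A d (f d (W * (j + 1))) n ≤ X d (f d (W * (j + 1))) := by
  have hm : 0 < f d (W * (j + 1)) := f_pos hd _
  have hz2 : 2 ≤ z := by
    refine le_trans ?_ hz
    calc 2 ≤ 2 * d := by omega
      _ ≤ (2 * d) ^ (8 * d) := Nat.le_self_pow (by omega) _
  refine (A_le hm).trans (((rough_f hd hW j).nroots_le hd hm.ne' hz2).trans ?_)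
  unfold X
  have h1 : 1 ≤ d ^ (f d (W * (j + 1))).primeFactors.card := Nat.one_le_pow _ _ hd
  have h2 : 1 ≤ (f d (W * (j + 1))).divisors.card :=
    Finset.card_pos.2 ⟨1, Nat.one_mem_divisors.2 hm.ne'⟩
  nlinarith

/-- **The finite theorem with many moduli.** -/
theorem finite_many {d z y W k N : ℕ} {G : Finset ℕ} (hd : 0 < d) (hz : (2 * d) ^ (8 * d) ≤ z)
    (hW0 : 0 < W) (hW : ∀ p : ℕ, p.Prime → p ≤ z → p ∣ W) (hy : 1 ≤ y) (hG : G ⊆ range k)
    (hk : 0 < k) (HG : ∀ i ∈ G, Rough y (f d (W * (i + 1)))) {δ : ℝ} (hδ : 0 < δ)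
    (hδG : δ * k ≤ G.card) :
    (((range N).filter fun n => 2 * (∑ i ∈ G, A d (f d (W * (i + 1))) n) ≤ G.card).card : ℝ) ≤
      4 * (N * ((12 / √(y : ℝ) + 2 * (√(2 * W * k) / k)) / δ ^ 2) +
        3 * ((2 * (W : ℝ) * k) ^ d) ^ 2) := by
  have hkR : (0 : ℝ) < k := by exact_mod_cast hk
  have hGk : (G.card : ℝ) ≤ k := by
    have := Finset.card_le_card hG
    rw [Finset.card_range] at this
    exact_mod_cast this
  have hGpos : (0 : ℝ) < G.card := lt_of_lt_of_le (by positivity) hδG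
  have hM : ∀ j ∈ G, f d (W * (j + 1)) ≤ (2 * W * k) ^ d := by
    intro j hj
    refine (f_le d _).trans (Nat.pow_le_pow_left ?_ d)
    have h1 : W * (j + 1) ≤ W * k := Nat.mul_le_mul_left _ (Finset.mem_range.1 (hG hj))
    have h2 : 0 < W * k := by positivity
    have h3 : 2 * W * k = 2 * (W * k) := by ring
    omega
  have h1 := variance_set (d := d) (N := N) G rfl (fun j => f d (W * (j + 1)))
    (fun j => f_pos hd _) hM
  have h2 := pair_sum_set hd hz hW hy hG HG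
  have h3 := totient_sum_set hd hz hW hy hG hk HG
  have hX : ∑ i ∈ G, (X d (f d (W * (i + 1))) : ℝ) ≤ k * √(2 * W * k) := by
    have h4 : ∀ i ∈ G, (X d (f d (W * (i + 1))) : ℝ) ≤ √(2 * W * k) := by
      intro i hi
      refine Real.le_sqrt_of_sq_le ?_
      have h5 := X_sq_le (j := i) hd hz hW hW0
      have h6 : 2 * (W * (i + 1)) ≤ 2 * W * k := by
        rw [mul_assoc]
        exact Nat.mul_le_mul_left _ (Nat.mul_le_mul_left _ (Finset.mem_range.1 (hG hi)))
      exact_mod_cast h5.trans h6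
    refine (Finset.sum_le_card_nsmul _ _ _ h4).trans ?_
    rw [nsmul_eq_mul]
    exact mul_le_mul_of_nonneg_right hGk (Real.sqrt_nonneg _)
  have hN0 : (0 : ℝ) ≤ N := Nat.cast_nonneg _
  set S := (range N).filter fun n => 2 * (∑ i ∈ G, A d (f d (W * (i + 1))) n) ≤ G.card with hS
  have h0 : (S.card : ℝ) * ((G.card : ℝ) ^ 2 / 4) ≤
      ∑ n ∈ range N, ((∑ i ∈ G, (A d (f d (W * (i + 1))) n : ℝ)) - G.card) ^ 2 := by
    rw [← nsmul_eq_mul]
    have h2 : ∀ n ∈ S, (G.card : ℝ) ^ 2 / 4 ≤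
        ((∑ i ∈ G, (A d (f d (W * (i + 1))) n : ℝ)) - G.card) ^ 2 := by
      intro n hn
      have h3 : 2 * (∑ i ∈ G, (A d (f d (W * (i + 1))) n : ℝ)) ≤ G.card := by
        exact_mod_cast (Finset.mem_filter.1 hn).2
      have h4 : 0 ≤ ∑ i ∈ G, (A d (f d (W * (i + 1))) n : ℝ) :=
        Finset.sum_nonneg fun _ _ => Nat.cast_nonneg _
      nlinarith
    refine (Finset.card_nsmul_le_sum S _ _ h2).trans ?_
    exact Finset.sum_le_sum_of_subset_of_nonneg (Finset.filter_subset _ _)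
      (fun n _ _ => sq_nonneg _)
  have h7 : (S.card : ℝ) * ((G.card : ℝ) ^ 2 / 4) ≤
      N * ((12 / √(y : ℝ) + 2 * (√(2 * W * k) / k)) * (k : ℝ) ^ 2) +
      3 * ((2 * (W : ℝ) * k) ^ d) ^ 2 * (G.card : ℝ) ^ 2 := by
    refine h0.trans (h1.trans ?_)
    push_cast
    have e1 : 3 * ((G.card : ℝ) * (2 * (W : ℝ) * k) ^ d) ^ 2 =
        3 * ((2 * (W : ℝ) * k) ^ d) ^ 2 * (G.card : ℝ) ^ 2 := by ring
    rw [e1]
    gcongr ?_ + _
    refine mul_le_mul_of_nonneg_left ?_ hN0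
    have h8 : (12 / √(y : ℝ) + 2 * (√(2 * W * k) / k)) * (k : ℝ) ^ 2 =
        4 * (k : ℝ) ^ 2 * (2 / √(y : ℝ)) + 2 * (k : ℝ) ^ 2 * (2 / √(y : ℝ)) +
          2 * (k * √(2 * W * k)) := by field_simp; ring
    rw [h8]
    linarith
  have hc : 0 ≤ 12 / √(y : ℝ) + 2 * (√(2 * W * k) / k) := by positivity
  have h9 : (12 / √(y : ℝ) + 2 * (√(2 * W * k) / k)) * (k : ℝ) ^ 2 ≤
      (12 / √(y : ℝ) + 2 * (√(2 * W * k) / k)) / δ ^ 2 * (G.card : ℝ) ^ 2 := by
    have h10 : (δ * k) ^ 2 ≤ (G.card : ℝ) ^ 2 := pow_le_pow_left₀ (by positivity) hδG 2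
    have h11 : (12 / √(y : ℝ) + 2 * (√(2 * W * k) / k)) / δ ^ 2 * (δ * k) ^ 2 =
        (12 / √(y : ℝ) + 2 * (√(2 * W * k) / k)) * (k : ℝ) ^ 2 := by
      field_simp
    rw [← h11]
    exact mul_le_mul_of_nonneg_left h10 (by positivity)
  have h12 : (S.card : ℝ) * ((G.card : ℝ) ^ 2 / 4) ≤
      (4 * (N * ((12 / √(y : ℝ) + 2 * (√(2 * W * k) / k)) / δ ^ 2) +
      3 * ((2 * (W : ℝ) * k) ^ d) ^ 2)) * ((G.card : ℝ) ^ 2 / 4) := by
    have h13 := mul_le_mul_of_nonneg_left h9 hN0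
    linarith
  exact le_of_mul_le_mul_right h12 (by positivity)

end Pool.Agent.H172.TC
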