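import Mathlib
import Pool.Agent.H172.TC.Many

/-!
# Many ratios for all but `O(N ^ (1 - c))` numbers
-/

set_option autoImplicit false

namespace Pool.Agent.H172.TC

open Finset

/-- There are at least `q` numbers `a` for which `n` cubes with side lengths of ratio `a : a + 1`
tile the unit cube. -/
def ManyRatios (d : ℕ) (q : ℝ) (n : ℕ) : Prop :=
  ∃ F : Finset ℕ, q ≤ F.card ∧ ∀ a ∈ F, 0 < a ∧ TilesRatio d a n

lemma ManyRatios.mono {d n : ℕ} {q q' : ℝ} (h : ManyRatios d q n) (hq : q' ≤ q) :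
    ManyRatios d q' n := by
  obtain ⟨F, h1, h2⟩ := h
  exact ⟨F, hq.trans h1, h2⟩

open Classical in
lemma card_powers {d N : ℕ} (hd : 2 ≤ d) :
    ((range N).filter fun n => ∃ t : ℕ, t ^ d = n).card ≤ Nat.sqrt N + 1 := by
  calc ((range N).filter fun n => ∃ t : ℕ, t ^ d = n).card
      ≤ ((range (Nat.sqrt N + 1)).image fun t => t ^ d).card := by
        refine Finset.card_le_card fun n hn => ?_
        obtain ⟨hn1, t, ht⟩ := Finset.mem_filter.1 hn
        refine Finset.mem_image.2 ⟨t, Finset.mem_range.2 ?_, ht⟩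
        have h1 : n < N := Finset.mem_range.1 hn1
        rcases Nat.eq_zero_or_pos t with h0 | h0
        · omega
        · have h2 : t ^ 2 ≤ t ^ d := Nat.pow_le_pow_right h0 hd
          have h3 : t * t ≤ N := by
            rw [← sq]; omega
          have h4 : t ≤ Nat.sqrt N := Nat.le_sqrt.2 h3
          omega
    _ ≤ (range (Nat.sqrt N + 1)).card := Finset.card_image_le
    _ = Nat.sqrt N + 1 := Finset.card_range _

open Classical in
lemma bound_many {d z W : ℕ} (hd : 2 ≤ d) (hz : (2 * d) ^ (8 * d) ≤ z) (hW0 : 0 < W)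
    (hW : ∀ p : ℕ, p.Prime → p ≤ z → p ∣ W) (I : ℕ) (hI : 2 ≤ I)
    (hI2 : 48 * d * I + 6 ≤ 2 ^ (I - 2)) (hC : (2 * W) ^ E0 d ≤ 2 ^ 2 ^ (I - 2)) (N : ℕ)
    (hN : (2 * W) ^ E0 d * 2 ^ (R0 d * 2 ^ I) ≤ N) :
    (((range N).filter fun n => ¬ ManyRatios d ((2 : ℝ) ^ 2 ^ (I - 2)) n).card : ℝ) ≤
      (51 + 16 * (W : ℝ)) * (N / (2 : ℝ) ^ 2 ^ (I - 2)) := by
  have hd0 : 0 < d := by omega
  set t : ℝ := (2 : ℝ) ^ 2 ^ (I - 2) with ht
  have ht2 : 2 ≤ t := by
    calc (2 : ℝ) = 2 ^ 1 := by norm_num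
      _ ≤ 2 ^ 2 ^ (I - 2) := pow_le_pow_right₀ (by norm_num) Nat.one_le_two_pow
  have ht1 : 1 ≤ t := by linarith
  have ht0 : 0 < t := by linarith
  have hW1 : (1 : ℝ) ≤ W := by exact_mod_cast hW0
  have hN0 : (0 : ℝ) ≤ N := Nat.cast_nonneg _
  have h2I : 2 ^ I = 2 ^ (I - 2) * 4 := by
    have : I = (I - 2) + 2 := by omega
    conv_lhs => rw [this, pow_add]
    norm_num
  have e1 : ((2 ^ 2 ^ I : ℕ) : ℝ) = t ^ 4 := by
    push_cast
    rw [ht, ← pow_mul, h2I]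
  have hy : √((2 ^ 2 ^ I : ℕ) : ℝ) = t ^ 2 := by
    rw [e1, show t ^ 4 = (t ^ 2) ^ 2 by ring, Real.sqrt_sq (by positivity)]
  set kn : ℕ := 2 ^ (K0 d * 2 ^ I) with hkn
  set k : ℝ := (kn : ℝ) with hk
  have hk0 : 0 < k := by rw [hk, hkn]; positivity
  have ekt : k = t ^ (4 * K0 d) := by
    rw [hk, hkn, ht, ← pow_mul, h2I]
    push_cast
    congr 1
    ring
  have hK0 : 26 ≤ K0 d := by unfold K0; omega
  have hkt : t ^ 8 ≤ k := by
    rw [ekt]
    exact pow_le_pow_right₀ ht1 (by omega)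
  have hWt : 2 * (W : ℝ) ≤ t := by
    have h1 : 2 * W ≤ (2 * W) ^ E0 d := Nat.le_self_pow (by unfold E0; omega) _
    have h2 : 2 * W ≤ 2 ^ 2 ^ (I - 2) := h1.trans hC
    rw [ht]
    exact_mod_cast h2
  -- the index set
  set G := GSet d W z I with hGdef
  have hG : G ⊆ range kn := (Finset.filter_subset _ _).trans (Finset.filter_subset _ _)
  have hkn0 : 0 < kn := by positivity
  have HG : ∀ i ∈ G, Rough (2 ^ 2 ^ I) (f d (W * (i + 1))) := fun i hi =>
    rough_RSet hd0 hW (Finset.mem_filter.1 hi).1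
  have hcardG := card_GSet (W := W) hd0 hz I (by omega)
  have h1 := finite_many (N := N) hd0 hz hW0 hW (Nat.one_le_two_pow (n := 2 ^ I)) hG hkn0 HG
    (δ := 1 / (2 : ℝ) ^ (24 * d * I + 3)) (by positivity) hcardG
  -- the bounds for the roots
  have hXs : ∀ i ∈ G, ∀ n, (A d (f d (W * (i + 1))) n : ℝ) ≤ √(2 * W * k) := by
    intro i hi n
    have h5 := X_sq_le (j := i) hd0 hz hW hW0
    have h6 : 2 * (W * (i + 1)) ≤ 2 * W * kn := by
      rw [mul_assoc]
      exact Nat.mul_le_mul_left _ (Nat.mul_le_mul_left _ (Finset.mem_range.1 (hG hi)))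
    refine Real.le_sqrt_of_sq_le ?_
    have h7 : A d (f d (W * (i + 1))) n ^ 2 ≤ 2 * W * kn :=
      (Nat.pow_le_pow_left (A_le_X hd0 hz hW) 2).trans (h5.trans h6)
    have h8 : ((A d (f d (W * (i + 1))) n ^ 2 : ℕ) : ℝ) ≤ ((2 * W * kn : ℕ) : ℝ) :=
      Nat.cast_le.2 h7
    rw [Nat.cast_pow, Nat.cast_mul, Nat.cast_mul, Nat.cast_ofNat] at h8
    exact h8
  have h4 : (2 : ℝ) ^ (48 * d * I + 6) ≤ t := pow_le_pow_right₀ (by norm_num) hI2
  have h4' : (2 : ℝ) ^ (24 * d * I + 3) ≤ t := by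
    refine le_trans (pow_le_pow_right₀ (by norm_num) ?_) h4
    have : 24 * d * I ≤ 48 * d * I := by nlinarith
    omega
  have hsqrt : √(2 * W * k) ≤ 2 * W * k / t ^ 4 := by
    rw [Real.sqrt_le_iff]
    refine ⟨by positivity, ?_⟩
    rw [div_pow, le_div_iff₀ (by positivity)]
    have h4 : (t ^ 4) ^ 2 = t ^ 8 := by ring
    rw [h4]
    have h5 : t ^ 8 ≤ 2 * W * k := by nlinarith
    have h6 : 0 ≤ 2 * (W : ℝ) * k := by positivity
    nlinarith
  have hkey : 2 * t * √(2 * W * k) ≤ 1 / (2 : ℝ) ^ (24 * d * I + 3) * k := by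
    have h5 : 1 / t ≤ 1 / (2 : ℝ) ^ (24 * d * I + 3) :=
      one_div_le_one_div_of_le (by positivity) h4'
    calc 2 * t * √(2 * W * k) ≤ 2 * t * (2 * W * k / t ^ 4) := by gcongr
      _ = 2 * (2 * W) * k / t ^ 3 := by field_simp
      _ ≤ t * t * k / t ^ 3 := by gcongr
      _ = 1 / t * k := by field_simp
      _ ≤ 1 / (2 : ℝ) ^ (24 * d * I + 3) * k := by gcongr
  -- the inclusion
  have h2 : ((range N).filter fun n => ¬ ManyRatios d t n) ⊆
      (((range N).filter fun n => 2 * (∑ i ∈ G, A d (f d (W * (i + 1))) n) ≤ G.card) ∪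
        range ((2 * W * kn) ^ ((d + 4) * d))) ∪
        ((range N).filter fun n => ∃ t : ℕ, t ^ d = n) := by
    intro n hn
    obtain ⟨hn1, hn2⟩ := Finset.mem_filter.1 hn
    by_contra hcon
    rw [Finset.mem_union, not_or, Finset.mem_union, not_or, Finset.mem_filter] at hcon
    obtain ⟨⟨h3, h4⟩, h5⟩ := hcon
    rw [Finset.mem_range, not_lt] at h4
    have h3' : G.card < 2 * ∑ i ∈ G, A d (f d (W * (i + 1))) n := by
      by_contra h
      exact h3 ⟨hn1, not_lt.1 h⟩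
    have h5' : ∀ t : ℕ, t ^ d ≠ n := fun t ht =>
      h5 (Finset.mem_filter.2 ⟨hn1, t, ht⟩)
    apply hn2
    set G' := G.filter fun i => A d (f d (W * (i + 1))) n ≠ 0 with hG'
    refine ⟨G'.image fun i => W * (i + 1), ?_, ?_⟩
    · rw [Finset.card_image_of_injective _ (fun i j hij => by
        have h6 := Nat.eq_of_mul_eq_mul_left hW0 hij
        omega)]
      have h6 : ∑ i ∈ G, (A d (f d (W * (i + 1))) n : ℝ) ≤ G'.card * √(2 * W * k) := by
        have h7 : ∑ i ∈ G, (A d (f d (W * (i + 1))) n : ℝ) =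
            ∑ i ∈ G', (A d (f d (W * (i + 1))) n : ℝ) := by
          rw [hG', Finset.sum_filter]
          refine Finset.sum_congr rfl fun i _ => ?_
          by_cases h : A d (f d (W * (i + 1))) n = 0
          · simp [h]
          · rw [if_pos h]
        rw [h7, ← nsmul_eq_mul]
        exact Finset.sum_le_card_nsmul _ _ _ fun i hi => hXs i (Finset.mem_filter.1 hi).1 n
      have h8 : (G.card : ℝ) < 2 * ∑ i ∈ G, (A d (f d (W * (i + 1))) n : ℝ) := by
        exact_mod_cast h3'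
      have h9 : 1 / (2 : ℝ) ^ (24 * d * I + 3) * k ≤ (G.card : ℝ) := hcardG
      have h10 : 2 * t * √(2 * W * k) < 2 * (G'.card * √(2 * W * k)) := by linarith
      have h11 : 0 < √(2 * W * k) := Real.sqrt_pos.2 (by positivity)
      nlinarith
    · intro a ha
      obtain ⟨j, hj, rfl⟩ := Finset.mem_image.1 ha
      obtain ⟨hjG, hj0⟩ := Finset.mem_filter.1 hj
      have ha0 : 0 < W * (j + 1) := by positivity
      have ha1 : 2 * (W * (j + 1)) ≤ 2 * W * kn := by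
        rw [mul_assoc]
        exact Nat.mul_le_mul_left _ (Nat.mul_le_mul_left _ (Finset.mem_range.1 (hG hjG)))
      exact ⟨ha0, tilesRatio_of hd0 ha0 ((threshold ha0 ha1).trans h4) (nonzero_root hj0) h5'⟩
  have h3 := Finset.card_le_card h2
  have h3a := h3.trans ((Finset.card_union_le _ _).trans
    (Nat.add_le_add (Finset.card_union_le _ _) (card_powers hd)))
  rw [Finset.card_range] at h3a
  have h3b : (((range N).filter fun n => ¬ ManyRatios d t n).card : ℝ) ≤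
      (((range N).filter fun n =>
        2 * (∑ i ∈ G, A d (f d (W * (i + 1))) n) ≤ G.card).card : ℝ) +
      (2 * (W : ℝ) * k) ^ ((d + 4) * d) + ((Nat.sqrt N : ℝ) + 1) := by
    rw [hk]
    exact_mod_cast h3a
  -- numerical bounds
  have h2' : √(2 * W * k) / k ≤ 2 * W / t ^ 2 := by
    have h5 : √(2 * W * k) / k ≤ 2 * W * k / t ^ 4 / k := by gcongr
    refine h5.trans ?_
    have h6 : 2 * W * k / t ^ 4 / k = 2 * W / t ^ 4 := by field_simp
    rw [h6]
    exact div_le_div_of_nonneg_left (by positivity) (by positivity)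
      (pow_le_pow_right₀ ht1 (by norm_num))
  have h3' : (1 / (2 : ℝ) ^ (24 * d * I + 3)) ^ 2 = 1 / (2 : ℝ) ^ (48 * d * I + 6) := by
    rw [div_pow, one_pow, ← pow_mul]
    congr 2
    ring
  have h5 : (12 / t ^ 2 + 2 * (√(2 * W * k) / k)) / (1 / (2 : ℝ) ^ (24 * d * I + 3)) ^ 2 ≤
      (12 + 4 * W) / t := by
    rw [h3', div_div_eq_mul_div, div_one]
    calc (12 / t ^ 2 + 2 * (√(2 * W * k) / k)) * (2 : ℝ) ^ (48 * d * I + 6)
        ≤ (12 / t ^ 2 + 2 * (2 * W / t ^ 2)) * t := by gcongr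
      _ = (12 + 4 * W) / t := by field_simp; ring
  have h9' : (2 * (W : ℝ) * k) ^ E0 d * t ^ 4 ≤ N := by
    have e2 : (2 * (W : ℝ) * k) ^ E0 d * t ^ 4 =
        (((2 * W) ^ E0 d * 2 ^ (R0 d * 2 ^ I) : ℕ) : ℝ) := by
      rw [← e1, hk, hkn]
      push_cast
      rw [mul_pow (2 * (W : ℝ)), ← pow_mul, mul_assoc, ← pow_add]
      congr 2
      unfold R0
      ring
    rw [e2]
    exact_mod_cast hN
  have hk1 : 1 ≤ k := le_trans (one_le_pow₀ ht1) hkt
  have h6 : 4 * (3 * ((2 * (W : ℝ) * k) ^ d) ^ 2) + (2 * (W : ℝ) * k) ^ ((d + 4) * d) ≤ N / t := by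
    have hQk : k ≤ 2 * (W : ℝ) * k := by nlinarith
    set Q := 2 * (W : ℝ) * k with hQ
    have hQ4 : 4 ≤ Q := by
      have : (2 : ℝ) ^ 8 ≤ t ^ 8 := pow_le_pow_left₀ (by norm_num) ht2 8
      norm_num at this
      linarith
    have h7 : (Q ^ d) ^ 2 ≤ Q ^ ((d + 4) * d) := by
      rw [← pow_mul]
      exact pow_le_pow_right₀ (by linarith) (by nlinarith)
    have h8 : 13 * Q ^ ((d + 4) * d) ≤ Q ^ E0 d := by
      unfold E0
      rw [pow_add _ _ 2]
      have h8a : 0 ≤ Q ^ ((d + 4) * d) := by positivity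
      have h8b : 13 ≤ Q ^ 2 := by nlinarith
      calc 13 * Q ^ ((d + 4) * d) = Q ^ ((d + 4) * d) * 13 := by ring
        _ ≤ Q ^ ((d + 4) * d) * Q ^ 2 := mul_le_mul_of_nonneg_left h8b h8a
    have h10 : Q ^ E0 d ≤ N / t := by
      rw [le_div_iff₀ ht0]
      refine le_trans ?_ h9'
      refine mul_le_mul_of_nonneg_left ?_ (by positivity)
      calc t = t ^ 1 := (pow_one t).symm
        _ ≤ t ^ 4 := pow_le_pow_right₀ ht1 (by norm_num)
    linarith
  have h7 : (Nat.sqrt N : ℝ) + 1 ≤ 2 * (N / t) := by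
    have h8 : t ^ 4 ≤ N := by
      refine le_trans ?_ h9'
      have : 1 ≤ (2 * (W : ℝ) * k) ^ E0 d := one_le_pow₀ (by nlinarith)
      have h10 : 0 ≤ t ^ 4 := by positivity
      nlinarith
    have h9 : (Nat.sqrt N : ℝ) ≤ √(N : ℝ) := Real.nat_sqrt_le_real_sqrt
    have h10 : t ≤ √(N : ℝ) := by
      refine Real.le_sqrt_of_sq_le (le_trans ?_ h8)
      exact pow_le_pow_right₀ ht1 (by norm_num)
    have h11 : √(N : ℝ) * √(N : ℝ) = N := Real.mul_self_sqrt hN0
    have h12 : t * √(N : ℝ) ≤ N := by nlinarith [Real.sqrt_nonneg (N : ℝ)]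
    have h13 : t * t ≤ t * √(N : ℝ) := mul_le_mul_of_nonneg_left h10 ht0.le
    have h14 : √(N : ℝ) ≤ N / t := by
      rw [le_div_iff₀ ht0]; linarith
    have h15 : 1 ≤ N / t := by
      rw [le_div_iff₀ ht0]; nlinarith
    linarith
  rw [hy] at h1
  have h11 := mul_le_mul_of_nonneg_left h5 hN0
  calc _ ≤ 4 * (N * ((12 + 4 * (W : ℝ)) / t)) + N / t + 2 * (N / t) := by linarith
    _ = (51 + 16 * (W : ℝ)) * (N / t) := by ring

open Classical in
/-- **Many ratios for all but `O(N ^ (1 - c))` numbers `n ≤ N`.** -/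
theorem many_ratios (d : ℕ) (hd : 2 ≤ d) : ∃ c : ℝ, 0 < c ∧ c ≤ 1 ∧ ∃ C : ℝ, ∀ N : ℕ, 1 ≤ N →
    (((Icc 1 N).filter fun n : ℕ => ¬ ManyRatios d ((n : ℝ) ^ c) n).card : ℝ) ≤
      C * (N : ℝ) ^ (1 - c) := by
  set z := (2 * d) ^ (8 * d) with hz
  set W := z.factorial with hWdef
  have hW0 : 0 < W := Nat.factorial_pos z
  have hW : ∀ p : ℕ, p.Prime → p ≤ z → p ∣ W := fun p hp hpz => (hp.dvd_factorial).2 hpz
  set C0 := (2 * W) ^ E0 d with hC0
  set I₁ := 4 * (48 * d) + 4 * (6 + C0) + 8 with hI₁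
  set r := 8 * R0 d + 1 with hr
  have hr0 : (0 : ℝ) < r := by rw [hr]; positivity
  have hr1 : (1 : ℝ) ≤ r := by rw [hr]; push_cast; linarith [Nat.cast_nonneg (α := ℝ) (R0 d)]
  refine ⟨1 / r, by positivity, by rw [div_le_one hr0]; exact hr1,
    max (Lam d W I₁) (2 * (51 + 16 * W)), fun N hN => ?_⟩
  have hNR : (1 : ℝ) ≤ N := by exact_mod_cast hN
  have hN0 : (0 : ℝ) < N := by linarith
  have hpow1 : (1 : ℝ) ≤ (N : ℝ) ^ (1 - 1 / (r : ℝ)) := by
    refine Real.one_le_rpow hNR ?_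
    rw [sub_nonneg, div_le_one hr0]; exact hr1
  rcases Nat.lt_or_ge (N + 1) (Lam d W I₁) with hsmall | hlarge
  · have h1 : (((Icc 1 N).filter fun n : ℕ =>
        ¬ ManyRatios d ((n : ℝ) ^ (1 / (r : ℝ))) n).card : ℝ) ≤ Lam d W I₁ := by
      have h2 : ((Icc 1 N).filter fun n : ℕ =>
          ¬ ManyRatios d ((n : ℝ) ^ (1 / (r : ℝ))) n).card ≤ Lam d W I₁ := by
        refine (Finset.card_le_card (Finset.filter_subset _ _)).trans ?_
        rw [Nat.card_Icc]
        omega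
      exact_mod_cast h2
    calc _ ≤ (Lam d W I₁ : ℝ) := h1
      _ ≤ max (Lam d W I₁ : ℝ) (2 * (51 + 16 * W)) := le_max_left _ _
      _ ≤ max (Lam d W I₁ : ℝ) (2 * (51 + 16 * W)) * (N : ℝ) ^ (1 - 1 / (r : ℝ)) :=
          le_mul_of_one_le_right (le_max_of_le_right (by positivity)) hpow1
  · obtain ⟨I, hI₁I, hI, hI'⟩ := choose_I hW0 I₁ (N + 1) hlarge
    have hlin := linear_le_pow (48 * d) (6 + C0) I (hI₁I)
    have hI2 : 48 * d * I + 6 ≤ 2 ^ (I - 2) := by omega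
    have hC0I : C0 ≤ 2 ^ 2 ^ (I - 2) := by
      calc C0 ≤ 2 ^ (I - 2) := by omega
        _ ≤ 2 ^ 2 ^ (I - 2) := Nat.lt_two_pow_self.le
    have h1 := bound_many hd le_rfl hW0 hW I (by omega) hI2 hC0I (N + 1) hI
    set t : ℝ := (2 : ℝ) ^ 2 ^ (I - 2) with ht
    have ht1 : 1 ≤ t := one_le_pow₀ (by norm_num)
    have ht0 : 0 < t := by linarith
    have hC0t : (C0 : ℝ) ≤ t := by
      rw [ht]
      exact_mod_cast hC0I
    have hpow : 2 ^ (I + 1) = 8 * 2 ^ (I - 2) := by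
      have h3 : I + 1 = (I - 2) + 3 := by omega
      rw [h3, pow_add]; norm_num; ring
    have hNt : (N : ℝ) ≤ t ^ r := by
      have h2 : N ≤ C0 * 2 ^ (R0 d * 2 ^ (I + 1)) := by
        have : N + 1 < C0 * 2 ^ (R0 d * 2 ^ (I + 1)) := hI'
        omega
      calc (N : ℝ) ≤ ((C0 * 2 ^ (R0 d * 2 ^ (I + 1)) : ℕ) : ℝ) := by exact_mod_cast h2
        _ = C0 * t ^ (8 * R0 d) := by
            push_cast
            rw [ht, ← pow_mul, hpow]
            congr 2
            ring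
        _ ≤ t * t ^ (8 * R0 d) := by gcongr
        _ = t ^ r := by rw [hr, pow_succ]; ring
    have hNc : (N : ℝ) ^ (1 / (r : ℝ)) ≤ t := by
      calc (N : ℝ) ^ (1 / (r : ℝ)) ≤ (t ^ r) ^ (1 / (r : ℝ)) :=
            Real.rpow_le_rpow hN0.le hNt (by positivity)
        _ = t := by
            rw [← Real.rpow_natCast t r, ← Real.rpow_mul ht0.le, mul_one_div_cancel hr0.ne',
              Real.rpow_one]
    have hNc0 : 0 < (N : ℝ) ^ (1 / (r : ℝ)) := Real.rpow_pos_of_pos hN0 _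
    have h2 : ((Icc 1 N).filter fun n : ℕ => ¬ ManyRatios d ((n : ℝ) ^ (1 / (r : ℝ))) n) ⊆
        ((range (N + 1)).filter fun n => ¬ ManyRatios d t n) := by
      intro n hn
      obtain ⟨hn1, hn2⟩ := Finset.mem_filter.1 hn
      obtain ⟨hn3, hn4⟩ := Finset.mem_Icc.1 hn1
      refine Finset.mem_filter.2 ⟨Finset.mem_range.2 (by omega), fun h3 => hn2 (h3.mono ?_)⟩
      have hn0 : (0 : ℝ) < n := by exact_mod_cast hn3
      exact le_trans (Real.rpow_le_rpow hn0.le (by exact_mod_cast hn4) (by positivity)) hNc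
    have h3 : (((Icc 1 N).filter fun n : ℕ =>
        ¬ ManyRatios d ((n : ℝ) ^ (1 / (r : ℝ))) n).card : ℝ) ≤
        (((range (N + 1)).filter fun n => ¬ ManyRatios d t n).card : ℝ) := by
      exact_mod_cast Finset.card_le_card h2
    calc _ ≤ (51 + 16 * (W : ℝ)) * (((N + 1 : ℕ) : ℝ) / t) := h3.trans h1
      _ ≤ (51 + 16 * (W : ℝ)) * (2 * N / (N : ℝ) ^ (1 / (r : ℝ))) := by
          refine mul_le_mul_of_nonneg_left ?_ (by positivity)
          refine div_le_div₀ (by positivity) ?_ hNc0 hNc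
          push_cast; linarith
      _ = 2 * (51 + 16 * (W : ℝ)) * (N : ℝ) ^ (1 - 1 / (r : ℝ)) := by
          rw [Real.rpow_sub hN0, Real.rpow_one]; ring
      _ ≤ _ := mul_le_mul_of_nonneg_right (le_max_right _ _) (by positivity)

end Pool.Agent.H172.TC
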